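import Pool.Agent.Q4.SPC.Stm

/-!
# Further statements of lemma jobs of the project SPC (helper4, MP_34be05_nt)
-/

open IsDedekindDomain NumberField Matrix Q4.GLC

namespace Q4.SPC

/-- JOB SE3: squares of elementary symplectic matrices are products of commutators, over every ring.

Proof. Let `C` be the commutator subgroup, `i ≠ j` (`n ≥ 2`). Formulas as in `SB`:
(1) `[lvt i j 1, up (b (E_ij + E_ji))] = up (2 b E_ii)`: so `up (2 b E_ii) ∈ C`;
(2) `[lvt i j 1, up (b E_jj)] = up (b (E_ij + E_ji) + b E_ii)`: its square and (1) give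
`up (2 b (E_ij + E_ji)) ∈ C`. So all `up (2 S) = up S * up S` are in `C`; `lo S * lo S` by `symJ_up`;
(3) `[up (E_ij + E_ji), lo (b E_jj)] = lvt i j b * up (- b E_ii)`, so `lvt i j b = c * up (b E_ii)`
with `c ∈ C`, and `(c u)² = c (u c u⁻¹) u²`. -/
def SE3 : Prop :=
  ∀ (R : Type) [CommRing R] (n : ℕ), 2 ≤ n → ∀ x : Sp n R, IsEl 1 x →
    x * x ∈ commutator (Sp n R)

/-- JOB SE4: additive functions on `Sp_{2n}(O_v)` with values in a group without elements of order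
two vanish (no condition on `v`, also for `n = 2`).

Proof. As `SE2`, with `SE3` in the place of `SE1`: for an elementary matrix `x` of `Sp n O_v`,
`φ x + φ x = φ (x * x) = 0`, as an additive function vanishes on commutators; so `φ x = 0`, and `SA`
(the local ring `O_v` has stable range one) gives `φ = 0`. -/
def SE4 : Prop :=
  SA → SE3 → ∀ (F : Type) [Field F] [NumberField F] (n : ℕ), 2 ≤ n → ∀ (v : Pl F),
    ∀ (A : Type) [AddCommGroup A], (∀ a : A, a + a = 0 → a = 0) → ∀ (φ : Sp n (Af F) → A),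
    (∀ g ∈ KS F n v, ∀ h ∈ KS F n v, φ (g * h) = φ g + φ h) → ∀ g ∈ KS F n v, φ g = 0

/-- JOB SO2: `SO` for quadratic forms, in all characteristics.

Proof. `N` acts unipotently, so its image is an `ℓ`-group. Claim (as in `SO`): every nonzero module
`U` which is a subquotient of `kᵐ` contains an eigenvector of `Q` on which `N` acts trivially
(`U^N ≠ 0`, it is `Q`-stable, `Q / N` is cyclic, `k` is algebraically closed). Let `b` be the polar
form of `q` (`b(x, x) = 2 q(x)`), and suppose that `q` does not vanish at the eigenvectors.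
Characteristic `≠ 2`: as in `SO` take eigenvectors `w₁ ∈ kᵐ`, `w₂ ∈ w₁^⊥`, `w₃ ∈ {w₁, w₂}^⊥` (nonzero
subspaces as `3 ≤ m`), with `q(w_i) ≠ 0`; a generator of `Q / N` acts on `w_i` by `ε_i`, `ε_i² = 1`;
two of the signs are equal, say `ε_i = ε_j`, and `w = w_i + c w_j`, `c² = - q(w_i) / q(w_j)`, has
`q(w) = 0` (`w ≠ 0` as `w_i, w_j` are linearly independent: `b(w_i, w_i) ≠ 0 = b(w_i, w_j)`).
Characteristic `2`: let `w₁` be an eigenvector, `q(w₁) ≠ 0`; `w₁ ∈ w₁^⊥`, and `w₁^⊥` has dimension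
`≥ m - 1 ≥ 2`, so the claim for `U = w₁^⊥ / k w₁` gives `w₂ ∈ w₁^⊥`, not in `k w₁`, with
`g w₂ = a(g) w₂ + c(g) w₁`. Let `w = w₂ + x w₁` with `x² = - q(w₂) / q(w₁)`: `q(w) = 0`, and
`g w = a w + c' w₁` with `0 = q(g w) = a² q(w) + a c' b(w, w₁) + c'² q(w₁) = c'² q(w₁)`, so
`c' = 0`. -/
def SO2 : Prop :=
  ∀ (k : Type) [Field k] [IsAlgClosed k] (ℓ : ℕ) [Fact ℓ.Prime] [CharP k ℓ] (m : ℕ), 3 ≤ m →
    ∀ (Q : Type) [Group Q] [Finite Q] (N : Subgroup Q) [N.Normal], IsCyclic (Q ⧸ N) →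
    ∀ (q : QuadraticForm k (Fin m → k)) (ρ : Q →* GL (Fin m) k),
    (∀ g w, q ((ρ g).1 *ᵥ w) = q w) →
    (∀ g ∈ N, (ρ g).1.charpoly = (Polynomial.X - Polynomial.C 1) ^ m) →
    ∃ w : Fin m → k, w ≠ 0 ∧ q w = 0 ∧ ∀ g, ∃ a : k, (ρ g).1 *ᵥ w = a • w

end Q4.SPC
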