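import Pool.Agent.Q4.SPC.Cen
import Pool.Agent.Q4.SPC.Stm2
import Pool.Agent.Q4.SPC.CasW
import Pool.Agent.Q4.GLC.Gal
import Pool.Agent.Q4.GLC.Eig
import Pool.Agent.Q4.GLC.Sra
import Pool.Agent.Q4.GLC.App

/-!
# The symplectic groups in the degrees zero and one: assembly (helper4, project SPC)
-/

open IsDedekindDomain NumberField Matrix Polynomial Q4.GLC

namespace Q4.SPC

/-- a place outside `S` and a matrix with the components `1` at the other places: the index of a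
Hecke operator -/
abbrev HIdx (F : Type) [Field F] [NumberField F] (n : ℕ) (S : Set (Pl F)) : Type :=
  {p : Pl F × Sp n (Af F) // p.1 ∉ S ∧ AtPl p.1 p.2}

section data

variable {F : Type} [Field F] [NumberField F] {n : ℕ} {k W : Type} [Field k] [AddCommGroup W]
  [Module k W]

/-- the component of `K` at `v ∉ S` is `Sp_{2n}(O_v)`, and it acts trivially -/
def UnramOut (K : Subgroup (Sp n (Af F))) (ρ : Representation k K W) (S : Set (Pl F)) : Prop :=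
  ∀ v ∉ S, (∀ κ ∈ K, ∀ i j, Valued.v ((κ.1 i j) v) ≤ 1) ∧ TrivOn (KS F n v) K ρ

/-- `θ` is a system of eigenvalues of the Hecke operators of the double cosets
`Sp_{2n}(O_v) t Sp_{2n}(O_v)`, `v ∉ S`, in `H^0(Sp_{2n}(F), M_W)` or in `H^1(Sp_{2n}(F), M_W)` -/
def Eig (K : Subgroup (Sp n (Af F))) (ρ : Representation k K W) (S : Set (Pl F))
    (θ : Pl F → Sp n (Af F) → k) : Prop :=
  EigG0 (dS F n) ⊤ K ρ (fun p : HIdx F n S => KS F n p.1.1) (fun p => p.1.2)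
      (fun p => θ p.1.1 p.1.2) ∨
    EigG1 (dS F n) ⊤ K ρ (fun p : HIdx F n S => KS F n p.1.1) (fun p => p.1.2)
      (fun p => θ p.1.1 p.1.2)

/-- The representation `ρ` of `Gal(L/F)` on `k^{2n+1}` is attached to the trivial system of
eigenvalues outside `S`: for every place `v ∉ S` with `q_v ≠ 0` in `k`, every prime `P` of `L` over
`v` and every Frobenius element `g` at `P`, the characteristic polynomial of `ρ g` is
`∏ (X - q_v^i)`, `-n ≤ i ≤ n`. -/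
def AttTriv {L : Type} [Field L] [NumberField L] [Algebra F L]
    (ρ : (L ≃ₐ[F] L) →* GL (Fin (2 * n + 1)) k) (S : Set (Pl F)) : Prop :=
  ∀ v ∉ S, ((qv v : ℕ) : k) ≠ 0 → ∀ P : Ideal (𝓞 L), P.IsPrime →
    P.comap (algebraMap (𝓞 F) (𝓞 L)) = v.asIdeal → ∀ g : L ≃ₐ[F] L, IsFrobAt g P (qv v) →
      (ρ g).1.charpoly =
        ∏ i ∈ Finset.range (2 * n + 1), (X - C (((qv v : ℕ) : k) ^ ((i : ℤ) - (n : ℤ))))

/-- `ρ` preserves the quadratic form `q` -/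
def Preserves {Q : Type} [Group Q] {m : ℕ} (ρ : Q →* GL (Fin m) k)
    (q : QuadraticForm k (Fin m → k)) : Prop := ∀ g w, q ((ρ g).1 *ᵥ w) = q w

/-- `ρ` has an invariant line on which the quadratic form `q` vanishes -/
def SingLine {Q : Type} [Group Q] {m : ℕ} (ρ : Q →* GL (Fin m) k)
    (q : QuadraticForm k (Fin m → k)) : Prop :=
  ∃ w : Fin m → k, w ≠ 0 ∧ q w = 0 ∧ ∀ g, ∃ a : k, (ρ g).1 *ᵥ w = a • w

end data

variable {F : Type} [Field F] [NumberField F] {n : ℕ}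

theorem sys (hSA : SA) (hSB : SB) (hSCR : SCR) (hSC1 : SC1) (hSC2 : SC2) (hSD : SD) (hSI : SI)
    (hSH : SH) (hn : 2 ≤ n) :
    Sys (dS F n) (⊤ : Subgroup (Sp n F)) (1 : Sp n (Af F) →* Unit) (US F n) where
  mono _ _ h := US_mono h
  nrm _ _ hv _ hu := US_conj hv hu
  den g N hN := hSI F n g N hN
  dns s _ M hM := by
    obtain ⟨γ, h⟩ := hSH hSA tSra tApp hSI F n s M hM
    exact ⟨γ, Subgroup.mem_top γ, h⟩
  cen A _ N hN φ hφ γ _ := by
    obtain ⟨M, hM, h⟩ := cen (A := A) hSA hSB hSCR hSC1 hSC2 hSD hSI hn γ N hN φ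
      (fun δ δ' h1 h2 => hφ δ (Subgroup.mem_top δ) δ' (Subgroup.mem_top δ') h1 h2)
    exact ⟨M, hM, fun δ _ hδ => h δ hδ⟩
  fin M hM := by
    refine ⟨{1}, fun g => ?_⟩
    obtain ⟨γ, h⟩ := hSH hSA tSra tApp hSI F n g M hM
    exact ⟨γ, Subgroup.mem_top γ, 1, Finset.mem_singleton_self 1, _, h, by group⟩

theorem hd (hSA : SA) (hSE1 : SE1) (hSE2 : SE2) (hSE3 : SE3) (hSE4 : SE4) (hSF : SF) (hSG : SG)
    (hn : 2 ≤ n) {k W : Type} [Field k] [AddCommGroup W] [Module k W]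
    {K : Subgroup (Sp n (Af F))} {ρ : Representation k K W} {v : Pl F}
    (hq : n = 2 → (2 : k) = 0 → qv v ≠ 2)
    (h1 : ∀ κ ∈ K, ∀ i j, Valued.v ((κ.1 i j) v) ≤ 1) (h2 : TrivOn (KS F n v) K ρ)
    {t : Sp n (Af F)} (ht : AtPl v t) :
    HDw K ρ (1 : Sp n (Af F) →* Unit) (KS F n v) t where
  le := h2.1
  triv := h2.2
  dec κ hκ := by
    obtain ⟨g', l, hl, e, h⟩ := hSG F n v κ (h1 κ hκ)
    exact ⟨g', l, hl, e, fun h' hh' => h h' hh'.2, h t ht⟩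
  fin := hSF F n v t ht
  rep l hl := ⟨l, hl, rfl, rfl⟩
  per φ hφ g hg _ := by
    by_cases h2k : (2 : k) = 0
    · exact hSE2 hSA hSE1 F n hn v (fun h => hq h h2k) _ φ
        (fun g hg h hh => hφ g hg h hh rfl rfl) g hg
    · refine hSE4 hSA hSE3 F n hn v _ (fun a ha => ?_) φ
        (fun g hg h hh => hφ g hg h hh rfl rfl) g hg
      funext x
      have h3 : (2 : k) • a x = 0 := by
        rw [two_smul]
        exact congrFun ha x
      exact (smul_eq_zero.1 h3).resolve_left h2k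

/-- the systems of eigenvalues in the degrees zero and one -/
theorem main (hSA : SA) (hSB : SB) (hSCR : SCR) (hSC1 : SC1) (hSC2 : SC2) (hSD : SD) (hSI : SI)
    (hSH : SH) (hSE1 : SE1) (hSE2 : SE2) (hSE3 : SE3) (hSE4 : SE4) (hSF : SF) (hSG : SG)
    (hn : 2 ≤ n) {k W : Type} [Field k] [IsAlgClosed k] [AddCommGroup W] [Module k W]
    (K : Subgroup (Sp n (Af F))) (ρ : Representation k K W) (hK : LevelG (US F n) K ρ)
    (S : Set (Pl F)) (hS : UnramOut K ρ S) (hS2 : n = 2 → (2 : k) = 0 → ∀ v ∉ S, qv v ≠ 2)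
    (θ : Pl F → Sp n (Af F) → k) (h : Eig K ρ S θ) :
    ∀ v ∉ S, ∀ t, AtPl v t → θ v t = (dgr (KS F n v) t : k) := by
  have hSys := sys (F := F) hSA hSB hSCR hSC1 hSC2 hSD hSI hSH hn
  obtain ⟨⟨N1, hN1, hNK, hNF⟩, ⟨N2, hN2, hN2ρ⟩⟩ := hK
  have hK' : ∃ N : ℕ, 1 ≤ N ∧ ∀ u ∈ US F n N, ∃ h : u ∈ K, ρ ⟨u, h⟩ = 1 :=
    ⟨N1 * N2, Nat.mul_pos hN1 hN2, fun u hu =>
      ⟨hNK (US_mono (Dvd.intro _ rfl) hu), hN2ρ ⟨u, _⟩ (US_mono (Dvd.intro_left _ rfl) hu)⟩⟩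
  have hHD : ∀ p : HIdx F n S, HDw K ρ (1 : Sp n (Af F) →* Unit) (KS F n p.1.1) p.1.2 := fun p =>
    hd hSA hSE1 hSE2 hSE3 hSE4 hSF hSG hn (fun h h' => hS2 h h' _ p.2.1) (hS _ p.2.1).1
      (hS _ p.2.1).2 p.2.2
  have hC : Ccl k (dS F n) (⊤ : Subgroup (Sp n F)) (1 : Sp n (Af F) →* Unit) (US F n)
      (fun p : HIdx F n S => KS F n p.1.1) (fun p => p.1.2) (fun p => θ p.1.1 p.1.2) := by
    rcases h with ⟨f, hf, hf0, hinv, hθ⟩ | ⟨c, hc, hc0, hθ⟩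
    · exact case0w tEig hSys hK' _ _ _ hHD f hf hf0 hinv hθ
    · exact case1w tEig hSys hK' ⟨N1, hN1, hNF⟩ _ _ _ hHD c hc hc0 hθ
  obtain ⟨χ, h1, -, -, h4⟩ := hC
  intro v hv t ht
  have h5 := h4 ⟨(v, t), hv, ht⟩
  have h6 : χ t = 1 := h1 t (mem_DG.2 ⟨1, Subgroup.one_mem _, rfl⟩)
  change θ v t = (dgr (KS F n v) t : k) * (χ t : k) at h5
  rw [h5, h6, Units.val_one, mul_one]

/-- orthogonal representations attached to the trivial system of eigenvalues -/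
theorem orth (hSO : SO2) (hn : 1 ≤ n) {k : Type} [Field k] [IsAlgClosed k] (ℓ : ℕ)
    [Fact ℓ.Prime] [CharP k ℓ] {S : Set (Pl F)} (hS : S.Finite) {L : Type} [Field L]
    [NumberField L] [Algebra F L] [IsGalois F L]
    (ρ : (L ≃ₐ[F] L) →* GL (Fin (2 * n + 1)) k) (q : QuadraticForm k (Fin (2 * n + 1) → k))
    (hq : Preserves ρ q) (hρ : AttTriv ρ S) : SingLine ρ q := by
  obtain ⟨N, hN, hcyc, hfr⟩ := tFrb F L ℓ Fact.out S hS
  have : FiniteDimensional F L := Module.Finite.of_restrictScalars_finite ℚ F L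
  refine hSO k ℓ (2 * n + 1) (by omega) (L ≃ₐ[F] L) N hcyc q ρ hq ?_
  intro g hg
  obtain ⟨v, hv, P, hP, hPv, hgP, hq⟩ := hfr g hg
  have hq1 : ((qv v : ℕ) : k) = 1 := by
    have h1 : qv v ≡ 1 [MOD ℓ] := by
      rw [Nat.ModEq, hq, Nat.mod_eq_of_lt (Fact.out : ℓ.Prime).one_lt]
    have := (CharP.natCast_eq_natCast k ℓ).2 h1
    rw [this, Nat.cast_one]
  rw [hρ v hv (by rw [hq1]; exact one_ne_zero) P hP hPv g hgP, hq1]
  simp only [_root_.one_zpow, Finset.prod_const, Finset.card_range]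

end Q4.SPC
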