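import Pool.Agent.Q4.SPC.Lvl

/-!
# Additive functions on congruence subgroups of the symplectic group (helper4, project SPC)
-/

open IsDedekindDomain NumberField Matrix Q4.GLC

open scoped commutatorElement

namespace Q4.SPC

variable {F : Type} [Field F] [NumberField F] {n : ℕ}

theorem van (hSB : SB) (hSI : SI) (hn : 2 ≤ n) {A : Type} [AddCommGroup A] {N : ℕ} (hN : 1 ≤ N)
    {φ : Sp n F → A}
    (hφ : ∀ δ δ' : Sp n F, dS F n δ ∈ US F n N → dS F n δ' ∈ US F n N → φ (δ * δ') = φ δ + φ δ')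
    (γ : Sp n F) : ∃ M : ℕ, 1 ≤ M ∧ ∀ M' : ℕ, M ∣ M' → 2 ∣ M' →
      ∀ x ∈ ES n (𝓞 F) ((M' : 𝓞 F) ^ 3),
      dS F n (γ⁻¹ * mS F n x * γ) ∈ US F n N ∧ φ (γ⁻¹ * mS F n x * γ) = 0 := by
  obtain ⟨M, hM, hNM, hconj⟩ := hSI F n (dS F n γ)⁻¹ N hN
  refine ⟨M, hM, fun M' hMM' h2 x hx => ?_⟩
  obtain ⟨d, hd⟩ := h2
  have hx2 : x ∈ ⁅PC n (M' : 𝓞 F), PC n (M' : 𝓞 F)⁆ :=
    hSB (𝓞 F) n hn (M' : 𝓞 F) (d : 𝓞 F) (by rw [hd]; push_cast; ring) (PC n _)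
      (fun g => mem_PC) inferInstance hx
  obtain ⟨S, hS⟩ : ∃ S : Subgroup (Sp n F), S = (US F n N).comap (dS F n) := ⟨_, rfl⟩
  have hSm : ∀ a, a ∈ S ↔ dS F n a ∈ US F n N := fun a => by rw [hS]; rfl
  have hadd : ∀ a ∈ S, ∀ b ∈ S, φ (a * b) = φ a + φ b := fun a ha b hb =>
    hφ a b ((hSm a).1 ha) ((hSm b).1 hb)
  have hlev : ∀ a ∈ PC n (M' : 𝓞 F), γ⁻¹ * mS F n a * γ ∈ S := by
    intro a ha
    rw [hSm, map_mul, map_mul, map_inv]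
    have h3 := hconj _ (US_mono hMM' (dS_mS_mem (mem_PC.1 ha)))
    rwa [inv_inv] at h3
  rw [Subgroup.commutator_def] at hx2
  have key : γ⁻¹ * mS F n x * γ ∈ S ∧ φ (γ⁻¹ * mS F n x * γ) = 0 := by
    refine Subgroup.closure_induction (p := fun x _ => γ⁻¹ * mS F n x * γ ∈ S ∧
      φ (γ⁻¹ * mS F n x * γ) = 0) ?_ ?_ ?_ ?_ hx2
    · rintro x ⟨p, hp, q, hq, rfl⟩
      have hp1 := hlev p hp
      have hq1 := hlev q hq
      have e4 : γ⁻¹ * mS F n ⁅p, q⁆ * γ = (γ⁻¹ * mS F n p * γ) *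
          (γ⁻¹ * mS F n q * γ) * (γ⁻¹ * mS F n p * γ)⁻¹ * (γ⁻¹ * mS F n q * γ)⁻¹ := by
        rw [commutatorElement_def]
        simp only [map_mul, map_inv]
        group
      rw [e4]
      exact ⟨Subgroup.mul_mem _ (Subgroup.mul_mem _ (Subgroup.mul_mem _ hp1 hq1)
        (Subgroup.inv_mem _ hp1)) (Subgroup.inv_mem _ hq1),
        Q211.GLC.add_commutator hadd hp1 hq1⟩
    · rw [map_one, mul_one, inv_mul_cancel]
      exact ⟨Subgroup.one_mem _, Q211.GLC.add_one hadd⟩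
    · rintro a b - - ⟨h1, h2⟩ ⟨h3, h4⟩
      have e4 : γ⁻¹ * mS F n (a * b) * γ =
          (γ⁻¹ * mS F n a * γ) * (γ⁻¹ * mS F n b * γ) := by
        rw [map_mul]
        group
      rw [e4]
      exact ⟨Subgroup.mul_mem _ h1 h3, by rw [hadd _ h1 _ h3, h2, h4, add_zero]⟩
    · rintro a - ⟨h1, h2⟩
      have e4 : γ⁻¹ * mS F n a⁻¹ * γ = (γ⁻¹ * mS F n a * γ)⁻¹ := by
        rw [map_inv]
        group
      rw [e4]
      exact ⟨Subgroup.inv_mem _ h1, by rw [Q211.GLC.add_inv' hadd h1, h2, neg_zero]⟩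
  exact ⟨(hSm _).1 key.1, key.2⟩

/-- additive functions on a congruence subgroup are invariant under conjugation by `γ` on a deeper
one -/
def Good (F : Type) [Field F] [NumberField F] (n : ℕ) (A : Type) [AddCommGroup A] (γ : Sp n F) :
    Prop :=
  ∀ N : ℕ, 1 ≤ N → ∀ φ : Sp n F → A,
    (∀ δ δ' : Sp n F, dS F n δ ∈ US F n N → dS F n δ' ∈ US F n N → φ (δ * δ') = φ δ + φ δ') →
    ∃ M : ℕ, 1 ≤ M ∧ ∀ δ : Sp n F, dS F n δ ∈ US F n M → φ (γ⁻¹ * δ * γ) = φ δ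

section good

variable {A : Type} [AddCommGroup A]

theorem good_one : Good F n A 1 := by
  intro N _ φ _
  exact ⟨1, le_rfl, fun δ _ => by rw [inv_one, one_mul, mul_one]⟩

/-- transport of an additive function -/
theorem conj_add (hSI : SI) (h : Sp n F) {N : ℕ} (hN : 1 ≤ N) {φ : Sp n F → A}
    (hφ : ∀ δ δ' : Sp n F, dS F n δ ∈ US F n N → dS F n δ' ∈ US F n N →
      φ (δ * δ') = φ δ + φ δ') : ∃ N1 : ℕ, 1 ≤ N1 ∧ ∀ δ δ' : Sp n F, dS F n δ ∈ US F n N1 →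
      dS F n δ' ∈ US F n N1 → φ (h⁻¹ * (δ * δ') * h) = φ (h⁻¹ * δ * h) + φ (h⁻¹ * δ' * h) := by
  obtain ⟨N1, hN1, -, hden⟩ := hSI F n (dS F n h)⁻¹ N hN
  refine ⟨N1, hN1, fun δ δ' lδ lδ' => ?_⟩
  have e1 : h⁻¹ * (δ * δ') * h = (h⁻¹ * δ * h) * (h⁻¹ * δ' * h) := by group
  rw [e1]
  refine hφ _ _ ?_ ?_
  · have h3 := hden _ lδ
    rw [inv_inv] at h3
    rw [map_mul, map_mul, map_inv]
    exact h3
  · have h3 := hden _ lδ'
    rw [inv_inv] at h3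
    rw [map_mul, map_mul, map_inv]
    exact h3

theorem good_mul (hSI : SI) {γ1 γ2 : Sp n F} (g1 : Good F n A γ1) (g2 : Good F n A γ2) :
    Good F n A (γ1 * γ2) := by
  intro N hN φ hφ
  obtain ⟨N2, hN2, h3⟩ := conj_add hSI γ2 hN hφ
  obtain ⟨M2, hM2, h2⟩ := g2 N hN φ hφ
  obtain ⟨M1, hM1, h1⟩ := g1 N2 hN2 (fun δ => φ (γ2⁻¹ * δ * γ2)) h3
  refine ⟨M1 * M2, Nat.one_le_iff_ne_zero.2 (Nat.mul_ne_zero (by omega) (by omega)),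
    fun δ lδ => ?_⟩
  have e1 : (γ1 * γ2)⁻¹ * δ * (γ1 * γ2) = γ2⁻¹ * (γ1⁻¹ * δ * γ1) * γ2 := by group
  rw [e1, h1 δ (US_mono (dvd_mul_right _ _) lδ), h2 δ (US_mono (dvd_mul_left _ _) lδ)]

theorem good_inv (hSI : SI) {γ : Sp n F} (g : Good F n A γ) : Good F n A γ⁻¹ := by
  intro N hN φ hφ
  obtain ⟨N2, hN2, h3⟩ := conj_add hSI γ⁻¹ hN hφ
  obtain ⟨M1, hM1, h1⟩ := g N2 hN2 (fun δ => φ (γ⁻¹⁻¹ * δ * γ⁻¹)) h3
  refine ⟨M1, hM1, fun δ lδ => ?_⟩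
  have h4 := h1 δ lδ
  rw [← h4]
  congr 1
  group

theorem good_conj (hSI : SI) {γ : Sp n F} (g : Good F n A γ) (h : Sp n F) :
    Good F n A (h * γ * h⁻¹) := by
  intro N hN φ hφ
  obtain ⟨N2, hN2, h3⟩ := conj_add hSI h⁻¹ hN hφ
  obtain ⟨M, hM, h1⟩ := g N2 hN2 (fun δ => φ (h⁻¹⁻¹ * δ * h⁻¹)) h3
  obtain ⟨M1, hM1, -, hden⟩ := hSI F n (dS F n h)⁻¹ M hM
  refine ⟨M1, hM1, fun δ lδ => ?_⟩
  have h4 := h1 (h⁻¹ * δ * h) (by
    have h5 := hden _ lδ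
    rw [inv_inv] at h5
    rw [map_mul, map_mul, map_inv]
    exact h5)
  have e1 : (h * γ * h⁻¹)⁻¹ * δ * (h * γ * h⁻¹) =
      h⁻¹⁻¹ * (γ⁻¹ * (h⁻¹ * δ * h) * γ) * h⁻¹ := by group
  have e2 : h⁻¹⁻¹ * (h⁻¹ * δ * h) * h⁻¹ = δ := by group
  rw [e1, h4, e2]

/-- the good elements -/
def goodS (hSI : SI) (F : Type) [Field F] [NumberField F] (n : ℕ) (A : Type) [AddCommGroup A] :
    Subgroup (Sp n F) where
  carrier := {γ | Good F n A γ}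
  one_mem' := good_one
  mul_mem' := good_mul hSI
  inv_mem' := good_inv hSI

theorem good_long (hSB : SB) (hSCR : SCR) (hSC1 : SC1) (hSC2 : SC2) (hSI : SI) (hn : 2 ≤ n)
    (i0 : Fin n) (hi0 : i0.1 = 0) (b : F)
    (hb : (Matrix.diagonal (Pi.single i0 b) : Matrix (Fin n) (Fin n) F)ᵀ =
      Matrix.diagonal (Pi.single i0 b)) :
    Good F n A (up (Matrix.diagonal (Pi.single i0 b)) hb) := by
  obtain ⟨γ, hγ⟩ : ∃ γ : Sp n F, γ = up (Matrix.diagonal (Pi.single i0 b)) hb := ⟨_, rfl⟩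
  rw [← hγ]
  intro N hN φ hφ
  obtain ⟨M0, hM0, h0⟩ := van hSB hSI hn hN hφ 1
  obtain ⟨M1, hM1, h1⟩ := van hSB hSI hn hN hφ γ
  obtain ⟨Md, hMd, hNM, hden⟩ := hSI F n (dS F n γ)⁻¹ N hN
  obtain ⟨M', hM'⟩ : ∃ M', M' = 2 * M0 * M1 * Md := ⟨_, rfl⟩
  have hM'2 : 2 ≤ M' := by
    rw [hM']
    have : 0 < M0 * M1 * Md := by positivity
    calc 2 ≤ 2 * (M0 * M1 * Md) := by omega
      _ = _ := by ring
  have d0 : M0 ∣ M' := ⟨2 * M1 * Md, by rw [hM']; ring⟩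
  have d1 : M1 ∣ M' := ⟨2 * M0 * Md, by rw [hM']; ring⟩
  have d2 : 2 ∣ M' := ⟨M0 * M1 * Md, by rw [hM']; ring⟩
  have dd : Md ∣ M' ^ 3 := ⟨2 * M0 * M1 * M' ^ 2, by rw [pow_succ', hM']; ring⟩
  have dN : N ∣ M' ^ 3 := hNM.trans dd
  refine ⟨M' ^ 3, Nat.one_le_pow _ _ (by omega), fun δ hδM => ?_⟩
  obtain ⟨d, hd, hdc⟩ := exists_int_sp (Nat.one_le_pow 3 M' (by omega)) hδM
  rw [Nat.cast_pow] at hdc
  have ha0 : ((M' : 𝓞 F) ^ 3) ≠ 0 := by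
    refine pow_ne_zero 3 ?_
    have : M' ≠ 0 := by omega
    exact_mod_cast this
  have hau : ¬ IsUnit ((M' : 𝓞 F) ^ 3) := by
    intro h
    rw [isUnit_pow_iff three_ne_zero] at h
    exact Q211.GLC.not_isUnit_nat hM'2 h
  obtain ⟨x, hxE, hxb⟩ := hSC2 hSCR hSC1 (𝓞 F) n hn i0 hi0 _ ha0 hau d hdc
  obtain ⟨a1, a2⟩ := h0 M' d0 d2 x hxE
  obtain ⟨b1, b2⟩ := h1 M' d1 d2 x hxE
  rw [inv_one, one_mul, mul_one] at a1 a2
  have hfix : (mS F n (x * d)).1 *ᵥ Pi.single (Sum.inl i0) 1 = Pi.single (Sum.inl i0) 1 := by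
    have h3 := (hxb i0 (by rw [hi0]; exact one_pos)).1
    funext z
    have h4 := congrFun h3 z
    rw [mulVec_single_one] at h4 ⊢
    change (x * d).1 z (Sum.inl i0) = _ at h4
    change (mS F n (x * d)).1 z (Sum.inl i0) = _
    rw [mS_apply, h4, Pi.single_apply, Pi.single_apply]
    split_ifs <;> simp
  have hcomm : mS F n (x * d) * γ = γ * mS F n (x * d) := by
    rw [hγ]
    exact comm_of_fix hfix b hb
  have hxd : mS F n (x * d) = mS F n x * δ := by rw [map_mul, hd]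
  have lδ : dS F n δ ∈ US F n N := US_mono dN hδM
  have lγ : dS F n (γ⁻¹ * δ * γ) ∈ US F n N := by
    have h3 := hden _ (US_mono dd hδM)
    rw [inv_inv] at h3
    rw [map_mul, map_mul, map_inv]
    exact h3
  have e1 : (γ⁻¹ * mS F n x * γ) * (γ⁻¹ * δ * γ) = mS F n x * δ := by
    rw [← hxd, ← inv_mul_cancel_left γ (mS F n (x * d)), ← hcomm, hxd]
    group
  have e2 := hφ _ _ b1 lγ
  rw [e1, hφ _ _ a1 lδ, a2, b2, zero_add, zero_add] at e2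
  exact e2.symm

theorem cen (hSA : SA) (hSB : SB) (hSCR : SCR) (hSC1 : SC1) (hSC2 : SC2) (hSD : SD) (hSI : SI)
    (hn : 2 ≤ n) (γ : Sp n F) : Good F n A γ := by
  obtain ⟨i0, hi0⟩ : ∃ i0 : Fin n, i0.1 = 0 := ⟨⟨0, by omega⟩, rfl⟩
  have h := hSD hSA F n i0 hi0 (goodS hSI F n A) ⟨fun a ha g => good_conj hSI ha g⟩
    (fun b hb => good_long hSB hSCR hSC1 hSC2 hSI hn i0 hi0 b hb)
  have h2 : γ ∈ goodS hSI F n A := by rw [h]; exact Subgroup.mem_top γ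
  exact h2

end good

end Q4.SPC
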