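import Pool.Agent.Q4.GLC.Main

/-!
# The symplectic groups over the adeles of a number field (helper4, project SPC)

* `Sp n R`: the symplectic group of degree `2n` over the ring `R` (Mathlib's `Matrix.symplecticGroup`,
  the matrices `g` with `g J gᵀ = J`), `spMap n f`: the homomorphism given by a ring homomorphism.
* `US F n N`: the principal congruence subgroup of level `N` of `Sp_{2n}(Ô)`.
* `KS F n v`: the subgroup `Sp_{2n}(O_v)` of `Sp n (Af F)` (components `1` at the other places).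
-/

open IsDedekindDomain NumberField Matrix Q4.GLC

namespace Q4.SPC

/-- the symplectic group -/
abbrev Sp (n : ℕ) (R : Type) [CommRing R] : Type := Matrix.symplecticGroup (Fin n) R

/-- functoriality of the symplectic group -/
def spMap (n : ℕ) {R R' : Type} [CommRing R] [CommRing R'] (f : R →+* R') : Sp n R →* Sp n R' where
  toFun g := ⟨g.1.map f, SymplecticGroup.map_mem g.2 f⟩
  map_one' := Subtype.ext (by simp)
  map_mul' g h := Subtype.ext (by simp [Matrix.map_mul])

section ring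

variable {R : Type} [CommRing R] {n : ℕ}

/-- elementary symplectic matrices with parameters divisible by `a`: `(1, aS; 0, 1)` and
`(1, 0; aS, 1)`, `S` symmetric, and `diag (g, (g⁻¹)ᵀ)`, `g = 1 + a b E_ij`, `i ≠ j` -/
def IsEl (a : R) (x : Sp n R) : Prop :=
  (∃ S : Matrix (Fin n) (Fin n) R, Sᵀ = S ∧ x.1 = fromBlocks 1 (a • S) 0 1) ∨
  (∃ S : Matrix (Fin n) (Fin n) R, Sᵀ = S ∧ x.1 = fromBlocks 1 0 (a • S) 1) ∨
  ∃ i j : Fin n, i ≠ j ∧ ∃ b : R,
    x.1 = fromBlocks (transvection i j (a * b)) 0 0 (transvection j i (-(a * b)))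

/-- the subgroup generated by the conjugates of the elementary symplectic matrices with
parameters divisible by `a` -/
def ES (n : ℕ) (R : Type) [CommRing R] (a : R) : Subgroup (Sp n R) :=
  Subgroup.closure {x | ∃ h y : Sp n R, IsEl a y ∧ x = h * y * h⁻¹}

/-- the principal congruence condition modulo `a` -/
def Cg (a : R) (g : Sp n R) : Prop :=
  ∀ i j, a ∣ g.1 i j - (1 : Matrix (Fin n ⊕ Fin n) (Fin n ⊕ Fin n) R) i j

end ring

variable {F : Type} [Field F] [NumberField F] {n : ℕ}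

/-- entrywise membership in `N Ô` -/
def DvdS (N : ℕ) (M : Matrix (Fin n ⊕ Fin n) (Fin n ⊕ Fin n) (Af F)) : Prop :=
  ∀ i j, DvdN N (M i j)

theorem DvdS.mul_int {N : ℕ} {A B : Matrix (Fin n ⊕ Fin n) (Fin n ⊕ Fin n) (Af F)}
    (hA : DvdS N A) (hB : DvdS 1 B) : DvdS N (A * B) := fun i j => by
  rw [Matrix.mul_apply]
  exact DvdN.sum _ fun l _ => (hA i l).mul_int (hB l j)

theorem DvdS.int_mul {N : ℕ} {A B : Matrix (Fin n ⊕ Fin n) (Fin n ⊕ Fin n) (Af F)}
    (hA : DvdS 1 A) (hB : DvdS N B) : DvdS N (A * B) := fun i j => by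
  rw [Matrix.mul_apply]
  exact DvdN.sum _ fun l _ => by
    rw [mul_comm]
    exact (hB l j).mul_int (hA i l)

theorem DvdS.add {N : ℕ} {A B : Matrix (Fin n ⊕ Fin n) (Fin n ⊕ Fin n) (Af F)}
    (hA : DvdS N A) (hB : DvdS N B) : DvdS N (A + B) := fun i j => (hA i j).add (hB i j)

theorem DvdS.neg {N : ℕ} {A : Matrix (Fin n ⊕ Fin n) (Fin n ⊕ Fin n) (Af F)}
    (hA : DvdS N A) : DvdS N (-A) := fun i j => (hA i j).neg

theorem DvdS.int {N : ℕ} {A : Matrix (Fin n ⊕ Fin n) (Fin n ⊕ Fin n) (Af F)} (hA : DvdS N A) :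
    DvdS 1 A := fun i j => (hA i j).int

theorem dvdS_one_one : DvdS 1 (1 : Matrix (Fin n ⊕ Fin n) (Fin n ⊕ Fin n) (Af F)) :=
  fun i j => by
    rw [Matrix.one_apply]
    split_ifs
    · exact dvdN_one_one
    · exact dvdN_zero 1

theorem dvdS_J : DvdS 1 (J (Fin n) (Af F)) := by
  intro i j
  rcases i with i | i <;> rcases j with j | j
  · simp only [J, fromBlocks_apply₁₁, Matrix.zero_apply]; exact dvdN_zero 1
  · simp only [J, fromBlocks_apply₁₂, Matrix.neg_apply, Matrix.one_apply]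
    refine DvdN.neg ?_
    split_ifs
    · exact dvdN_one_one
    · exact dvdN_zero 1
  · simp only [J, fromBlocks_apply₂₁, Matrix.one_apply]
    split_ifs
    · exact dvdN_one_one
    · exact dvdN_zero 1
  · simp only [J, fromBlocks_apply₂₂, Matrix.zero_apply]; exact dvdN_zero 1

theorem inv_sub_one {R : Type} [CommRing R] (g : Sp n R) :
    (g⁻¹).1 - 1 = (-J (Fin n) R) * (g.1 - 1)ᵀ * J (Fin n) R := by
  rw [SymplecticGroup.coe_inv, transpose_sub, transpose_one, Matrix.mul_sub, Matrix.sub_mul,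
    Matrix.mul_one, Matrix.neg_mul _ (J (Fin n) R), J_squared, neg_neg]

/-- the principal congruence subgroup of level `N` of `Sp_{2n}(Ô)` -/
def US (F : Type) [Field F] [NumberField F] (n N : ℕ) : Subgroup (Sp n (Af F)) where
  carrier := {g | DvdS N (g.1 - 1)}
  one_mem' := by
    change DvdS N ((1 : Sp n (Af F)).1 - 1)
    rw [show (1 : Sp n (Af F)).1 = 1 from rfl, sub_self]
    exact fun _ _ => dvdN_zero N
  inv_mem' := by
    intro g hg
    change DvdS N ((g⁻¹).1 - 1)
    rw [inv_sub_one]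
    refine (dvdS_J.neg.int_mul ?_).mul_int dvdS_J
    exact fun i j => hg j i
  mul_mem' := by
    intro g h hg hh
    change DvdS N (g.1 * h.1 - 1)
    have e : g.1 * h.1 - 1 = (g.1 - 1) * h.1 + (h.1 - 1) := by
      rw [sub_mul, one_mul]; abel
    have e2 : h.1 = (h.1 - 1) + 1 := by abel
    rw [e]
    refine (DvdS.mul_int hg ?_).add hh
    rw [e2]
    exact (DvdS.int hh).add dvdS_one_one

theorem mem_US {N : ℕ} {g : Sp n (Af F)} : g ∈ US F n N ↔ DvdS N (g.1 - 1) := Iff.rfl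

/-- the components of `g` at the places other than `v` are `1` -/
def AtPl (v : Pl F) (g : Sp n (Af F)) : Prop :=
  ∀ w, w ≠ v → ∀ i j, (g.1 i j) w = ((1 : Matrix (Fin n ⊕ Fin n) (Fin n ⊕ Fin n) (Af F)) i j) w

/-- the component homomorphism -/
noncomputable def comp (F : Type) [Field F] [NumberField F] (n : ℕ) (w : Pl F) :
    Sp n (Af F) →* Sp n (w.adicCompletion F) :=
  spMap n (RestrictedProduct.evalRingHom _ w)

theorem comp_apply (w : Pl F) (g : Sp n (Af F)) (i j : Fin n ⊕ Fin n) :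
    (comp F n w g).1 i j = (g.1 i j) w := rfl

theorem atPl_iff {v : Pl F} {g : Sp n (Af F)} : AtPl v g ↔ ∀ w, w ≠ v → comp F n w g = 1 := by
  refine forall_congr' fun w => forall_congr' fun _ => ?_
  constructor
  · intro h
    refine Subtype.ext (Matrix.ext fun i j => ?_)
    rw [comp_apply, h i j]
    change ((1 : Matrix (Fin n ⊕ Fin n) (Fin n ⊕ Fin n) (Af F)) i j) w =
      (1 : Matrix (Fin n ⊕ Fin n) (Fin n ⊕ Fin n) (w.adicCompletion F)) i j
    rw [Matrix.one_apply, Matrix.one_apply]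
    split_ifs <;> rfl
  · intro h i j
    rw [← comp_apply, h]
    change (1 : Matrix (Fin n ⊕ Fin n) (Fin n ⊕ Fin n) (w.adicCompletion F)) i j =
      ((1 : Matrix (Fin n ⊕ Fin n) (Fin n ⊕ Fin n) (Af F)) i j) w
    rw [Matrix.one_apply, Matrix.one_apply]
    split_ifs <;> rfl

/-- the subgroup `Sp_{2n}(O_v)` -/
def KS (F : Type) [Field F] [NumberField F] (n : ℕ) (v : Pl F) : Subgroup (Sp n (Af F)) where
  carrier := {g | g ∈ US F n 1 ∧ AtPl v g}
  one_mem' := ⟨Subgroup.one_mem _, atPl_iff.2 fun w _ => map_one _⟩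
  inv_mem' := by
    rintro g ⟨h1, h2⟩
    refine ⟨Subgroup.inv_mem _ h1, atPl_iff.2 fun w hw => ?_⟩
    rw [map_inv, atPl_iff.1 h2 w hw, inv_one]
  mul_mem' := by
    rintro g h ⟨h1, h2⟩ ⟨h3, h4⟩
    refine ⟨Subgroup.mul_mem _ h1 h3, atPl_iff.2 fun w hw => ?_⟩
    rw [map_mul, atPl_iff.1 h2 w hw, atPl_iff.1 h4 w hw, one_mul]

theorem mem_KS {v : Pl F} {g : Sp n (Af F)} : g ∈ KS F n v ↔ g ∈ US F n 1 ∧ AtPl v g := Iff.rfl

/-- the diagonal embedding -/
noncomputable def dS (F : Type) [Field F] [NumberField F] (n : ℕ) : Sp n F →* Sp n (Af F) :=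
  spMap n (algebraMap F (Af F))

end Q4.SPC
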