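import Pool.Agent.Q4.SPC.Defs

/-!
# Elementary symplectic matrices: definitions and first formulas (helper4, project SPC)
-/

open Matrix

namespace Q4.SPC

variable {R : Type} [CommRing R] {n : ℕ}

/-- `(1, S; 0, 1)` -/
def up (S : Matrix (Fin n) (Fin n) R) (h : Sᵀ = S) : Sp n R :=
  ⟨fromBlocks 1 S 0 1, SymplecticGroup.fromBlocks_mem_iff.2 ⟨by simp, by simp [h], by simp⟩⟩

/-- `(1, 0; S, 1)` -/
def lo (S : Matrix (Fin n) (Fin n) R) (h : Sᵀ = S) : Sp n R :=
  ⟨fromBlocks 1 0 S 1, SymplecticGroup.fromBlocks_mem_iff.2 ⟨by simp [h], by simp, by simp⟩⟩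

/-- `diag (g, (g⁻¹)ᵀ)` -/
def lv (g h : Matrix (Fin n) (Fin n) R) (e : gᵀ * h = 1) : Sp n R :=
  ⟨fromBlocks g 0 0 h, SymplecticGroup.fromBlocks_mem_iff.2 ⟨by simp, by simp, by simp [e]⟩⟩

theorem transv_transpose (i j : Fin n) (b : R) :
    (transvection i j b)ᵀ = transvection j i b := by
  simp [transvection, Matrix.transpose_add, Matrix.transpose_single]

theorem transv_e {i j : Fin n} (h : i ≠ j) (b : R) :
    (transvection i j b)ᵀ * transvection j i (-b) = 1 := by
  rw [transv_transpose, transvection_mul_transvection_same j i h.symm, add_neg_cancel,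
    transvection_zero]

/-- `diag (g, (g⁻¹)ᵀ)`, `g = 1 + b E_ij` -/
def lvt (i j : Fin n) (h : i ≠ j) (b : R) : Sp n R :=
  lv (transvection i j b) (transvection j i (-b)) (transv_e h b)

theorem up_mul (S T : Matrix (Fin n) (Fin n) R) (hS : Sᵀ = S) (hT : Tᵀ = T) :
    up S hS * up T hT = up (S + T) (by rw [transpose_add, hS, hT]) := by
  refine Subtype.ext ?_
  change fromBlocks 1 S 0 1 * fromBlocks 1 T 0 1 = fromBlocks 1 (S + T) 0 1
  rw [fromBlocks_multiply]
  simp [add_comm]

theorem lo_mul (S T : Matrix (Fin n) (Fin n) R) (hS : Sᵀ = S) (hT : Tᵀ = T) :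
    lo S hS * lo T hT = lo (S + T) (by rw [transpose_add, hS, hT]) := by
  refine Subtype.ext ?_
  change fromBlocks 1 0 S 1 * fromBlocks 1 0 T 1 = fromBlocks 1 0 (S + T) 1
  rw [fromBlocks_multiply]
  simp

theorem up_zero : up (0 : Matrix (Fin n) (Fin n) R) (by simp) = 1 :=
  Subtype.ext (by change fromBlocks 1 0 0 1 = 1; exact fromBlocks_one)

theorem lo_zero : lo (0 : Matrix (Fin n) (Fin n) R) (by simp) = 1 :=
  Subtype.ext (by change fromBlocks 1 0 0 1 = 1; exact fromBlocks_one)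

theorem up_inv (S : Matrix (Fin n) (Fin n) R) (hS : Sᵀ = S) :
    (up S hS)⁻¹ = up (-S) (by rw [transpose_neg, hS]) := by
  rw [inv_eq_iff_mul_eq_one, up_mul, ← up_zero]
  congr 1
  exact add_neg_cancel S

theorem lo_inv (S : Matrix (Fin n) (Fin n) R) (hS : Sᵀ = S) :
    (lo S hS)⁻¹ = lo (-S) (by rw [transpose_neg, hS]) := by
  rw [inv_eq_iff_mul_eq_one, lo_mul, ← lo_zero]
  congr 1
  exact add_neg_cancel S

theorem lv_mul (g h g' h' : Matrix (Fin n) (Fin n) R) (e : gᵀ * h = 1) (e' : g'ᵀ * h' = 1) :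
    lv g h e * lv g' h' e' = lv (g * g') (h * h') (by
      rw [transpose_mul, Matrix.mul_assoc, ← Matrix.mul_assoc gᵀ, e, Matrix.one_mul, e']) := by
  refine Subtype.ext ?_
  change fromBlocks g 0 0 h * fromBlocks g' 0 0 h' = fromBlocks (g * g') 0 0 (h * h')
  rw [fromBlocks_multiply]
  simp

theorem lvt_mul (i j : Fin n) (h : i ≠ j) (b c : R) :
    lvt i j h b * lvt i j h c = lvt i j h (b + c) := by
  unfold lvt
  rw [lv_mul]
  congr 1
  · exact transvection_mul_transvection_same i j h b c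
  · rw [transvection_mul_transvection_same j i h.symm, neg_add]

theorem lvt_zero (i j : Fin n) (h : i ≠ j) : lvt i j h (0 : R) = 1 := by
  refine Subtype.ext ?_
  change fromBlocks (transvection i j 0) 0 0 (transvection j i (-0)) = 1
  rw [neg_zero, transvection_zero, transvection_zero, fromBlocks_one]

theorem lvt_inv (i j : Fin n) (h : i ≠ j) (b : R) : (lvt i j h b)⁻¹ = lvt i j h (-b) := by
  rw [inv_eq_iff_mul_eq_one, lvt_mul, add_neg_cancel, lvt_zero]

/-- conjugation of `up` by a Levi element -/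
theorem lv_up (g h S : Matrix (Fin n) (Fin n) R) (e : gᵀ * h = 1) (hS : Sᵀ = S) :
    lv g h e * up S hS * (lv g h e)⁻¹ = up (g * S * gᵀ) (by
      rw [transpose_mul, transpose_mul, transpose_transpose, hS, Matrix.mul_assoc]) := by
  rw [mul_inv_eq_iff_eq_mul]
  refine Subtype.ext ?_
  change fromBlocks g 0 0 h * fromBlocks 1 S 0 1 =
    fromBlocks 1 (g * S * gᵀ) 0 1 * fromBlocks g 0 0 h
  rw [fromBlocks_multiply, fromBlocks_multiply]
  simp [Matrix.mul_assoc, e]

/-- conjugation of `up` by `J` -/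
theorem symJ_up (S : Matrix (Fin n) (Fin n) R) (hS : Sᵀ = S) :
    SymplecticGroup.symJ (Fin n) R * up S hS * (SymplecticGroup.symJ (Fin n) R)⁻¹ =
      lo (-S) (by rw [transpose_neg, hS]) := by
  rw [mul_inv_eq_iff_eq_mul]
  refine Subtype.ext ?_
  change J (Fin n) R * fromBlocks 1 S 0 1 = fromBlocks 1 0 (-S) 1 * J (Fin n) R
  rw [J, fromBlocks_multiply, fromBlocks_multiply]
  simp

/-- the action of `up` on vectors -/
theorem up_mulVec (S : Matrix (Fin n) (Fin n) R) (hS : Sᵀ = S) (x y : Fin n → R) :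
    (up S hS).1 *ᵥ Sum.elim x y = Sum.elim (x + S *ᵥ y) y := by
  change fromBlocks 1 S 0 1 *ᵥ Sum.elim x y = _
  rw [fromBlocks_mulVec]
  simp

/-- the action of `lo` on vectors -/
theorem lo_mulVec (S : Matrix (Fin n) (Fin n) R) (hS : Sᵀ = S) (x y : Fin n → R) :
    (lo S hS).1 *ᵥ Sum.elim x y = Sum.elim x (y + S *ᵥ x) := by
  change fromBlocks 1 0 S 1 *ᵥ Sum.elim x y = _
  rw [fromBlocks_mulVec]
  simp [add_comm]

/-- the action of `lv` on vectors -/
theorem lv_mulVec (g h : Matrix (Fin n) (Fin n) R) (e : gᵀ * h = 1) (x y : Fin n → R) :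
    (lv g h e).1 *ᵥ Sum.elim x y = Sum.elim (g *ᵥ x) (h *ᵥ y) := by
  change fromBlocks g 0 0 h *ᵥ Sum.elim x y = _
  rw [fromBlocks_mulVec]
  simp

/-- the action of `lvt` on vectors: `x_i` gets `x_i + b x_j`, `y_j` gets `y_j - b y_i` -/
theorem lvt_mulVec (i j : Fin n) (h : i ≠ j) (b : R) (x y : Fin n → R) :
    (lvt i j h b).1 *ᵥ Sum.elim x y =
      Sum.elim (x + Pi.single i (b * x j)) (y + Pi.single j (-(b * y i))) := by
  unfold lvt
  rw [lv_mulVec]
  have key : ∀ (p q : Fin n) (c : R) (z : Fin n → R),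
      transvection p q c *ᵥ z = z + Pi.single p (c * z q) := by
    intro p q c z
    rw [transvection, Matrix.add_mulVec, Matrix.one_mulVec]
    congr 1
    funext r
    rw [Matrix.mulVec, dotProduct]
    by_cases hr : r = p
    · subst hr
      rw [Pi.single_eq_same, Finset.sum_eq_single q]
      · simp
      · intro b _ hb
        simp [Matrix.single_apply_of_col_ne _ _ (Ne.symm hb)]
      · simp
    · rw [Pi.single_eq_of_ne hr]
      refine Finset.sum_eq_zero fun s _ => ?_
      rw [Matrix.single_apply_of_row_ne (Ne.symm hr), zero_mul]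
  rw [key, key]
  congr 2
  rw [neg_mul]

theorem isEl_up {a : R} (S : Matrix (Fin n) (Fin n) R) (hS : Sᵀ = S) (hd : ∀ i j, a ∣ S i j) :
    IsEl a (up S hS) := by
  classical
  choose f hf using hd
  by_cases ha : ∃ T : Matrix (Fin n) (Fin n) R, Tᵀ = T ∧ S = a • T
  · obtain ⟨T, hT, e⟩ := ha
    exact Or.inl ⟨T, hT, by change fromBlocks 1 S 0 1 = _; rw [e]⟩
  · refine (ha ⟨Matrix.of fun i j => if i ≤ j then f i j else f j i, ?_, ?_⟩).elim
    · ext i j
      simp only [Matrix.transpose_apply, Matrix.of_apply]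
      rcases lt_trichotomy i j with h | h | h
      · rw [if_neg (not_le.2 h), if_pos h.le]
      · subst h; rfl
      · rw [if_pos h.le, if_neg (not_le.2 h)]
    · ext i j
      simp only [Matrix.smul_apply, Matrix.of_apply, smul_eq_mul]
      split_ifs with h
      · exact hf i j
      · rw [← hf j i]
        exact (congrFun (congrFun hS i) j).symm

theorem isEl_lo {a : R} (S : Matrix (Fin n) (Fin n) R) (hS : Sᵀ = S) (hd : ∀ i j, a ∣ S i j) :
    IsEl a (lo S hS) := by
  classical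
  choose f hf using hd
  refine Or.inr (Or.inl ⟨Matrix.of fun i j => if i ≤ j then f i j else f j i, ?_, ?_⟩)
  · ext i j
    simp only [Matrix.transpose_apply, Matrix.of_apply]
    rcases lt_trichotomy i j with h | h | h
    · rw [if_neg (not_le.2 h), if_pos h.le]
    · subst h; rfl
    · rw [if_pos h.le, if_neg (not_le.2 h)]
  · change fromBlocks 1 0 S 1 = _
    congr 1
    ext i j
    simp only [Matrix.smul_apply, Matrix.of_apply, smul_eq_mul]
    split_ifs with h
    · exact hf i j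
    · rw [← hf j i]
      exact (congrFun (congrFun hS i) j).symm

theorem isEl_lvt {a : R} (i j : Fin n) (h : i ≠ j) (b : R) (hd : a ∣ b) :
    IsEl a (lvt i j h b) := by
  obtain ⟨c, rfl⟩ := hd
  exact Or.inr (Or.inr ⟨i, j, h, c, rfl⟩)

theorem IsEl.mem_ES {a : R} {x : Sp n R} (h : IsEl a x) : x ∈ ES n R a :=
  Subgroup.subset_closure ⟨1, x, h, by group⟩

/-- `ES` is normal -/
theorem ES_conj {a : R} {x : Sp n R} (h : x ∈ ES n R a) (g : Sp n R) : g * x * g⁻¹ ∈ ES n R a := by
  induction h using Subgroup.closure_induction with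
  | mem x hx =>
    obtain ⟨p, y, hy, rfl⟩ := hx
    exact Subgroup.subset_closure ⟨g * p, y, hy, by group⟩
  | one => rw [mul_one, mul_inv_cancel]; exact Subgroup.one_mem _
  | mul x y _ _ hx hy =>
    have : g * (x * y) * g⁻¹ = (g * x * g⁻¹) * (g * y * g⁻¹) := by group
    rw [this]
    exact Subgroup.mul_mem _ hx hy
  | inv x _ hx =>
    have : g * x⁻¹ * g⁻¹ = (g * x * g⁻¹)⁻¹ := by group
    rw [this]
    exact Subgroup.inv_mem _ hx

end Q4.SPC
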