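import Pool.Agent.Q4.SPC.Stm3
import Pool.Agent.Q4.SPC.Cen

/-!
# Additive functions on congruence subgroups of the group of similitudes (helper4, project SPC)
-/

open IsDedekindDomain NumberField Matrix Q4.GLC

namespace Q4.SPC

section ring

variable {R : Type} [CommRing R] {n : ℕ}

theorem inc_inv_val (s : Sp n R) : (inc s).1.1⁻¹.1 = (s⁻¹).1 := by
  have h : (inc s)⁻¹ = inc s⁻¹ := (map_inv inc s).symm
  change ((inc s)⁻¹).1.1.1 = _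
  rw [h]
  rfl

theorem dnu_conj (a : Rˣ) (S : Matrix (Fin n) (Fin n) R) (hS : Sᵀ = S)
    (hS' : (a.1 • S)ᵀ = a.1 • S) :
    (dnu n a)⁻¹ * inc (up S hS) * dnu n a = inc (up (a.1 • S) hS') := by
  rw [mul_assoc, inv_mul_eq_iff_eq_mul]
  refine Subtype.ext (Prod.ext (Units.ext ?_) ?_)
  · change fromBlocks 1 S 0 1 * fromBlocks 1 0 0 (a.1 • 1) =
      fromBlocks 1 0 0 (a.1 • 1) * fromBlocks 1 (a.1 • S) 0 1
    rw [fromBlocks_multiply, fromBlocks_multiply]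
    simp
  · change 1 * a = a * 1
    rw [one_mul, mul_one]

end ring

variable {F : Type} [Field F] [NumberField F] {n : ℕ}

theorem UG_mono {M N : ℕ} (h : M ∣ N) : UG F n N ≤ UG F n M := fun _ hu =>
  ⟨⟨fun i j => Q211.GLC.DvdN.mono h (hu.1.1 i j), fun i j => Q211.GLC.DvdN.mono h (hu.1.2 i j)⟩,
    Q211.GLC.DvdN.mono h hu.2.1, Q211.GLC.DvdN.mono h hu.2.2⟩

theorem UG_int {u : GSp n (Af F)} (hu : u ∈ UG F n 1) : DvdS 1 u.1.1.1 := by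
  have : u.1.1.1 = (u.1.1.1 - 1) + 1 := by abel
  rw [this]
  exact DvdS.add hu.1.1 dvdS_one_one

theorem UG_conj {M : ℕ} {v u : GSp n (Af F)} (hv : v ∈ UG F n 1) (hu : u ∈ UG F n M) :
    v * u * v⁻¹ ∈ UG F n M := by
  have h1 := UG_int hv
  have h2 := UG_int ((UG F n 1).inv_mem hv)
  have e1 : ∀ a : GSp n (Af F), (v * a * v⁻¹).1.1.1 - 1 =
      v.1.1.1 * (a.1.1.1 - 1) * (v⁻¹).1.1.1 := by
    intro a
    have h3 : v.1.1.1 * (v⁻¹).1.1.1 = 1 := by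
      change (v * v⁻¹).1.1.1 = 1
      rw [mul_inv_cancel]
      rfl
    change v.1.1.1 * a.1.1.1 * (v⁻¹).1.1.1 - 1 = _
    rw [mul_sub, sub_mul, mul_one, h3]
  have e2 : ∀ a : GSp n (Af F), (v * a * v⁻¹).1.2 = a.1.2 := by
    intro a
    change v.1.2 * a.1.2 * v.1.2⁻¹ = a.1.2
    rw [mul_comm v.1.2, mul_inv_cancel_right]
  refine ⟨⟨?_, ?_⟩, ?_, ?_⟩
  · rw [e1]
    exact (h1.int_mul hu.1.1).mul_int h2
  · have e3 : (v * u * v⁻¹).1.1⁻¹.1 = (v * u⁻¹ * v⁻¹).1.1.1 := by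
      have : (v * u * v⁻¹)⁻¹ = v * u⁻¹ * v⁻¹ := by group
      rw [← this]
      rfl
    rw [e3, e1]
    exact (h1.int_mul hu.1.2).mul_int h2
  · rw [e2]
    exact hu.2.1
  · rw [e2]
    exact hu.2.2

theorem dG_inc (s : Sp n F) : dG F n (inc s) = inc (dS F n s) :=
  Subtype.ext (Prod.ext (Units.ext rfl) (Units.ext (map_one (algebraMap F (Af F)))))

theorem inc_UG {N : ℕ} {s : Sp n (Af F)} (hs : s ∈ US F n N) : inc s ∈ UG F n N := by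
  refine ⟨⟨hs, ?_⟩, ?_, ?_⟩
  · rw [inc_inv_val]
    exact (US F n N).inv_mem hs
  · change DvdN N ((1 : Af F) - 1)
    rw [sub_self]
    exact dvdN_zero N
  · change DvdN N (((1 : (Af F)ˣ)⁻¹).1 - 1)
    rw [inv_one, Units.val_one, sub_self]
    exact dvdN_zero N

theorem UG_inc {N : ℕ} {s : Sp n (Af F)} (hs : inc s ∈ UG F n N) : s ∈ US F n N := hs.1.1

/-- additive functions on the intersection of `Γ` with a congruence subgroup are invariant under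
conjugation by `γ` on a deeper one -/
def GoodG (F : Type) [Field F] [NumberField F] (n : ℕ) (A : Type) [AddCommGroup A]
    (Γ : Subgroup (GSp n F)) (γ : Sp n F) : Prop :=
  ∀ N : ℕ, 1 ≤ N → ∀ φ : GSp n F → A,
    (∀ δ ∈ Γ, ∀ δ' ∈ Γ, dG F n δ ∈ UG F n N → dG F n δ' ∈ UG F n N → φ (δ * δ') = φ δ + φ δ') →
    ∃ M : ℕ, 1 ≤ M ∧ ∀ δ ∈ Γ, dG F n δ ∈ UG F n M → φ ((inc γ)⁻¹ * δ * inc γ) = φ δ

section good

variable {A : Type} [AddCommGroup A] {Γ : Subgroup (GSp n F)}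

omit [NumberField F] in
theorem conj_memG (hΓ : ∀ s : Sp n F, inc s ∈ Γ) (h : Sp n F) {δ : GSp n F} (hδ : δ ∈ Γ) :
    (inc h)⁻¹ * δ * inc h ∈ Γ :=
  Γ.mul_mem (Γ.mul_mem (Γ.inv_mem (hΓ h)) hδ) (hΓ h)

/-- transport of an additive function -/
theorem conj_addG (hGI : GI) (hΓ : ∀ s : Sp n F, inc s ∈ Γ) (h : Sp n F) {N : ℕ} (hN : 1 ≤ N)
    {φ : GSp n F → A}
    (hφ : ∀ δ ∈ Γ, ∀ δ' ∈ Γ, dG F n δ ∈ UG F n N → dG F n δ' ∈ UG F n N →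
      φ (δ * δ') = φ δ + φ δ') : ∃ N1 : ℕ, 1 ≤ N1 ∧ ∀ δ ∈ Γ, ∀ δ' ∈ Γ, dG F n δ ∈ UG F n N1 →
      dG F n δ' ∈ UG F n N1 → φ ((inc h)⁻¹ * (δ * δ') * inc h) =
        φ ((inc h)⁻¹ * δ * inc h) + φ ((inc h)⁻¹ * δ' * inc h) := by
  obtain ⟨N1, hN1, -, hden⟩ := hGI F n (dG F n (inc h))⁻¹ N hN
  refine ⟨N1, hN1, fun δ hδ δ' hδ' lδ lδ' => ?_⟩
  have e1 : (inc h)⁻¹ * (δ * δ') * inc h =
      ((inc h)⁻¹ * δ * inc h) * ((inc h)⁻¹ * δ' * inc h) := by group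
  rw [e1]
  refine hφ _ (conj_memG hΓ h hδ) _ (conj_memG hΓ h hδ') ?_ ?_
  · have h3 := hden _ lδ
    rw [inv_inv] at h3
    rw [map_mul, map_mul, map_inv]
    exact h3
  · have h3 := hden _ lδ'
    rw [inv_inv] at h3
    rw [map_mul, map_mul, map_inv]
    exact h3

theorem goodG_one : GoodG F n A Γ 1 := by
  intro N _ φ _
  exact ⟨1, le_rfl, fun δ _ _ => by rw [map_one, inv_one, one_mul, mul_one]⟩

theorem goodG_mul (hGI : GI) (hΓ : ∀ s : Sp n F, inc s ∈ Γ) {γ1 γ2 : Sp n F}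
    (g1 : GoodG F n A Γ γ1) (g2 : GoodG F n A Γ γ2) : GoodG F n A Γ (γ1 * γ2) := by
  intro N hN φ hφ
  obtain ⟨N2, hN2, h3⟩ := conj_addG hGI hΓ γ2 hN hφ
  obtain ⟨M2, hM2, h2⟩ := g2 N hN φ hφ
  obtain ⟨M1, hM1, h1⟩ := g1 N2 hN2 (fun δ => φ ((inc γ2)⁻¹ * δ * inc γ2)) h3
  refine ⟨M1 * M2, Nat.one_le_iff_ne_zero.2 (Nat.mul_ne_zero (by omega) (by omega)),
    fun δ hδ lδ => ?_⟩
  have e1 : (inc (γ1 * γ2))⁻¹ * δ * inc (γ1 * γ2) =
      (inc γ2)⁻¹ * ((inc γ1)⁻¹ * δ * inc γ1) * inc γ2 := by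
    rw [map_mul]
    group
  rw [e1, h1 δ hδ (UG_mono (dvd_mul_right _ _) lδ), h2 δ hδ (UG_mono (dvd_mul_left _ _) lδ)]

theorem goodG_inv (hGI : GI) (hΓ : ∀ s : Sp n F, inc s ∈ Γ) {γ : Sp n F}
    (g : GoodG F n A Γ γ) : GoodG F n A Γ γ⁻¹ := by
  intro N hN φ hφ
  obtain ⟨N2, hN2, h3⟩ := conj_addG hGI hΓ γ⁻¹ hN hφ
  obtain ⟨M1, hM1, h1⟩ := g N2 hN2 (fun δ => φ ((inc γ⁻¹)⁻¹ * δ * inc γ⁻¹)) h3
  refine ⟨M1, hM1, fun δ hδ lδ => ?_⟩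
  have h4 := h1 δ hδ lδ
  rw [← h4]
  congr 1
  rw [map_inv]
  group

theorem goodG_conj (hGI : GI) (hΓ : ∀ s : Sp n F, inc s ∈ Γ) {γ : Sp n F}
    (g : GoodG F n A Γ γ) (h : Sp n F) : GoodG F n A Γ (h * γ * h⁻¹) := by
  intro N hN φ hφ
  obtain ⟨N2, hN2, h3⟩ := conj_addG hGI hΓ h⁻¹ hN hφ
  obtain ⟨M, hM, h1⟩ := g N2 hN2 (fun δ => φ ((inc h⁻¹)⁻¹ * δ * inc h⁻¹)) h3
  obtain ⟨M1, hM1, -, hden⟩ := hGI F n (dG F n (inc h))⁻¹ M hM
  refine ⟨M1, hM1, fun δ hδ lδ => ?_⟩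
  have h4 := h1 ((inc h)⁻¹ * δ * inc h) (conj_memG hΓ h hδ) (by
    have h5 := hden _ lδ
    rw [inv_inv] at h5
    rw [map_mul, map_mul, map_inv]
    exact h5)
  have e1 : (inc (h * γ * h⁻¹))⁻¹ * δ * inc (h * γ * h⁻¹) =
      (inc h⁻¹)⁻¹ * ((inc γ)⁻¹ * ((inc h)⁻¹ * δ * inc h) * inc γ) * inc h⁻¹ := by
    simp only [map_mul, map_inv]
    group
  have e2 : (inc h⁻¹)⁻¹ * ((inc h)⁻¹ * δ * inc h) * inc h⁻¹ = δ := by
    simp only [map_inv]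
    group
  rw [e1, h4, e2]

/-- the good elements -/
def goodGS (hGI : GI) (hΓ : ∀ s : Sp n F, inc s ∈ Γ) (A : Type) [AddCommGroup A] :
    Subgroup (Sp n F) where
  carrier := {γ | GoodG F n A Γ γ}
  one_mem' := goodG_one
  mul_mem' := goodG_mul hGI hΓ
  inv_mem' := goodG_inv hGI hΓ

omit [NumberField F] in
theorem up_val (S : Matrix (Fin n) (Fin n) F) (hS : Sᵀ = S) :
    (up S hS).1 = fromBlocks 1 S 0 1 := rfl

/-- the commutator of a long root element and of `diag (1, e)` -/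
theorem long_z (i0 : Fin n) (b : F)
    (hb : (Matrix.diagonal (Pi.single i0 b) : Matrix (Fin n) (Fin n) F)ᵀ =
      Matrix.diagonal (Pi.single i0 b)) (e : Fˣ) (a w : 𝓞 F)
    (hval : -(e.1 * b) + b = algebraMap (𝓞 F) F (a * w)) :
    ∃ z ∈ ES n (𝓞 F) a, (dnu n e)⁻¹ * (inc (up (Matrix.diagonal (Pi.single i0 b)) hb))⁻¹ *
      dnu n e * inc (up (Matrix.diagonal (Pi.single i0 b)) hb) = inc (mS F n z) := by
  have hz' : (a • (Matrix.diagonal (Pi.single i0 w) : Matrix (Fin n) (Fin n) (𝓞 F)))ᵀ =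
      a • Matrix.diagonal (Pi.single i0 w) := by
    rw [transpose_smul, diagonal_transpose]
  refine ⟨up _ hz', ?_, ?_⟩
  · exact Subgroup.subset_closure ⟨1, up _ hz', Or.inl ⟨Matrix.diagonal (Pi.single i0 w),
      diagonal_transpose _, rfl⟩, by group⟩
  have heb : (e.1 • (Matrix.diagonal (Pi.single i0 b) : Matrix (Fin n) (Fin n) F))ᵀ =
      e.1 • Matrix.diagonal (Pi.single i0 b) := by rw [transpose_smul, hb]
  have h3 : (dnu n e)⁻¹ * (inc (up (Matrix.diagonal (Pi.single i0 b)) hb))⁻¹ * dnu n e =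
      (inc (up _ heb))⁻¹ := by
    rw [← dnu_conj e _ hb heb]
    group
  rw [h3, ← map_inv, ← map_mul, up_inv, up_mul]
  congr 1
  refine Subtype.ext ?_
  rw [up_val]
  ext p q
  rw [mS_apply]
  change _ = algebraMap (𝓞 F) F ((fromBlocks 1 (a • (Matrix.diagonal
    (Pi.single i0 w) : Matrix (Fin n) (Fin n) (𝓞 F))) 0 1) p q)
  rcases p with p | p <;> rcases q with q | q
  · rw [fromBlocks_apply₁₁, fromBlocks_apply₁₁, Matrix.one_apply, Matrix.one_apply]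
    split_ifs <;> simp
  · rw [fromBlocks_apply₁₂, fromBlocks_apply₁₂, Matrix.add_apply, Matrix.neg_apply,
      Matrix.smul_apply, Matrix.smul_apply, Matrix.diagonal_apply, Matrix.diagonal_apply,
      Pi.single_apply, Pi.single_apply]
    by_cases hpq : p = q
    · subst hpq
      by_cases hp : p = i0
      · rw [if_pos rfl, if_pos hp, if_pos rfl, if_pos hp, smul_eq_mul, smul_eq_mul, hval]
      · rw [if_pos rfl, if_neg hp, if_pos rfl, if_neg hp]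
        simp
    · rw [if_neg hpq, if_neg hpq]
      simp
  · simp
  · rw [fromBlocks_apply₂₂, fromBlocks_apply₂₂, Matrix.one_apply, Matrix.one_apply]
    split_ifs <;> simp

theorem goodG_long (hSB : SB) (hSCR : SCR) (hSC1 : SC1) (hSC2 : SC2) (hSI : SI) (hGI : GI)
    (hGN : GN) (hΓ : ∀ s : Sp n F, inc s ∈ Γ) (hn : 2 ≤ n) (i0 : Fin n) (hi0 : i0.1 = 0) (b : F)
    (hb : (Matrix.diagonal (Pi.single i0 b) : Matrix (Fin n) (Fin n) F)ᵀ =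
      Matrix.diagonal (Pi.single i0 b)) :
    GoodG F n A Γ (up (Matrix.diagonal (Pi.single i0 b)) hb) := by
  obtain ⟨γ, hγ⟩ : ∃ γ : Sp n F, γ = up (Matrix.diagonal (Pi.single i0 b)) hb := ⟨_, rfl⟩
  rw [← hγ]
  intro N hN φ hφ
  have hφ' : ∀ δ δ' : Sp n F, dS F n δ ∈ US F n N → dS F n δ' ∈ US F n N →
      φ (inc (δ * δ')) = φ (inc δ) + φ (inc δ') := by
    intro δ δ' h h'
    rw [map_mul]
    refine hφ _ (hΓ δ) _ (hΓ δ') ?_ ?_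
    · rw [dG_inc]; exact inc_UG h
    · rw [dG_inc]; exact inc_UG h'
  obtain ⟨M0, hM0, h0⟩ := van hSB hSI hn hN (φ := fun s => φ (inc s)) hφ' 1
  obtain ⟨M1, hM1, h1⟩ := van hSB hSI hn hN (φ := fun s => φ (inc s)) hφ' γ
  obtain ⟨Md, hMd, hNM, hden⟩ := hGI F n (dG F n (inc γ))⁻¹ N hN
  obtain ⟨T, hT, τ, hτ⟩ := Q211.GLC.exists_den b
  obtain ⟨K, hK⟩ : ∃ K, K = 2 * M0 * M1 * Md := ⟨_, rfl⟩
  obtain ⟨M', hM'⟩ : ∃ M', M' = K * T := ⟨_, rfl⟩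
  have hK2 : 2 ≤ K := by
    rw [hK]
    have : 0 < M0 * M1 * Md := by positivity
    calc 2 ≤ 2 * (M0 * M1 * Md) := by omega
      _ = _ := by ring
  have hM'2 : 2 ≤ M' := by
    rw [hM']
    calc 2 = 2 * 1 := rfl
      _ ≤ K * T := Nat.mul_le_mul hK2 hT
  have d0K : M0 ∣ K := ⟨2 * M1 * Md, by rw [hK]; ring⟩
  have d2K : 2 ∣ K := ⟨M0 * M1 * Md, by rw [hK]; ring⟩
  have d0 : M0 ∣ M' := hM' ▸ d0K.mul_right T
  have d1 : M1 ∣ M' := ⟨2 * M0 * Md * T, by rw [hM', hK]; ring⟩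
  have d2 : 2 ∣ M' := hM' ▸ d2K.mul_right T
  have dd : Md ∣ M' ^ 3 := ⟨2 * M0 * M1 * T * M' ^ 2, by rw [pow_succ', hM', hK]; ring⟩
  have dN : N ∣ M' ^ 3 := hNM.trans dd
  refine ⟨M' ^ 3, Nat.one_le_pow _ _ (by omega), fun δ hδ hδM => ?_⟩
  obtain ⟨d, ε, hdc, hε, hδe⟩ := hGN F n (M' ^ 3) (Nat.one_le_pow 3 M' (by omega)) δ hδM
  rw [Nat.cast_pow] at hdc hε
  have ha0 : ((M' : 𝓞 F) ^ 3) ≠ 0 := by
    refine pow_ne_zero 3 ?_
    have : M' ≠ 0 := by omega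
    exact_mod_cast this
  have hau : ¬ IsUnit ((M' : 𝓞 F) ^ 3) := by
    intro h
    rw [isUnit_pow_iff three_ne_zero] at h
    exact Q211.GLC.not_isUnit_nat hM'2 h
  obtain ⟨x, hxE, hxb⟩ := hSC2 hSCR hSC1 (𝓞 F) n hn i0 hi0 _ ha0 hau d hdc
  have hxE' := (ES n (𝓞 F) ((M' : 𝓞 F) ^ 3)).inv_mem hxE
  obtain ⟨a1, a2⟩ := h0 M' d0 d2 _ hxE'
  obtain ⟨b1, b2⟩ := h1 M' d1 d2 _ hxE'
  rw [inv_one, one_mul, mul_one] at a1 a2
  have hfix : (mS F n (x * d)).1 *ᵥ Pi.single (Sum.inl i0) 1 = Pi.single (Sum.inl i0) 1 := by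
    have h3 := (hxb i0 (by rw [hi0]; exact one_pos)).1
    funext z
    have h4 := congrFun h3 z
    rw [mulVec_single_one] at h4 ⊢
    change (x * d).1 z (Sum.inl i0) = _ at h4
    change (mS F n (x * d)).1 z (Sum.inl i0) = _
    rw [mS_apply, h4, Pi.single_apply, Pi.single_apply]
    split_ifs <;> simp
  have hcomm : mS F n (x * d) * γ = γ * mS F n (x * d) := by
    rw [hγ]
    exact comm_of_fix hfix b hb
  obtain ⟨e, he⟩ : ∃ e : Fˣ, e = Units.map (algebraMap (𝓞 F) F).toMonoidHom ε := ⟨_, rfl⟩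
  rw [← he] at hδe
  have hev : e.1 = algebraMap (𝓞 F) F ε.1 := by rw [he]; rfl
  -- the elementary matrix
  obtain ⟨c, hc⟩ := hε
  have hval : -(e.1 * b) + b = algebraMap (𝓞 F) F (((K : 𝓞 F) ^ 3) *
      (-(c * τ * (T : 𝓞 F) ^ 2))) := by
    have h5 := congrArg (algebraMap (𝓞 F) F) hc
    rw [map_sub, map_one, map_mul, map_pow, map_natCast] at h5
    have h6 : ((M' : ℕ) : F) = (K : F) * (T : F) := by rw [hM', Nat.cast_mul]
    rw [h6, ← hev] at h5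
    simp only [map_mul, map_neg, map_pow, map_natCast]
    rw [← hτ]
    linear_combination (-b) * h5
  obtain ⟨z, hzE, hzγ⟩ := long_z i0 b hb e _ _ hval
  rw [← hγ] at hzγ
  obtain ⟨c1, c2⟩ := h0 K d0K d2K z hzE
  rw [inv_one, one_mul, mul_one] at c1 c2
  -- the decomposition
  obtain ⟨y, hy⟩ : ∃ y : GSp n F, y = inc (mS F n (x * d)) * dnu n e := ⟨_, rfl⟩
  have hyδ : δ = inc (mS F n x⁻¹) * y := by
    have h3 : inc (mS F n (x * d)) = inc (mS F n x) * inc (mS F n d) := by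
      rw [map_mul, map_mul]
    have h4 : inc (mS F n x⁻¹) = (inc (mS F n x))⁻¹ := by
      rw [map_inv, map_inv]
    rw [hy, hδe, h3, h4]
    group
  have hyγ : (inc γ)⁻¹ * y * inc γ = y * inc (mS F n z) := by
    have h5 : inc (mS F n (x * d)) * inc γ = inc γ * inc (mS F n (x * d)) :=
      (map_mul inc _ _).symm.trans ((congrArg inc hcomm).trans (map_mul inc _ _))
    have h3 : (inc γ)⁻¹ * inc (mS F n (x * d)) = inc (mS F n (x * d)) * (inc γ)⁻¹ := by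
      rw [inv_mul_eq_iff_eq_mul, ← mul_assoc, ← h5, mul_inv_cancel_right]
    rw [← hzγ, hy, ← mul_assoc (inc γ)⁻¹, h3]
    group
  have lδ : dG F n δ ∈ UG F n N := UG_mono dN hδM
  have lx : dG F n (inc (mS F n x⁻¹)) ∈ UG F n N := by rw [dG_inc]; exact inc_UG a1
  have lz : dG F n (inc (mS F n z)) ∈ UG F n N := by rw [dG_inc]; exact inc_UG c1
  have hye : y = (inc (mS F n x⁻¹))⁻¹ * δ := by rw [hyδ]; group
  have ly : dG F n y ∈ UG F n N := by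
    rw [hye, map_mul, map_inv]
    exact (UG F n N).mul_mem ((UG F n N).inv_mem lx) lδ
  have gy : y ∈ Γ := by
    rw [hye]
    exact Γ.mul_mem (Γ.inv_mem (hΓ _)) hδ
  have e1 : (inc γ)⁻¹ * δ * inc γ = inc (γ⁻¹ * mS F n x⁻¹ * γ) * (y * inc (mS F n z)) := by
    rw [← hyγ, hyδ]
    simp only [map_mul, map_inv]
    group
  have lb : dG F n (inc (γ⁻¹ * mS F n x⁻¹ * γ)) ∈ UG F n N := by rw [dG_inc]; exact inc_UG b1
  have lyz : dG F n (y * inc (mS F n z)) ∈ UG F n N := by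
    rw [map_mul]
    exact (UG F n N).mul_mem ly lz
  rw [e1, hφ _ (hΓ _) _ (Γ.mul_mem gy (hΓ _)) lb lyz, b2, zero_add,
    hφ _ gy _ (hΓ _) ly lz, c2, add_zero, hyδ, hφ _ (hΓ _) _ gy lx ly, a2, zero_add]

theorem cenG (hSA : SA) (hSB : SB) (hSCR : SCR) (hSC1 : SC1) (hSC2 : SC2) (hSD : SD) (hSI : SI)
    (hGI : GI) (hGN : GN) (hΓ : ∀ s : Sp n F, inc s ∈ Γ) (hn : 2 ≤ n) (γ : Sp n F) :
    GoodG F n A Γ γ := by
  obtain ⟨i0, hi0⟩ : ∃ i0 : Fin n, i0.1 = 0 := ⟨⟨0, by omega⟩, rfl⟩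
  have h := hSD hSA F n i0 hi0 (goodGS hGI hΓ A) ⟨fun a ha g => goodG_conj hGI hΓ ha g⟩
    (fun b hb => goodG_long hSB hSCR hSC1 hSC2 hSI hGI hGN hΓ hn i0 hi0 b hb)
  have h2 : γ ∈ goodGS hGI hΓ A := by rw [h]; exact Subgroup.mem_top γ
  exact h2

end good

end Q4.SPC
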