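import Pool.Agent.Q4.SPC.El

/-!
# The groups of symplectic similitudes over the adeles of a number field (helper4, project SPC)

* `GSp n R`: the pairs `(g, ν)`, `g` an invertible matrix of degree `2n` over `R`, `ν` a unit of `R`,
  with `g J gᵀ = ν J` (for `n ≥ 1` this is the group of symplectic similitudes).
* `gMap n f`: the homomorphism given by a ring homomorphism; `nu`: the similitude factor;
  `inc`: the inclusion of `Sp n R`; `dnu ν`: the matrix `diag (1, ν)`.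
* `UG F n N`: the principal congruence subgroup of level `N` of `GSp_{2n}(Ô)`.
* `KG F n v`: the subgroup `GSp_{2n}(O_v)` (components `1` at the other places).
-/

open IsDedekindDomain NumberField Matrix Q4.GLC

namespace Q4.SPC

section ring

variable {R R' : Type} [CommRing R] [CommRing R'] {n : ℕ}

/-- the symplectic similitudes: pairs `(g, ν)` with `g J gᵀ = ν J` -/
def GSp (n : ℕ) (R : Type) [CommRing R] : Subgroup (GL (Fin n ⊕ Fin n) R × Rˣ) where
  carrier := {p | p.1.1 * J (Fin n) R * p.1.1ᵀ = p.2.1 • J (Fin n) R}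
  one_mem' := by simp
  mul_mem' := by
    rintro ⟨g, a⟩ ⟨h, b⟩ hg hh
    change (g.1 * h.1) * J (Fin n) R * (g.1 * h.1)ᵀ = (a.1 * b.1) • J (Fin n) R
    change g.1 * J (Fin n) R * g.1ᵀ = a.1 • J (Fin n) R at hg
    change h.1 * J (Fin n) R * h.1ᵀ = b.1 • J (Fin n) R at hh
    calc (g.1 * h.1) * J (Fin n) R * (g.1 * h.1)ᵀ = g.1 * (h.1 * J (Fin n) R * h.1ᵀ) * g.1ᵀ := by
          rw [transpose_mul]; simp only [Matrix.mul_assoc]
      _ = b.1 • (g.1 * J (Fin n) R * g.1ᵀ) := by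
          rw [hh, Matrix.mul_smul, Matrix.smul_mul]
      _ = _ := by rw [hg, smul_smul, mul_comm b.1]
  inv_mem' := by
    rintro ⟨g, a⟩ hg
    change g⁻¹.1 * J (Fin n) R * g⁻¹.1ᵀ = a⁻¹.1 • J (Fin n) R
    change g.1 * J (Fin n) R * g.1ᵀ = a.1 • J (Fin n) R at hg
    have h1 : g⁻¹.1 * g.1 = 1 := by rw [← Units.val_mul, inv_mul_cancel, Units.val_one]
    have h2 : g.1ᵀ * g⁻¹.1ᵀ = 1 := by rw [← transpose_mul, h1, transpose_one]
    have h3 : J (Fin n) R = a⁻¹.1 • (g.1 * J (Fin n) R * g.1ᵀ) := by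
      rw [hg, smul_smul, ← Units.val_mul, inv_mul_cancel, Units.val_one, one_smul]
    calc g⁻¹.1 * J (Fin n) R * g⁻¹.1ᵀ
        = g⁻¹.1 * (a⁻¹.1 • (g.1 * J (Fin n) R * g.1ᵀ)) * g⁻¹.1ᵀ := by rw [← h3]
      _ = a⁻¹.1 • ((g⁻¹.1 * g.1) * J (Fin n) R * (g.1ᵀ * g⁻¹.1ᵀ)) := by
          rw [Matrix.mul_smul, Matrix.smul_mul]; simp only [Matrix.mul_assoc]
      _ = _ := by rw [h1, h2, Matrix.one_mul, Matrix.mul_one]

/-- the similitude factor -/
def nu : GSp n R →* Rˣ := (MonoidHom.snd _ _).comp (GSp n R).subtype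

theorem nu_apply (g : GSp n R) : nu g = g.1.2 := rfl

theorem J_map (f : R →+* R') : (J (Fin n) R).map f = J (Fin n) R' := by
  ext i j
  rw [Matrix.map_apply, J, J]
  rcases i with i | i <;> rcases j with j | j
  · simp
  · rw [fromBlocks_apply₁₂, fromBlocks_apply₁₂, Matrix.neg_apply, Matrix.neg_apply,
      Matrix.one_apply, Matrix.one_apply]
    split_ifs <;> simp
  · rw [fromBlocks_apply₂₁, fromBlocks_apply₂₁, Matrix.one_apply, Matrix.one_apply]
    split_ifs <;> simp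
  · simp

/-- functoriality -/
def gMap (n : ℕ) (f : R →+* R') : GSp n R →* GSp n R' where
  toFun g := ⟨(Matrix.GeneralLinearGroup.map f g.1.1, Units.map f.toMonoidHom g.1.2), by
    have h := g.2
    change g.1.1.1 * J (Fin n) R * g.1.1.1ᵀ = g.1.2.1 • J (Fin n) R at h
    change g.1.1.1.map f * J (Fin n) R' * (g.1.1.1.map f)ᵀ = f g.1.2.1 • J (Fin n) R'
    have h2 : (g.1.1.1 * J (Fin n) R * g.1.1.1ᵀ).map f = (g.1.2.1 • J (Fin n) R).map f := by rw [h]
    rw [Matrix.map_mul, Matrix.map_mul, J_map, transpose_map] at h2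
    rw [h2]
    ext i j
    have h3 : f (J (Fin n) R i j) = J (Fin n) R' i j := by
      rw [← J_map f, Matrix.map_apply]
    rw [Matrix.map_apply, Matrix.smul_apply, Matrix.smul_apply, smul_eq_mul, smul_eq_mul, map_mul,
      h3]⟩
  map_one' := by
    refine Subtype.ext (Prod.ext ?_ ?_)
    · exact map_one (Matrix.GeneralLinearGroup.map f)
    · exact map_one (Units.map f.toMonoidHom)
  map_mul' g h := by
    refine Subtype.ext (Prod.ext ?_ ?_)
    · exact map_mul (Matrix.GeneralLinearGroup.map f) g.1.1 h.1.1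
    · exact map_mul (Units.map f.toMonoidHom) g.1.2 h.1.2

theorem gMap_val (f : R →+* R') (g : GSp n R) : (gMap n f g).1.1.1 = g.1.1.1.map f := rfl

theorem gMap_nu (f : R →+* R') (g : GSp n R) : (gMap n f g).1.2.1 = f g.1.2.1 := rfl

/-- the inclusion of the symplectic group -/
def inc : Sp n R →* GSp n R where
  toFun g := ⟨((MonoidHom.toHomUnits (symplecticGroup (Fin n) R).subtype g), 1), by
    change g.1 * J (Fin n) R * g.1ᵀ = (1 : R) • J (Fin n) R
    rw [one_smul]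
    exact g.2⟩
  map_one' := by
    refine Subtype.ext (Prod.ext ?_ rfl)
    exact map_one (MonoidHom.toHomUnits (symplecticGroup (Fin n) R).subtype)
  map_mul' g h := by
    refine Subtype.ext (Prod.ext ?_ ?_)
    · exact map_mul (MonoidHom.toHomUnits (symplecticGroup (Fin n) R).subtype) g h
    · exact (mul_one (1 : Rˣ)).symm

theorem inc_val (g : Sp n R) : (inc g).1.1.1 = g.1 := rfl

theorem nu_inc (g : Sp n R) : nu (inc g) = 1 := rfl

/-- the elements with similitude factor one come from the symplectic group -/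
theorem exists_inc {g : GSp n R} (h : nu g = 1) : ∃ s : Sp n R, inc s = g := by
  have h1 := g.2
  change g.1.1.1 * J (Fin n) R * g.1.1.1ᵀ = g.1.2.1 • J (Fin n) R at h1
  have h2 : g.1.2 = 1 := h
  rw [h2, Units.val_one, one_smul] at h1
  refine ⟨⟨g.1.1.1, h1⟩, Subtype.ext (Prod.ext (Units.ext rfl) h2.symm)⟩

/-- the matrix `diag (1, ν)` -/
def dnu (n : ℕ) {R : Type} [CommRing R] : Rˣ →* GSp n R where
  toFun a := ⟨({
      val := fromBlocks 1 0 0 (a.1 • 1)
      inv := fromBlocks 1 0 0 (a⁻¹.1 • 1)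
      val_inv := by
        rw [fromBlocks_multiply]
        simp [smul_smul, ← fromBlocks_one]
      inv_val := by
        rw [fromBlocks_multiply]
        simp [smul_smul, ← fromBlocks_one] }, a), by
    change fromBlocks 1 0 0 (a.1 • 1) * J (Fin n) R * (fromBlocks 1 0 0 (a.1 • 1))ᵀ = a.1 • J (Fin n) R
    rw [J, fromBlocks_transpose, fromBlocks_multiply, fromBlocks_multiply, fromBlocks_smul]
    simp⟩
  map_one' := by
    refine Subtype.ext (Prod.ext (Units.ext ?_) rfl)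
    change fromBlocks 1 0 0 ((1 : R) • 1) = 1
    rw [one_smul, fromBlocks_one]
  map_mul' a b := by
    refine Subtype.ext (Prod.ext (Units.ext ?_) rfl)
    change fromBlocks 1 0 0 ((a.1 * b.1) • 1) =
      fromBlocks 1 0 0 (a.1 • 1) * fromBlocks 1 0 0 (b.1 • 1)
    rw [fromBlocks_multiply]
    simp [smul_smul, mul_comm]

theorem dnu_val (a : Rˣ) : (dnu n a).1.1.1 = fromBlocks 1 0 0 (a.1 • 1) := rfl

theorem nu_dnu (a : Rˣ) : nu (dnu n a) = a := rfl

end ring

variable {F : Type} [Field F] [NumberField F] {n : ℕ}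

/-- the principal congruence subgroup of level `N` of `GSp_{2n}(Ô)` -/
def UG (F : Type) [Field F] [NumberField F] (n N : ℕ) : Subgroup (GSp n (Af F)) where
  carrier := {g | (DvdS N (g.1.1.1 - 1) ∧ DvdS N (g.1.1⁻¹.1 - 1)) ∧
    DvdN N (g.1.2.1 - 1) ∧ DvdN N (g.1.2⁻¹.1 - 1)}
  one_mem' := by
    refine ⟨⟨?_, ?_⟩, ?_, ?_⟩
    · intro i j
      change DvdN N ((1 : Matrix (Fin n ⊕ Fin n) (Fin n ⊕ Fin n) (Af F)) i j -
        (1 : Matrix (Fin n ⊕ Fin n) (Fin n ⊕ Fin n) (Af F)) i j)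
      rw [sub_self]; exact dvdN_zero N
    · intro i j
      change DvdN N (((1 : GL (Fin n ⊕ Fin n) (Af F))⁻¹).1 i j -
        (1 : Matrix (Fin n ⊕ Fin n) (Fin n ⊕ Fin n) (Af F)) i j)
      rw [inv_one, Units.val_one, sub_self]; exact dvdN_zero N
    · change DvdN N ((1 : Af F) - 1)
      rw [sub_self]; exact dvdN_zero N
    · change DvdN N (((1 : (Af F)ˣ)⁻¹).1 - 1)
      rw [inv_one, Units.val_one, sub_self]; exact dvdN_zero N
  inv_mem' := by
    rintro g ⟨⟨h1, h2⟩, h3, h4⟩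
    refine ⟨⟨h2, ?_⟩, h4, ?_⟩
    · change DvdS N ((g.1.1⁻¹)⁻¹.1 - 1)
      rwa [inv_inv]
    · change DvdN N ((g.1.2⁻¹)⁻¹.1 - 1)
      rwa [inv_inv]
  mul_mem' := by
    have key : ∀ A B : Matrix (Fin n ⊕ Fin n) (Fin n ⊕ Fin n) (Af F), DvdS N (A - 1) →
        DvdS N (B - 1) → DvdS N (A * B - 1) := by
      intro A B hA hB
      have e : A * B - 1 = (A - 1) * B + (B - 1) := by
        rw [sub_mul, one_mul]; abel
      rw [e]
      refine (hA.mul_int ?_).add hB
      have e2 : B = (B - 1) + 1 := by abel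
      rw [e2]
      exact hB.int.add dvdS_one_one
    have key2 : ∀ a b : Af F, DvdN N (a - 1) → DvdN N (b - 1) → DvdN N (a * b - 1) := by
      intro a b ha hb
      have e : a * b - 1 = (a - 1) * b + (b - 1) := by ring
      rw [e]
      refine (ha.mul_int ?_).add hb
      have e2 : b = (b - 1) + 1 := by ring
      rw [e2]
      exact hb.int.add dvdN_one_one
    rintro g h ⟨⟨h1, h2⟩, h3, h4⟩ ⟨⟨h5, h6⟩, h7, h8⟩
    refine ⟨⟨key _ _ h1 h5, ?_⟩, key2 _ _ h3 h7, ?_⟩
    · change DvdS N ((g.1.1 * h.1.1)⁻¹.1 - 1)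
      rw [_root_.mul_inv_rev, Units.val_mul]
      exact key _ _ h6 h2
    · change DvdN N ((g.1.2 * h.1.2)⁻¹.1 - 1)
      rw [_root_.mul_inv_rev, Units.val_mul]
      exact key2 _ _ h8 h4

theorem mem_UG {N : ℕ} {g : GSp n (Af F)} : g ∈ UG F n N ↔
    (DvdS N (g.1.1.1 - 1) ∧ DvdS N (g.1.1⁻¹.1 - 1)) ∧
    DvdN N (g.1.2.1 - 1) ∧ DvdN N (g.1.2⁻¹.1 - 1) := Iff.rfl

/-- the components of `g` at the places other than `v` are `1` -/
def GAt (v : Pl F) (g : GSp n (Af F)) : Prop :=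
  ∀ w, w ≠ v → (∀ i j, (g.1.1.1 i j) w =
    ((1 : Matrix (Fin n ⊕ Fin n) (Fin n ⊕ Fin n) (Af F)) i j) w) ∧ g.1.2.1 w = 1

/-- the component homomorphism -/
noncomputable def gcomp (F : Type) [Field F] [NumberField F] (n : ℕ) (w : Pl F) :
    GSp n (Af F) →* GSp n (w.adicCompletion F) :=
  gMap n (RestrictedProduct.evalRingHom _ w)

theorem gcomp_val (w : Pl F) (g : GSp n (Af F)) (i j : Fin n ⊕ Fin n) :
    (gcomp F n w g).1.1.1 i j = (g.1.1.1 i j) w := rfl

theorem gcomp_nu (w : Pl F) (g : GSp n (Af F)) : (gcomp F n w g).1.2.1 = g.1.2.1 w := rfl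

theorem gat_iff {v : Pl F} {g : GSp n (Af F)} : GAt v g ↔ ∀ w, w ≠ v → gcomp F n w g = 1 := by
  have e : ∀ (w : Pl F) (i j : Fin n ⊕ Fin n),
      ((1 : Matrix (Fin n ⊕ Fin n) (Fin n ⊕ Fin n) (Af F)) i j) w =
      (1 : Matrix (Fin n ⊕ Fin n) (Fin n ⊕ Fin n) (w.adicCompletion F)) i j := by
    intro w i j
    rw [Matrix.one_apply, Matrix.one_apply]
    split_ifs <;> rfl
  refine forall_congr' fun w => forall_congr' fun _ => ?_
  constructor
  · rintro ⟨h1, h2⟩
    refine Subtype.ext (Prod.ext (Units.ext (Matrix.ext fun i j => ?_)) (Units.ext ?_))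
    · rw [gcomp_val, h1 i j, e]
      rfl
    · rw [gcomp_nu, h2]
      rfl
  · intro h
    refine ⟨fun i j => ?_, ?_⟩
    · rw [← gcomp_val, h, e]
      rfl
    · rw [← gcomp_nu, h]
      rfl

/-- the subgroup `GSp_{2n}(O_v)` -/
def KG (F : Type) [Field F] [NumberField F] (n : ℕ) (v : Pl F) : Subgroup (GSp n (Af F)) where
  carrier := {g | g ∈ UG F n 1 ∧ GAt v g}
  one_mem' := ⟨Subgroup.one_mem _, gat_iff.2 fun w _ => map_one _⟩
  inv_mem' := by
    rintro g ⟨h1, h2⟩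
    refine ⟨Subgroup.inv_mem _ h1, gat_iff.2 fun w hw => ?_⟩
    rw [map_inv, gat_iff.1 h2 w hw, inv_one]
  mul_mem' := by
    rintro g h ⟨h1, h2⟩ ⟨h3, h4⟩
    refine ⟨Subgroup.mul_mem _ h1 h3, gat_iff.2 fun w hw => ?_⟩
    rw [map_mul, gat_iff.1 h2 w hw, gat_iff.1 h4 w hw, one_mul]

theorem mem_KG {v : Pl F} {g : GSp n (Af F)} : g ∈ KG F n v ↔ g ∈ UG F n 1 ∧ GAt v g := Iff.rfl

/-- the diagonal embedding -/
noncomputable def dG (F : Type) [Field F] [NumberField F] (n : ℕ) : GSp n F →* GSp n (Af F) :=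
  gMap n (algebraMap F (Af F))

/-- the component at `v` has integral entries and similitude factor -/
def GInt (v : Pl F) (g : GSp n (Af F)) : Prop :=
  (∀ i j, Valued.v ((g.1.1.1 i j) v) ≤ 1) ∧ Valued.v (g.1.2.1 v) ≤ 1

end Q4.SPC
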