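import Pool.Agent.Q4.SPC.Stm
import Pool.Agent.Q4.GLC.Cen
import Pool.Agent.Q4.GLC.Int

/-!
# Congruence subgroups of the symplectic group (helper4, project SPC)
-/

open IsDedekindDomain NumberField Matrix Q4.GLC

namespace Q4.SPC

section ring

variable {R : Type} [CommRing R] {n : ℕ}

theorem conj_sub (g a : Sp n R) : (g * a * g⁻¹).1 - 1 = g.1 * (a.1 - 1) * (g⁻¹).1 := by
  have h3 : g.1 * (g⁻¹).1 = 1 := congrArg Subtype.val (mul_inv_cancel g)
  change g.1 * a.1 * (g⁻¹).1 - 1 = _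
  rw [mul_sub, sub_mul, mul_one, h3]

/-- the principal congruence subgroup modulo `a` -/
def PC (n : ℕ) (a : R) : Subgroup (Sp n R) := (spMap n (Ideal.Quotient.mk (Ideal.span {a}))).ker

theorem mem_PC {a : R} {g : Sp n R} : g ∈ PC n a ↔ Cg a g := by
  rw [PC, MonoidHom.mem_ker]
  have key : ∀ i j, Ideal.Quotient.mk (Ideal.span {a})
      ((1 : Matrix (Fin n ⊕ Fin n) (Fin n ⊕ Fin n) R) i j) =
      (1 : Matrix (Fin n ⊕ Fin n) (Fin n ⊕ Fin n) (R ⧸ Ideal.span {a})) i j := by
    intro i j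
    rw [Matrix.one_apply, Matrix.one_apply]
    split_ifs <;> simp
  constructor
  · intro h i j
    have h1 : Ideal.Quotient.mk (Ideal.span {a}) (g.1 i j) =
        (1 : Matrix (Fin n ⊕ Fin n) (Fin n ⊕ Fin n) (R ⧸ Ideal.span {a})) i j :=
      congrFun (congrFun (congrArg Subtype.val h) i) j
    rw [← key, Ideal.Quotient.eq, Ideal.mem_span_singleton] at h1
    exact h1
  · intro h
    refine Subtype.ext (Matrix.ext fun i j => ?_)
    change Ideal.Quotient.mk (Ideal.span {a}) (g.1 i j) =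
      (1 : Matrix (Fin n ⊕ Fin n) (Fin n ⊕ Fin n) (R ⧸ Ideal.span {a})) i j
    rw [← key, Ideal.Quotient.eq, Ideal.mem_span_singleton]
    exact h i j

instance pc_normal (a : R) : (PC n a).Normal := by
  unfold PC
  infer_instance

theorem isEl_PC {a : R} {x : Sp n R} (h : IsEl a x) : x ∈ PC n a := by
  rw [mem_PC]
  have e1 : (1 : Matrix (Fin n ⊕ Fin n) (Fin n ⊕ Fin n) R) = fromBlocks 1 0 0 1 :=
    fromBlocks_one.symm
  intro i j
  rw [e1]
  rcases h with ⟨S, -, hx⟩ | ⟨S, -, hx⟩ | ⟨p, q, -, b, hx⟩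
  · rw [hx]
    rcases i with i | i <;> rcases j with j | j <;> simp
  · rw [hx]
    rcases i with i | i <;> rcases j with j | j <;> simp
  · rw [hx]
    have key : ∀ (p q : Fin n) (c : R), a ∣ c → ∀ i j : Fin n,
        a ∣ transvection p q c i j - (1 : Matrix (Fin n) (Fin n) R) i j := by
      intro p q c hc i j
      rw [transvection, Matrix.add_apply, add_sub_cancel_left, Matrix.single_apply]
      split_ifs
      · exact hc
      · exact dvd_zero _
    rcases i with i | i <;> rcases j with j | j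
    · exact key _ _ _ (dvd_mul_right _ _) i j
    · simp
    · simp
    · exact key _ _ _ ((dvd_neg).2 (dvd_mul_right _ _)) i j

theorem ES_le_PC (a : R) : ES n R a ≤ PC n a := by
  rw [ES, Subgroup.closure_le]
  rintro x ⟨h, y, hy, rfl⟩
  exact (pc_normal (n := n) a).conj_mem _ (isEl_PC hy) h

theorem row_of_fix {g : Sp n R} {i0 : Fin n}
    (h : g.1 *ᵥ Pi.single (Sum.inl i0) 1 = Pi.single (Sum.inl i0) 1) (x : Fin n ⊕ Fin n) :
    g.1 (Sum.inr i0) x =
      (1 : Matrix (Fin n ⊕ Fin n) (Fin n ⊕ Fin n) R) (Sum.inr i0) x := by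
  have hJ : (Pi.single (Sum.inl i0) 1 : Fin n ⊕ Fin n → R) ᵥ* J (Fin n) R =
      -Pi.single (Sum.inr i0) 1 := by
    rw [single_one_vecMul]
    funext x
    change J (Fin n) R (Sum.inl i0) x = _
    rw [J]
    rcases x with x | x
    · simp
    · rw [fromBlocks_apply₁₂, Matrix.neg_apply, Matrix.one_apply, Pi.neg_apply, Pi.single_apply]
      by_cases hx : i0 = x
      · subst hx; simp
      · rw [if_neg hx, if_neg]
        intro e
        exact hx (Sum.inr_injective e).symm
  have h1 := SymplecticGroup.mem_iff'.1 g.2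
  have h2 := congrArg (fun M => (Pi.single (Sum.inl i0) 1 : Fin n ⊕ Fin n → R) ᵥ* M) h1
  simp only [← Matrix.vecMul_vecMul] at h2
  rw [Matrix.vecMul_transpose, h, hJ, Matrix.neg_vecMul, single_one_vecMul] at h2
  have h3 := congrFun h2 x
  rw [Pi.neg_apply, Pi.neg_apply, neg_inj] at h3
  change g.1 (Sum.inr i0) x = _ at h3
  rw [h3, Matrix.one_apply, Pi.single_apply]
  by_cases hx : x = Sum.inr i0
  · rw [if_pos hx, if_pos hx.symm]
  · rw [if_neg hx, if_neg (Ne.symm hx)]

/-- the matrices which fix `e_0` commute with the long root subgroup -/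
theorem comm_of_fix {g : Sp n R} {i0 : Fin n}
    (h : g.1 *ᵥ Pi.single (Sum.inl i0) 1 = Pi.single (Sum.inl i0) 1) (b : R)
    (hb : (Matrix.diagonal (Pi.single i0 b) : Matrix (Fin n) (Fin n) R)ᵀ =
      Matrix.diagonal (Pi.single i0 b)) :
    g * up (Matrix.diagonal (Pi.single i0 b)) hb =
      up (Matrix.diagonal (Pi.single i0 b)) hb * g := by
  have hcol : ∀ x, g.1 x (Sum.inl i0) =
      (1 : Matrix (Fin n ⊕ Fin n) (Fin n ⊕ Fin n) R) x (Sum.inl i0) := by
    intro x
    rw [mulVec_single_one] at h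
    have := congrFun h x
    change g.1 x (Sum.inl i0) = _ at this
    rw [this, Matrix.one_apply, Pi.single_apply]
  have hrow := row_of_fix h
  have e : (up (Matrix.diagonal (Pi.single i0 b)) hb : Sp n R).1 =
      1 + Matrix.single (Sum.inl i0) (Sum.inr i0) b := by
    change fromBlocks 1 (Matrix.diagonal (Pi.single i0 b)) 0 1 = _
    rw [← fromBlocks_one]
    ext x y
    rw [Matrix.add_apply, Matrix.single_apply]
    rcases x with x | x <;> rcases y with y | y
    · simp
    · simp only [fromBlocks_apply₁₂, Matrix.zero_apply, zero_add, Sum.inl.injEq, Sum.inr.injEq,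
        Matrix.diagonal_apply, Pi.single_apply]
      by_cases hx : i0 = x
      · subst hx
        by_cases hy : i0 = y
        · subst hy; simp
        · simp [hy]
      · simp [hx, Ne.symm hx]
    · simp
    · simp
  refine Subtype.ext ?_
  change g.1 * (up (Matrix.diagonal (Pi.single i0 b)) hb : Sp n R).1 =
    (up (Matrix.diagonal (Pi.single i0 b)) hb : Sp n R).1 * g.1
  rw [e, mul_add, add_mul, mul_one, one_mul]
  congr 1
  ext x y
  by_cases hx : x = Sum.inl i0
  · subst hx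
    rw [Matrix.single_mul_apply_same, hrow]
    by_cases hy : y = Sum.inr i0
    · subst hy
      rw [Matrix.mul_single_apply_same, hcol]
      simp
    · rw [Matrix.mul_single_apply_of_ne _ _ _ _ _ hy, Matrix.one_apply_ne (Ne.symm hy), mul_zero]
  · rw [Matrix.single_mul_apply_of_ne _ _ _ _ _ hx]
    by_cases hy : y = Sum.inr i0
    · subst hy
      rw [Matrix.mul_single_apply_same, hcol, Matrix.one_apply_ne hx, zero_mul]
    · rw [Matrix.mul_single_apply_of_ne _ _ _ _ _ hy]

end ring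

variable {F : Type} [Field F] [NumberField F] {n : ℕ}

theorem US_mono {M N : ℕ} (h : M ∣ N) : US F n N ≤ US F n M := fun _ hu i j =>
  Q211.GLC.DvdN.mono h (hu i j)

theorem US_int {u : Sp n (Af F)} (hu : u ∈ US F n 1) : DvdS 1 u.1 := by
  have : u.1 = (u.1 - 1) + 1 := by abel
  rw [this]
  exact DvdS.add hu dvdS_one_one

theorem US_conj {M : ℕ} {v u : Sp n (Af F)} (hv : v ∈ US F n 1) (hu : u ∈ US F n M) :
    v * u * v⁻¹ ∈ US F n M := by
  rw [mem_US, conj_sub]
  exact ((US_int hv).int_mul hu).mul_int (US_int ((US F n 1).inv_mem hv))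

/-- integral symplectic matrices -/
noncomputable abbrev mS (F : Type) [Field F] [NumberField F] (n : ℕ) : Sp n (𝓞 F) →* Sp n F :=
  spMap n (algebraMap (𝓞 F) F)

theorem dS_apply (g : Sp n F) (i j : Fin n ⊕ Fin n) :
    (dS F n g).1 i j = algebraMap F (Af F) (g.1 i j) := rfl

theorem mS_apply (g : Sp n (𝓞 F)) (i j : Fin n ⊕ Fin n) :
    (mS F n g).1 i j = algebraMap (𝓞 F) F (g.1 i j) := rfl

theorem dS_mS_mem {M : ℕ} {x : Sp n (𝓞 F)} (h : Cg (M : 𝓞 F) x) :
    dS F n (mS F n x) ∈ US F n M := by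
  intro i j
  obtain ⟨b, hb⟩ := h i j
  have e : ((dS F n (mS F n x)).1 - 1) i j =
      algebraMap F (Af F) (algebraMap (𝓞 F) F ((M : 𝓞 F) * b)) := by
    rw [← hb, Matrix.sub_apply, map_sub, map_sub, dS_apply, mS_apply]
    congr 1
    rw [Matrix.one_apply, Matrix.one_apply]
    split_ifs <;> simp
  rw [e]
  exact Q211.GLC.dvdN_mul_int M b

/-- rational symplectic matrices of level `L` are integral -/
theorem exists_int_sp {L : ℕ} (hL : 1 ≤ L) {δ : Sp n F} (hδ : dS F n δ ∈ US F n L) :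
    ∃ d : Sp n (𝓞 F), mS F n d = δ ∧ Cg (L : 𝓞 F) d := by
  have h1 : ∀ i j, ∃ b : 𝓞 F,
      δ.1 i j - (1 : Matrix (Fin n ⊕ Fin n) (Fin n ⊕ Fin n) F) i j =
        (L : F) * algebraMap (𝓞 F) F b := by
    intro i j
    refine tInt F _ L hL ?_
    have h2 := hδ i j
    rw [Matrix.sub_apply, dS_apply] at h2
    have e1 : algebraMap F (Af F)
        (δ.1 i j - (1 : Matrix (Fin n ⊕ Fin n) (Fin n ⊕ Fin n) F) i j) =
        algebraMap F (Af F) (δ.1 i j) -
          (1 : Matrix (Fin n ⊕ Fin n) (Fin n ⊕ Fin n) (Af F)) i j := by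
      rw [map_sub, Matrix.one_apply, Matrix.one_apply]
      split_ifs <;> simp
    rw [e1]
    exact h2
  choose b hb using h1
  have hb' : ∀ i j, algebraMap (𝓞 F) F
      ((1 : Matrix (Fin n ⊕ Fin n) (Fin n ⊕ Fin n) (𝓞 F)) i j + (L : 𝓞 F) * b i j) = δ.1 i j := by
    intro i j
    rw [map_add, map_mul, map_natCast, ← hb, Matrix.one_apply, Matrix.one_apply]
    split_ifs <;> simp
  obtain ⟨B, hB⟩ : ∃ B : Matrix (Fin n ⊕ Fin n) (Fin n ⊕ Fin n) (𝓞 F), B = Matrix.of fun i j =>
      (1 : Matrix (Fin n ⊕ Fin n) (Fin n ⊕ Fin n) (𝓞 F)) i j + (L : 𝓞 F) * b i j := ⟨_, rfl⟩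
  have e1 : B.map (algebraMap (𝓞 F) F) = δ.1 := by
    ext i j
    rw [Matrix.map_apply, hB, Matrix.of_apply, hb']
  have hinj : Function.Injective (algebraMap (𝓞 F) F) := RingOfIntegers.coe_injective
  have hJ : (J (Fin n) (𝓞 F)).map (algebraMap (𝓞 F) F) = J (Fin n) F := by
    ext i j
    rw [Matrix.map_apply, J, J]
    rcases i with i | i <;> rcases j with j | j
    · simp
    · rw [fromBlocks_apply₁₂, fromBlocks_apply₁₂, Matrix.neg_apply, Matrix.neg_apply,
        Matrix.one_apply, Matrix.one_apply]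
      split_ifs <;> simp
    · rw [fromBlocks_apply₂₁, fromBlocks_apply₂₁, Matrix.one_apply, Matrix.one_apply]
      split_ifs <;> simp
    · simp
  have e3 : B * J (Fin n) (𝓞 F) * Bᵀ = J (Fin n) (𝓞 F) := by
    apply Matrix.map_injective hinj
    change (B * J (Fin n) (𝓞 F) * Bᵀ).map (algebraMap (𝓞 F) F) =
      (J (Fin n) (𝓞 F)).map (algebraMap (𝓞 F) F)
    rw [Matrix.map_mul, Matrix.map_mul, transpose_map, e1, hJ]
    exact δ.2
  refine ⟨⟨B, e3⟩, Subtype.ext e1, fun i j => ?_⟩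
  change (L : 𝓞 F) ∣ B i j - _
  rw [hB, Matrix.of_apply, add_sub_cancel_left]
  exact dvd_mul_right _ _

end Q4.SPC
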