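import Pool.Agent.Q4.GLC.CaseB1

/-!
# Eigenclasses in degrees zero and one: the elements of determinant one (helper4, project SPC)

A variant of the group theoretic part of the project GLC (`GLC/Abs.lean`, `GLC/Key.lean`,
`GLC/Cases.lean`, `GLC/CaseA.lean`, `GLC/CaseB1.lean`, `GLC/CaseB2.lean`; the proofs are the same):
* the invariance of additive functions is only required for the conjugations by the elements of `Γ`
  whose image has determinant one,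
* additive functions on the local groups only have to vanish if their values are functions
  from `G` to `W`,
* the conclusion is only about the double cosets of elements of determinant one, and the field of
  coefficients is arbitrary.
-/

open Q4.GLC

namespace Q4.SPC.M

variable {G H D k W I : Type} [Group G] [Group H] [CommGroup D] [Field k] [AddCommGroup W]
  [Module k W]

/-- the properties of the adelic groups which are used -/
structure Sys (ι : H →* G) (Γ : Subgroup H) (det : G →* D) (U : ℕ → Subgroup G) : Prop where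
  mono : ∀ M N : ℕ, M ∣ N → U N ≤ U M
  nrm : ∀ M : ℕ, ∀ v ∈ U 1, ∀ u ∈ U M, v * u * v⁻¹ ∈ U M
  den : ∀ (g : G) (N : ℕ), 1 ≤ N → ∃ M : ℕ, 1 ≤ M ∧ N ∣ M ∧ ∀ u ∈ U M, g * u * g⁻¹ ∈ U N
  dns : ∀ s : G, det s = 1 → ∀ M : ℕ, 1 ≤ M → ∃ γ ∈ Γ, det (ι γ) = 1 ∧ (ι γ)⁻¹ * s ∈ U M
  cen : ∀ (A : Type) [AddCommGroup A] (N : ℕ), 1 ≤ N → ∀ φ : H → A,
    (∀ δ ∈ Γ, ∀ δ' ∈ Γ, ι δ ∈ U N → ι δ' ∈ U N → φ (δ * δ') = φ δ + φ δ') →
    ∀ γ ∈ Γ, det (ι γ) = 1 → ∃ M : ℕ, 1 ≤ M ∧ ∀ δ ∈ Γ, ι δ ∈ U M → φ (γ⁻¹ * δ * γ) = φ δ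
  fin : ∀ M : ℕ, 1 ≤ M → ∃ X : Finset G, ∀ g : G, ∃ γ ∈ Γ, ∃ x ∈ X, ∃ u ∈ U M, g = ι γ * x * u

variable {ι : H →* G} {Γ : Subgroup H} {det : G →* D} {U : ℕ → Subgroup G}

/-- the smooth functions -/
def Sm (k W : Type) [Field k] [AddCommGroup W] [Module k W] (ι : H →* G) (Γ : Subgroup H)
    (det : G →* D) (U : ℕ → Subgroup G) (S : Sys ι Γ det U) : Submodule k (G → W) where
  carrier := {f | ∃ M : ℕ, 1 ≤ M ∧ RI (U M) f}
  zero_mem' := ⟨1, le_refl _, fun _ _ _ => rfl⟩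
  add_mem' := by
    rintro f g ⟨M, hM, hf⟩ ⟨N, hN, hg⟩
    refine ⟨M * N, Nat.mul_pos hM hN, fun u hu x => ?_⟩
    rw [Pi.add_apply, Pi.add_apply, hf u (S.mono _ _ (Dvd.intro _ rfl) hu),
      hg u (S.mono _ _ (Dvd.intro_left _ rfl) hu)]
  smul_mem' := by
    rintro a f ⟨M, hM, hf⟩
    exact ⟨M, hM, fun u hu x => by rw [Pi.smul_apply, Pi.smul_apply, hf u hu]⟩

theorem Sys.sm_trans (S : Sys ι Γ det U) {f : G → W} (hf : f ∈ Sm k W ι Γ det U S) (g : G) :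
    (fun x => f (x * g)) ∈ Sm k W ι Γ det U S := by
  obtain ⟨M, hM, h⟩ := hf
  obtain ⟨M', hM', -, h2⟩ := S.den g⁻¹ M hM
  refine ⟨M', hM', fun u hu x => ?_⟩
  have h3 := h2 u hu
  rw [inv_inv] at h3
  change f (x * u * g) = f (x * g)
  rw [← h _ h3 (x * g)]
  congr 1
  group

/-- translations of the points by elements of determinant one -/
theorem Sys.dg' (S : Sys ι Γ det U) {g : G} (hg : det g = 1) (x : G) (M : ℕ) (hM : 1 ≤ M) :
    ∃ γ ∈ Γ, det (ι γ) = 1 ∧ ∃ w ∈ U M, x * g = ι γ * x * w := by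
  obtain ⟨M', hM', -, h2⟩ := S.den x⁻¹ M hM
  have hs : det (x * g * x⁻¹) = 1 := by
    rw [map_mul, map_mul, map_inv, hg, mul_one, mul_inv_cancel]
  obtain ⟨γ, hγ, hd, h3⟩ := S.dns _ hs M' hM'
  refine ⟨γ, hγ, hd, _, h2 _ h3, ?_⟩
  group

theorem Sys.fix (S : Sys ι Γ det U) {f : G → W} (h1 : f ∈ Sm k W ι Γ det U S)
    (h2 : LI ι Γ f) {g : G} (hg : det g = 1) (x : G) : f (x * g) = f x := by
  obtain ⟨M, hM, h⟩ := h1
  obtain ⟨γ, hγ, -, w, hw, e⟩ := S.dg' hg x M hM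
  rw [e, h w hw, h2 γ hγ]

theorem Sys.fix_comm (S : Sys ι Γ det U) {f : G → W} (h1 : f ∈ Sm k W ι Γ det U S)
    (h2 : LI ι Γ f) {g h : G} (hd : det g = det h) (x : G) : f (x * g) = f (x * h) := by
  have : g = h * (h⁻¹ * g) := by group
  rw [this, ← mul_assoc]
  refine S.fix h1 h2 ?_ _
  rw [map_mul, map_inv, hd, inv_mul_cancel]

theorem Sys.den2 (S : Sys ι Γ det U) (g : G) (N : ℕ) (hN : 1 ≤ N) (N' : ℕ) (hN' : 1 ≤ N') :
    ∃ M : ℕ, 1 ≤ M ∧ N ∣ M ∧ N' ∣ M ∧ ∀ u ∈ U M, g * u * g⁻¹ ∈ U N := by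
  obtain ⟨M, h1, h2, h3⟩ := S.den g N hN
  exact ⟨M * N', Nat.mul_pos h1 hN', h2.mul_right _, Dvd.intro_left _ rfl,
    fun u hu => h3 u (S.mono _ _ (Dvd.intro _ rfl) hu)⟩

/-- the local statement at one point -/
theorem Sys.key1 (S : Sys ι Γ det U) {N : ℕ} (hN : 1 ≤ N) {c : Γ → G → W} (h : IsCo ι Γ c)
    (hV : ∀ γ, RI (U N) (c γ)) {g : G} (hg : det g = 1) (x : G) :
    ∃ M : ℕ, 1 ≤ M ∧ ∀ δ : Γ, x⁻¹ * ι δ.1 * x ∈ U M → c δ (x * g) = c δ x := by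
  classical
  obtain ⟨γ, hγ, hγ1, w, hw, e⟩ := S.dg' hg x N hN
  -- the additive function
  let φ : H → W := fun δ => if hδ : δ ∈ Γ then c ⟨δ, hδ⟩ x else 0
  have hφ : ∀ δ : Γ, φ δ.1 = c δ x := fun δ => by
    simp only [φ, dif_pos δ.2]
  obtain ⟨N1, hN1, hNN1, hx1⟩ := S.den x⁻¹ N hN
  have hadd : ∀ δ ∈ Γ, ∀ δ' ∈ Γ, ι δ ∈ U N1 → ι δ' ∈ U N1 → φ (δ * δ') = φ δ + φ δ' := by
    intro δ hδ δ' hδ' h1 h2
    have e1 : φ (δ * δ') = c (⟨δ, hδ⟩ * ⟨δ', hδ'⟩) x := hφ (⟨δ, hδ⟩ * ⟨δ', hδ'⟩)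
    rw [e1, h.app, hφ ⟨δ, hδ⟩, hφ ⟨δ', hδ'⟩]
    congr 1
    have h3 := (U N).inv_mem (hx1 _ h1)
    have e2 : (ι δ)⁻¹ * x = x * (x⁻¹ * ι δ * x⁻¹⁻¹)⁻¹ := by group
    change c ⟨δ', hδ'⟩ ((ι δ)⁻¹ * x) = _
    rw [e2]
    exact hV _ _ h3 _
  obtain ⟨M1, hM1, hM1c⟩ := S.cen W N1 hN1 φ hadd γ hγ hγ1
  obtain ⟨M2, hM2, -, hM12, hM2c⟩ := S.den2 (ι γ * x)⁻¹ N hN M1 hM1
  obtain ⟨M, hM, hMM, hMc⟩ := S.den x M2 hM2
  refine ⟨M, hM, fun δ hδ => ?_⟩
  have h4 : ι δ.1 ∈ U M2 := by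
    have := hMc _ hδ
    have e3 : x * (x⁻¹ * ι δ.1 * x) * x⁻¹ = ι δ.1 := by group
    rwa [e3] at this
  rw [e, hV _ _ hw]
  have h5 := hM2c _ h4
  rw [inv_inv] at h5
  rw [← h.conj (U N) hV ⟨γ, hγ⟩ δ x h5]
  have h6 := hM1c δ.1 δ.2 (S.mono _ _ hM12 h4)
  have e4 : φ (γ⁻¹ * δ.1 * γ) = c (⟨γ, hγ⟩⁻¹ * δ * ⟨γ, hγ⟩) x := hφ (⟨γ, hγ⟩⁻¹ * δ * ⟨γ, hγ⟩)
  rw [← e4, h6, hφ]

/-- the uniform statement -/
theorem Sys.key2 (S : Sys ι Γ det U) {N : ℕ} (hN : 1 ≤ N) {c : Γ → G → W} (h : IsCo ι Γ c)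
    (hV : ∀ γ, RI (U N) (c γ)) {g : G} (hg : det g = 1) :
    ∃ M : ℕ, 1 ≤ M ∧ N ∣ M ∧ (∀ u ∈ U M, g⁻¹ * u * g ∈ U N) ∧
      ∀ (δ : Γ) (y : G), y⁻¹ * ι δ.1 * y ∈ U M → c δ (y * g) = c δ y := by
  classical
  obtain ⟨M1, hM1, hNM1, hM1c⟩ := S.den g⁻¹ N hN
  rw [inv_inv] at hM1c
  obtain ⟨X, hX⟩ := S.fin M1 hM1
  choose Mx hMx1 hMx2 using fun x => S.key1 hN h hV hg x
  have hpos : 0 < ∏ x ∈ X, Mx x := Finset.prod_pos fun x _ => hMx1 x
  refine ⟨M1 * ∏ x ∈ X, Mx x, Nat.mul_pos hM1 hpos, hNM1.mul_right _,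
    fun u hu => hM1c u (S.mono _ _ (Dvd.intro _ rfl) hu), fun δ y hy => ?_⟩
  have hy1 : y⁻¹ * ι δ.1 * y ∈ U M1 := S.mono _ _ (Dvd.intro _ rfl) hy
  obtain ⟨β, hβ, x, hx, v, hv, e⟩ := hX y
  have hvN : v ∈ U N := S.mono _ _ hNM1 hv
  have hv1 : v ∈ U 1 := S.mono _ _ (one_dvd _) hv
  set β' : Γ := ⟨β, hβ⟩ with hβ'
  have e1 : x⁻¹ * ι (β'⁻¹ * δ * β').1 * x = v * (y⁻¹ * ι δ.1 * y) * v⁻¹ := by
    rw [e]
    simp only [hβ', Subgroup.coe_mul, Subgroup.coe_inv, map_mul, map_inv]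
    group
  have h2 : x⁻¹ * ι (β'⁻¹ * δ * β').1 * x ∈ U (Mx x) := by
    rw [e1]
    refine S.nrm _ v hv1 _ (S.mono _ _ ?_ hy)
    exact (Finset.dvd_prod_of_mem Mx hx).mul_left _
  have h2' : x⁻¹ * ι (β'⁻¹ * δ * β').1 * x ∈ U M1 := by
    rw [e1]
    exact S.nrm _ v hv1 _ hy1
  have h3 := hMx2 x (β'⁻¹ * δ * β') h2
  -- the value at y
  have hc1 : c δ y = c (β'⁻¹ * δ * β') x := by
    rw [e, hV _ _ hvN]
    refine (h.conj (U N) hV β' δ x ?_).symm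
    have e2 : (ι β'.1 * x)⁻¹ * ι δ.1 * (ι β'.1 * x) = x⁻¹ * ι (β'⁻¹ * δ * β').1 * x := by
      simp only [Subgroup.coe_mul, Subgroup.coe_inv, map_mul, map_inv]
      group
    rw [e2]
    exact S.mono _ _ hNM1 h2'
  have hc2 : c δ (y * g) = c (β'⁻¹ * δ * β') (x * g) := by
    have e3 : y * g = ι β'.1 * (x * g) * (g⁻¹ * v * g) := by
      rw [e]
      simp only [hβ']
      group
    rw [e3, hV _ _ (hM1c v hv)]
    refine (h.conj (U N) hV β' δ (x * g) ?_).symm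
    have e2 : (ι β'.1 * (x * g))⁻¹ * ι δ.1 * (ι β'.1 * (x * g)) =
        g⁻¹ * (x⁻¹ * ι (β'⁻¹ * δ * β').1 * x) * g := by
      simp only [Subgroup.coe_mul, Subgroup.coe_inv, map_mul, map_inv]
      group
    rw [e2]
    exact hM1c _ h2'
  rw [hc1, hc2, h3]

/-- right translation by `g` changes a cocycle by a coboundary of a smooth function -/
theorem Sys.key3 (S : Sys ι Γ det U) {N : ℕ} (hN : 1 ≤ N) {c : Γ → G → W} (h : IsCo ι Γ c)
    (hV : ∀ γ, RI (U N) (c γ)) {g : G} (hg : det g = 1) :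
    ∃ M : ℕ, 1 ≤ M ∧ ∃ f : G → W, RI (U M) f ∧
      ∀ γ : Γ, (fun x => c γ (x * g) - c γ x) = lt ι γ.1 f - f := by
  obtain ⟨M, hM, hNM, h1, h2⟩ := S.key2 hN h hV hg
  refine ⟨M, hM, ?_⟩
  refine cb (d := fun γ x => c γ (x * g) - c γ x) ?_ (U M) ?_ ?_
  · intro γ δ
    ext x
    have e1 := h.app γ δ (x * g)
    have e2 := h.app γ δ x
    change c (γ * δ) (x * g) - c (γ * δ) x = (c γ (x * g) - c γ x) +
      (c δ ((ι γ.1)⁻¹ * x * g) - c δ ((ι γ.1)⁻¹ * x))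
    rw [e1, e2, mul_assoc]
    abel
  · intro γ u hu x
    change c γ (x * u * g) - c γ (x * u) = c γ (x * g) - c γ x
    have e3 : x * u * g = x * g * (g⁻¹ * u * g) := by group
    rw [e3, hV _ _ (h1 u hu), hV _ _ (S.mono _ _ hNM hu)]
  · intro δ x hx
    rw [h2 δ x hx, sub_self]

/-- the properties of the local groups and of the double cosets -/
structure HD (K : Subgroup G) (ρ : Representation k K W) (det : G →* D) (L : Subgroup G) (t : G) :
    Prop where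
  le : L ≤ K
  triv : ∀ κ : K, κ.1 ∈ L → ρ κ = 1
  dec : ∀ κ ∈ K, ∃ κ' : G, ∃ l ∈ L, κ = κ' * l ∧ (∀ h ∈ L, κ' * h = h * κ') ∧ κ' * t = t * κ'
  fin : (MulAction.orbit L (t : G ⧸ L)).Finite
  rep : ∀ l ∈ L, ∃ l' ∈ L, det l' = 1 ∧ ((l' * t : G) : G ⧸ L) = ((l * t : G) : G ⧸ L)
  per : ∀ φ : G → (G → W),
    (∀ g ∈ L, ∀ h ∈ L, det g = 1 → det h = 1 → φ (g * h) = φ g + φ h) →
    ∀ g ∈ L, det g = 1 → φ g = 0

/-- the conclusion -/
def Ccl (k : Type) [Field k] (det : G →* D) (L : I → Subgroup G) (t : I → G) (θ : I → k) : Prop :=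
  ∀ i, det (t i) = 1 → θ i = (dgr (L i) (t i) : k)

theorem wrap (_S : Sys ι Γ det U) {V : Type} [AddCommGroup V] [Module k V]
    (R : Representation k G V) (B : Submodule k V) (_hB : ∀ g, ∀ b ∈ B, R g b ∈ B)
    (q : V) (hq : q ∉ B) (L : I → Subgroup G) (t : I → G) (θ : I → k)
    (h1 : ∀ g, det g = 1 → R g q - q ∈ B)
    (_h2 : ∃ N : ℕ, 1 ≤ N ∧ ∀ u ∈ U N, R u q - q ∈ B)
    (_h3 : ∀ i, ∀ l ∈ L i, R l q - q ∈ B)
    (h4 : ∀ i, θ i • q - (dgr (L i) (t i) : k) • R (t i) q ∈ B) :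
    Ccl k det L t θ := by
  intro i hi
  by_contra hne
  have h2 := B.smul_mem (dgr (L i) (t i) : k) (h1 _ hi)
  have h3 := B.add_mem (h4 i) h2
  have e : θ i • q - (dgr (L i) (t i) : k) • R (t i) q +
      (dgr (L i) (t i) : k) • (R (t i) q - q) = (θ i - (dgr (L i) (t i) : k)) • q := by
    rw [smul_sub, sub_smul]
    abel
  rw [e] at h3
  exact hq ((B.smul_mem_iff (sub_ne_zero.2 hne)).1 h3)

theorem HD.hs {K : Subgroup G} {ρ : Representation k K W} {L : Subgroup G} {t : G}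
    (h : HD K ρ det L t) : ∃ (T : Finset (G ⧸ L)) (s : G ⧸ L → G), HS det L t T s := by
  classical
  have hex : ∀ c : G ⧸ L, ∃ l : G, c ∈ MulAction.orbit L (t : G ⧸ L) →
      l ∈ L ∧ det l = 1 ∧ ((l * t : G) : G ⧸ L) = c := by
    intro c
    by_cases hc : c ∈ MulAction.orbit L (t : G ⧸ L)
    · obtain ⟨l, hl⟩ := hc
      obtain ⟨l', hl', hd, e⟩ := h.rep l.1 l.2
      refine ⟨l', fun _ => ⟨hl', hd, ?_⟩⟩
      rw [e]
      exact hl
    · exact ⟨1, fun h' => absurd h' hc⟩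
  choose s hs using hex
  refine ⟨h.fin.toFinset, s, ?_, ?_, ?_, ?_, ?_, ?_⟩
  · rw [dgr, Nat.card_coe_set_eq, Set.ncard_eq_toFinset_card _ h.fin]
  · intro c hc; exact (hs c (h.fin.mem_toFinset.1 hc)).1
  · intro c hc; exact (hs c (h.fin.mem_toFinset.1 hc)).2.1
  · intro c hc; exact (hs c (h.fin.mem_toFinset.1 hc)).2.2
  · intro l c hc
    rw [h.fin.mem_toFinset] at hc ⊢
    obtain ⟨l', hl'⟩ := hc
    exact ⟨l * l', by rw [← hl']; exact mul_smul l l' _⟩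
  · intro A _ f hf x
    have h1 : ∀ c ∈ MulAction.orbit L (t : G ⧸ L), f (x * c.out) = f (x * (s c * t)) := by
      intro c hc
      have h2 := (hs c hc).2.2
      have h3 : (c.out)⁻¹ * (s c * t) ∈ L := by
        rw [← QuotientGroup.eq, h2, QuotientGroup.out_eq']
      have h4 : x * (s c * t) = x * c.out * ((c.out)⁻¹ * (s c * t)) := by group
      rw [h4, hf _ h3]
    rw [hecke, finsum_mem_congr rfl h1, finsum_mem_eq_finite_toFinset_sum _ h.fin]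

theorem case0 (S : Sys ι Γ det U) {K : Subgroup G}
    {ρ : Representation k K W} (hK : ∃ N : ℕ, 1 ≤ N ∧ ∀ u ∈ U N, ∃ h : u ∈ K, ρ ⟨u, h⟩ = 1)
    (L : I → Subgroup G) (t : I → G) (θ : I → k) (hD : ∀ i, HD K ρ det (L i) (t i))
    (f : G → W) (hf : f ∈ MW K ρ) (hf0 : f ≠ 0) (hΓ : ∀ γ ∈ Γ, lt ι γ f = f)
    (hθ : ∀ i, hecke (L i) (t i) f = θ i • f) : Ccl k det L t θ := by
  obtain ⟨N, hN, hKN⟩ := hK
  have hri : ∀ κ : K, ρ κ = 1 → ∀ x, f (x * κ.1) = f x := by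
    intro κ hκ x
    rw [hf κ x]
    have : ρ κ⁻¹ = 1 := by
      have h1 : ρ κ⁻¹ * ρ κ = 1 := by rw [← map_mul, inv_mul_cancel, map_one]
      rwa [hκ, mul_one] at h1
    rw [this]
    rfl
  have hli : LI ι Γ f := by
    intro γ hγ x
    have h1 := congrFun (hΓ γ⁻¹ (Γ.inv_mem hγ)) x
    simpa [lt] using h1
  have hsm : f ∈ Sm k W ι Γ det U S := ⟨N, hN, fun u hu x => by
    obtain ⟨h, e⟩ := hKN u hu
    exact hri ⟨u, h⟩ e x⟩
  have hL : ∀ i, RI (L i) f := fun i l hl x =>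
    hri ⟨l, (hD i).le hl⟩ ((hD i).triv ⟨l, (hD i).le hl⟩ hl) x
  refine wrap S (Rr k Unit G W) ⊥ (fun g b hb => ?_) (fun _ => f) ?_ L t θ ?_ ?_ ?_ ?_
  · rw [Submodule.mem_bot] at hb ⊢
    rw [hb, map_zero]
  · rw [Submodule.mem_bot]
    intro h
    exact hf0 (congrFun h ())
  · intro g hg
    rw [Submodule.mem_bot, sub_eq_zero]
    funext _ x
    exact S.fix hsm hli hg x
  · refine ⟨N, hN, fun u hu => ?_⟩
    rw [Submodule.mem_bot, sub_eq_zero]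
    funext _ x
    obtain ⟨h, e⟩ := hKN u hu
    exact hri ⟨u, h⟩ e x
  · intro i l hl
    rw [Submodule.mem_bot, sub_eq_zero]
    funext _ x
    exact hL i l hl x
  · intro i
    rw [Submodule.mem_bot, sub_eq_zero]
    funext _ x
    obtain ⟨T, s, hs⟩ := (hD i).hs
    have h1 := congrFun (hθ i) x
    rw [hs.heck f (hL i) x] at h1
    change θ i • f x = (dgr (L i) (t i) : k) • f (x * t i)
    have h2 : θ i • f x = (θ i • f) x := rfl
    rw [h2, ← h1, ← hs.card]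
    have h3 : ∀ c ∈ T, f (x * (s c * t i)) = f (x * t i) := by
      intro c hc
      refine S.fix_comm hsm hli ?_ x
      rw [map_mul, hs.det1 c hc, one_mul]
    rw [Finset.sum_congr rfl h3, Finset.sum_const, Nat.cast_smul_eq_nsmul]

/-- coboundaries of smooth functions -/
def Bsm (k W : Type) [Field k] [AddCommGroup W] [Module k W] (ι : H →* G) (Γ : Subgroup H)
    (det : G →* D) (U : ℕ → Subgroup G) (S : Sys ι Γ det U) : Submodule k (Γ → G → W) :=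
  B1 ι Γ (Sm k W ι Γ det U S)

theorem mw_le_sm (S : Sys ι Γ det U) {K : Subgroup G} {ρ : Representation k K W}
    (hK : ∃ N : ℕ, 1 ≤ N ∧ ∀ u ∈ U N, ∃ h : u ∈ K, ρ ⟨u, h⟩ = 1) {f : G → W}
    (hf : f ∈ MW K ρ) : f ∈ Sm k W ι Γ det U S := by
  obtain ⟨N, hN, h⟩ := hK
  exact ⟨N, hN, fun u hu x => by
    obtain ⟨h, e⟩ := h u hu
    exact mw_inv hf ⟨u, h⟩ e x⟩

theorem caseB2 (S : Sys ι Γ det U) {K : Subgroup G}
    {ρ : Representation k K W} (hK : ∃ N : ℕ, 1 ≤ N ∧ ∀ u ∈ U N, ∃ h : u ∈ K, ρ ⟨u, h⟩ = 1)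
    (L : I → Subgroup G) (t : I → G) (θ : I → k) (hD : ∀ i, HD K ρ det (L i) (t i))
    (c : Γ → G → W) (hc : c ∈ Z1 ι Γ (MW K ρ)) (hc0 : c ∉ Bsm k W ι Γ det U S)
    (hθ : ∀ i, (fun γ => hecke (L i) (t i) (c γ)) - θ i • c ∈ B1 ι Γ (MW K ρ)) :
    Ccl k det L t θ := by
  have hco : IsCo ι Γ c := hc.2
  have hV : ∀ γ, ∀ κ : K, ρ κ = 1 → ∀ x, c γ (x * κ.1) = c γ x := fun γ κ h x =>
    mw_inv (hc.1 γ) κ h x
  obtain ⟨N, hN, hKN⟩ := id hK
  have hVN : ∀ γ, RI (U N) (c γ) := fun γ u hu x => by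
    obtain ⟨h, e⟩ := hKN u hu
    exact hV γ ⟨u, h⟩ e x
  have hVL : ∀ i γ, RI (L i) (c γ) := fun i γ l hl x =>
    hV γ ⟨l, (hD i).le hl⟩ ((hD i).triv ⟨l, (hD i).le hl⟩ hl) x
  have hBs : ∀ g, ∀ b ∈ Bsm k W ι Γ det U S, Rr k Γ G W g b ∈ Bsm k W ι Γ det U S := by
    rintro g b ⟨f, hf, hb⟩
    refine ⟨_, S.sm_trans hf g, fun γ => ?_⟩
    funext x
    rw [Rr_apply, hb]
    change f ((ι γ.1)⁻¹ * (x * g)) - f (x * g) = f ((ι γ.1)⁻¹ * x * g) - f (x * g)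
    rw [mul_assoc]
  have hfix : ∀ g, det g = 1 → Rr k Γ G W g c - c ∈ Bsm k W ι Γ det U S := by
    intro g hg
    obtain ⟨M, hM, f, hf, e⟩ := S.key3 hN hco hVN hg
    refine ⟨f, ⟨M, hM, hf⟩, fun γ => ?_⟩
    rw [← e γ]
    rfl
  refine wrap S (Rr k Γ G W) (Bsm k W ι Γ det U S) hBs c hc0 L t θ hfix ?_ ?_ ?_
  · refine ⟨N, hN, fun u hu => ?_⟩
    have : Rr k Γ G W u c - c = 0 := by
      rw [sub_eq_zero]
      funext γ x
      exact hVN γ u hu x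
    rw [this]
    exact Submodule.zero_mem _
  · intro i l hl
    have : Rr k Γ G W l c - c = 0 := by
      rw [sub_eq_zero]
      funext γ x
      exact hVL i γ l hl x
    rw [this]
    exact Submodule.zero_mem _
  · intro i
    obtain ⟨T, s, hs⟩ := (hD i).hs
    -- the Hecke operator
    have h1 : (fun γ => hecke (L i) (t i) (c γ)) = ∑ a ∈ T, Rr k Γ G W (s a * t i) c := by
      funext γ x
      rw [hs.heck _ (hVL i γ) x, Finset.sum_apply, Finset.sum_apply]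
      rfl
    have h2 : ∀ a ∈ T, Rr k Γ G W (s a * t i) c - Rr k Γ G W (t i) c ∈ Bsm k W ι Γ det U S := by
      intro a ha
      have h3 : s a * t i = t i * ((t i)⁻¹ * s a * t i) := by group
      have h4 : det ((t i)⁻¹ * s a * t i) = 1 := by
        rw [map_mul, map_mul, map_inv, hs.det1 a ha, mul_one, inv_mul_cancel]
      have h5 : Rr k Γ G W (s a * t i) c - Rr k Γ G W (t i) c =
          Rr k Γ G W (t i) (Rr k Γ G W ((t i)⁻¹ * s a * t i) c - c) := by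
        rw [map_sub]
        congr 1
        rw [h3, map_mul]
        rfl
      rw [h5]
      exact hBs _ _ (hfix _ h4)
    have h6 : θ i • c - (dgr (L i) (t i) : k) • Rr k Γ G W (t i) c =
        ∑ a ∈ T, (Rr k Γ G W (s a * t i) c - Rr k Γ G W (t i) c) -
          ((fun γ => hecke (L i) (t i) (c γ)) - θ i • c) := by
      rw [Finset.sum_sub_distrib, ← h1, Finset.sum_const, hs.card, Nat.cast_smul_eq_nsmul]
      abel
    rw [h6]
    refine Submodule.sub_mem _ (Submodule.sum_mem _ h2) ?_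
    obtain ⟨f, hf, e⟩ := hθ i
    exact ⟨f, mw_le_sm S hK hf, e⟩

theorem caseA (S : Sys ι Γ det U) {K : Subgroup G}
    {ρ : Representation k K W} (hK : ∃ N : ℕ, 1 ≤ N ∧ ∀ u ∈ U N, ∃ h : u ∈ K, ρ ⟨u, h⟩ = 1)
    (L : I → Subgroup G) (t : I → G) (θ : I → k) (hD : ∀ i, HD K ρ det (L i) (t i))
    (c : Γ → G → W) (hc : c ∈ Z1 ι Γ (MW K ρ)) (hc0 : c ∉ B1 ι Γ (MW K ρ))
    (f : G → W) (hf : RI (KR K ρ) f) (hcf : ∀ γ : Γ, c γ = lt ι γ.1 f - f)
    (hθ : ∀ i, (fun γ => hecke (L i) (t i) (c γ)) - θ i • c ∈ B1 ι Γ (MW K ρ)) :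
    Ccl k det L t θ := by
  obtain ⟨N, hN, hKN⟩ := id hK
  have hUN : U N ≤ KR K ρ := fun u hu => mem_KR.2 (hKN u hu)
  have hLK : ∀ i, L i ≤ KR K ρ := fun i l hl =>
    mem_KR.2 ⟨(hD i).le hl, (hD i).triv ⟨l, (hD i).le hl⟩ hl⟩
  have hsm : ∀ ℓ : G → W, RI (KR K ρ) ℓ → ℓ ∈ Sm k W ι Γ det U S := fun ℓ hℓ =>
    ⟨N, hN, fun u hu x => hℓ u (hUN hu) x⟩
  -- the defect of `f`
  have he1 : ∀ κ : K, RI (KR K ρ) (eA K ρ f κ) := by
    intro κ u hu x
    rw [eA_app, eA_app, hf u hu]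
    have e1 : x * u * κ.1 = x * κ.1 * (κ.1⁻¹ * u * κ.1) := by group
    rw [e1, hf _ (KR_conj hu κ)]
  have he2 : ∀ κ : K, LI ι Γ (eA K ρ f κ) := by
    intro κ γ hγ x
    have h1 := (hc.1 ⟨γ⁻¹, Γ.inv_mem hγ⟩) κ x
    rw [hcf] at h1
    have h2 := congrArg (ρ κ) h1
    rw [rho_inv'] at h2
    simp only [Pi.sub_apply, lt, map_inv, inv_inv, map_sub] at h2
    rw [eA_app, eA_app, mul_assoc]
    -- ρ f(γxκ) - ρ f(xκ) = f(γx) - f x
    have h3 : ρ κ (f (ι γ * (x * κ.1))) - f (ι γ * x) = ρ κ (f (x * κ.1)) - f x := by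
      rw [sub_eq_sub_iff_add_eq_add] at h2 ⊢
      rw [h2]
      abel
    exact h3
  let B : Submodule k (K → G → W) := (LA ι Γ K ρ).map (eA K ρ)
  have hBs : ∀ g, ∀ b ∈ B, Rr k K G W g b ∈ B := by
    rintro g b ⟨ℓ, ⟨h1, h2⟩, rfl⟩
    have hm : ∀ (a b : G), det a = det b → ∀ x, ℓ (x * a) = ℓ (x * b) := fun a b h x =>
      S.fix_comm (hsm ℓ h1) h2 h x
    refine ⟨fun x => ℓ (x * g), ⟨?_, ?_⟩, ?_⟩
    · intro u hu x
      change ℓ (x * u * g) = ℓ (x * g)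
      rw [mul_assoc, hm (u * g) (g * u) (by rw [map_mul, map_mul, mul_comm]), ← mul_assoc, h1 u hu]
    · intro γ hγ x
      change ℓ (ι γ * x * g) = ℓ (x * g)
      rw [mul_assoc, h2 γ hγ]
    · funext κ x
      rw [eA_app, Rr_apply, eA_app]
      rw [mul_assoc, hm (κ.1 * g) (g * κ.1) (by rw [map_mul, map_mul, mul_comm]), ← mul_assoc]
  refine wrap S (Rr k K G W) B hBs (eA K ρ f) ?_ L t θ ?_ ?_ ?_ ?_
  · rintro ⟨ℓ, ⟨h1, h2⟩, h3⟩
    refine hc0 ⟨f - ℓ, ?_, fun γ => ?_⟩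
    · rw [← eA_zero, map_sub, h3, sub_self]
    · rw [hcf]
      funext x
      simp only [Pi.sub_apply, lt]
      have h4 := h2 γ⁻¹.1 γ⁻¹.2 x
      have h5 : ι (γ⁻¹ : Γ).1 = (ι γ.1)⁻¹ := by simp
      rw [h5] at h4
      rw [h4]
      abel
  · intro g hg
    have : Rr k K G W g (eA K ρ f) - eA K ρ f = 0 := by
      rw [sub_eq_zero]
      funext κ x
      exact S.fix (hsm _ (he1 κ)) (he2 κ) hg x
    rw [this]
    exact B.zero_mem
  · refine ⟨N, hN, fun u hu => ?_⟩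
    have : Rr k K G W u (eA K ρ f) - eA K ρ f = 0 := by
      rw [sub_eq_zero]
      funext κ x
      exact he1 κ u (hUN hu) x
    rw [this]
    exact B.zero_mem
  · intro i l hl
    have : Rr k K G W l (eA K ρ f) - eA K ρ f = 0 := by
      rw [sub_eq_zero]
      funext κ x
      exact he1 κ l (hLK i hl) x
    rw [this]
    exact B.zero_mem
  · intro i
    obtain ⟨T, s, hs⟩ := (hD i).hs
    have hfL : RI (L i) f := fun l hl x => hf l (hLK i hl) x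
    set Tf : G → W := hecke (L i) (t i) f with hTf
    -- the translate of the sum
    have hsum : ∀ (κ : G) (κ' : G) (l : L i), κ = κ' * l.1 → (∀ h ∈ L i, κ' * h = h * κ') →
        κ' * t i = t i * κ' → ∀ x, Tf (x * κ) = ∑ a ∈ T, f (x * (s a * t i) * κ') := by
      intro κ κ' l e1 e2 e3 x
      rw [hTf, hs.heck f hfL, ← hs.sum_perm l (fun a => f (x * (s a * t i) * κ'))]
      refine Finset.sum_congr rfl fun a ha => ?_
      obtain ⟨r, hr, -, e4⟩ := hs.perm l ha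
      have e5 : x * κ * (s a * t i) = x * (s (l • a) * t i) * κ' * r := by
        rw [e1]
        calc x * (κ' * l.1) * (s a * t i) = x * κ' * (l.1 * (s a * t i)) := by group
          _ = x * κ' * (s (l • a) * t i * r) := by rw [e4]
          _ = x * (κ' * s (l • a)) * t i * r := by group
          _ = x * (s (l • a) * κ') * t i * r := by rw [e2 _ (hs.memL _ (hs.smul l a ha))]
          _ = x * s (l • a) * (κ' * t i) * r := by group
          _ = x * s (l • a) * (t i * κ') * r := by rw [e3]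
          _ = _ := by group
      rw [e5, hfL r hr]
    -- the defect of the Hecke translate
    have hdef : eA K ρ Tf = (dgr (L i) (t i) : k) • Rr k K G W (t i) (eA K ρ f) := by
      funext κ x
      obtain ⟨κ', l, hl, e1, e2, e3⟩ := (hD i).dec κ.1 κ.2
      have hκ' : κ' ∈ K := by
        have : κ' = κ.1 * l⁻¹ := by rw [e1]; group
        rw [this]
        exact K.mul_mem κ.2 (K.inv_mem ((hD i).le hl))
      have hρ : ρ κ = ρ ⟨κ', hκ'⟩ := by
        have : κ = ⟨κ', hκ'⟩ * ⟨l, (hD i).le hl⟩ := Subtype.ext e1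
        rw [this, map_mul, (hD i).triv ⟨l, (hD i).le hl⟩ hl, mul_one]
      have hx : Tf x = ∑ a ∈ T, f (x * (s a * t i)) := by rw [hTf, hs.heck f hfL]
      have h1 : eA K ρ Tf κ x = ∑ a ∈ T, eA K ρ f κ (x * (s a * t i)) := by
        rw [eA_app, hsum κ.1 κ' ⟨l, hl⟩ e1 e2 e3 x, hx, map_sum, ← Finset.sum_sub_distrib]
        refine Finset.sum_congr rfl fun a _ => ?_
        rw [eA_app]
        have e6 : x * (s a * t i) * κ.1 = x * (s a * t i) * κ' * l := by rw [e1]; group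
        rw [e6, hfL l hl]
      have h2 : ∀ a ∈ T, eA K ρ f κ (x * (s a * t i)) = eA K ρ f κ (x * t i) := by
        intro a ha
        refine S.fix_comm (hsm _ (he1 κ)) (he2 κ) ?_ x
        rw [map_mul, hs.det1 a ha, one_mul]
      rw [h1, Finset.sum_congr rfl h2, Finset.sum_const, hs.card, ← Nat.cast_smul_eq_nsmul k]
      rfl
    -- the eigenvalue equation
    obtain ⟨g, hg, e⟩ := hθ i
    have hTR : RI (KR K ρ) Tf := by
      intro u hu x
      obtain ⟨h, e0⟩ := mem_KR.1 hu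
      obtain ⟨κ', l, hl, e1, e2, e3⟩ := (hD i).dec u h
      have hκ' : κ' ∈ KR K ρ := by
        have : κ' = u * l⁻¹ := by rw [e1]; group
        rw [this]
        exact (KR K ρ).mul_mem hu ((KR K ρ).inv_mem (hLK i hl))
      rw [hsum u κ' ⟨l, hl⟩ e1 e2 e3 x, hTf, hs.heck f hfL]
      exact Finset.sum_congr rfl fun a _ => hf κ' hκ' _
    have hℓ : Tf - θ i • f - g ∈ LA ι Γ K ρ := by
      refine ⟨?_, ?_⟩
      · intro u hu x
        simp only [Pi.sub_apply, Pi.smul_apply]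
        rw [hTR u hu, hf u hu, mw_ri hg u hu]
      · intro γ hγ x
        have h1 := congrFun (e ⟨γ⁻¹, Γ.inv_mem hγ⟩) x
        simp only [Pi.sub_apply, Pi.smul_apply] at h1
        rw [hcf, hecke_smul_sub hs hfL] at h1
        simp only [Pi.sub_apply, lt, map_inv, inv_inv] at h1
        simp only [Pi.sub_apply, Pi.smul_apply]
        rw [← hTf] at h1
        rw [smul_sub] at h1
        have h2 : Tf (ι γ * x) - θ i • f (ι γ * x) - g (ι γ * x) -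
            (Tf x - θ i • f x - g x) =
            (Tf (ι γ * x) - Tf x - (θ i • f (ι γ * x) - θ i • f x)) -
              (g (ι γ * x) - g x) := by abel
        rw [← sub_eq_zero, h2, h1, sub_self]
    refine (Submodule.neg_mem_iff _).1 ⟨Tf - θ i • f - g, hℓ, ?_⟩
    rw [map_sub, map_sub, map_smul, hdef, eA_zero.2 hg, sub_zero, neg_sub]

/-- the left `Γ`-invariant smooth functions -/
def LB (k W : Type) [Field k] [AddCommGroup W] [Module k W] (ι : H →* G) (Γ : Subgroup H)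
    (det : G →* D) (U : ℕ → Subgroup G) (S : Sys ι Γ det U) : Submodule k (G → W) where
  carrier := {f | f ∈ Sm k W ι Γ det U S ∧ LI ι Γ f}
  zero_mem' := ⟨Submodule.zero_mem _, fun _ _ _ => rfl⟩
  add_mem' := by
    rintro f g ⟨h1, h2⟩ ⟨h3, h4⟩
    refine ⟨Submodule.add_mem _ h1 h3, fun γ hγ x => ?_⟩
    rw [Pi.add_apply, Pi.add_apply, h2 γ hγ, h4 γ hγ]
  smul_mem' := by
    rintro a f ⟨h1, h2⟩
    refine ⟨Submodule.smul_mem _ a h1, fun γ hγ x => ?_⟩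
    rw [Pi.smul_apply, Pi.smul_apply, h2 γ hγ]

/-- uniform conjugation -/
theorem Sys.unif (S : Sys ι Γ det U) {K : Subgroup G}
    (hF : ∃ N : ℕ, 1 ≤ N ∧ ((U N).subgroupOf K).FiniteIndex) (N : ℕ) (hN : 1 ≤ N) :
    ∃ M : ℕ, 1 ≤ M ∧ ∀ κ ∈ K, ∀ u ∈ U M, κ⁻¹ * u * κ ∈ U N := by
  classical
  obtain ⟨N0, hN0, hF⟩ := hF
  choose Mg h1 _ h2 using fun g : G => S.den g⁻¹ N hN
  have : Finite (K ⧸ (U N0).subgroupOf K) := inferInstance
  have : Fintype (K ⧸ (U N0).subgroupOf K) := Fintype.ofFinite _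
  refine ⟨∏ q : K ⧸ (U N0).subgroupOf K, Mg q.out.1,
    Nat.succ_le_of_lt (Finset.prod_pos fun q _ => h1 _), fun κ hκ u hu => ?_⟩
  set q : K ⧸ (U N0).subgroupOf K := ((⟨κ, hκ⟩ : K) : K ⧸ (U N0).subgroupOf K) with hq
  have h3 : q.out⁻¹ * ⟨κ, hκ⟩ ∈ (U N0).subgroupOf K := by
    rw [← QuotientGroup.eq, QuotientGroup.out_eq']
  have h4 : q.out.1⁻¹ * κ ∈ U N0 := h3
  have h5 := h2 q.out.1 u (S.mono _ _ (Finset.dvd_prod_of_mem (fun q : K ⧸ (U N0).subgroupOf K =>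
    Mg q.out.1) (Finset.mem_univ q)) hu)
  rw [inv_inv] at h5
  have h6 : (q.out.1⁻¹ * κ)⁻¹ ∈ U 1 := (U 1).inv_mem (S.mono _ _ (one_dvd _) h4)
  have h7 := S.nrm N _ h6 _ h5
  have e : (q.out.1⁻¹ * κ)⁻¹ * (q.out.1⁻¹ * u * q.out.1) * (q.out.1⁻¹ * κ)⁻¹⁻¹ =
      κ⁻¹ * u * κ := by group
  rwa [e] at h7

theorem caseB1 (S : Sys ι Γ det U) {K : Subgroup G}
    {ρ : Representation k K W} (hK : ∃ N : ℕ, 1 ≤ N ∧ ∀ u ∈ U N, ∃ h : u ∈ K, ρ ⟨u, h⟩ = 1)
    (hKF : ∃ N : ℕ, 1 ≤ N ∧ ((U N).subgroupOf K).FiniteIndex)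
    (L : I → Subgroup G) (t : I → G) (θ : I → k) (hD : ∀ i, HD K ρ det (L i) (t i))
    (c : Γ → G → W) (hc : c ∈ Z1 ι Γ (MW K ρ))
    (hc0 : ∀ f : G → W, RI (KR K ρ) f → ¬ ∀ γ : Γ, c γ = lt ι γ.1 f - f)
    (hcB : c ∈ Bsm k W ι Γ det U S)
    (hθ : ∀ i, (fun γ => hecke (L i) (t i) (c γ)) - θ i • c ∈ B1 ι Γ (MW K ρ)) :
    Ccl k det L t θ := by
  obtain ⟨N, hN, hKN⟩ := id hK
  obtain ⟨f, hfS, hcf⟩ := hcB
  obtain ⟨N1, hN1, hf1⟩ := id hfS
  have hKK : KR K ρ ≤ K := fun x hx => (mem_KR.1 hx).1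
  have hUN : U N ≤ KR K ρ := fun u hu => mem_KR.2 (hKN u hu)
  have hLK : ∀ i, L i ≤ KR K ρ := fun i l hl =>
    mem_KR.2 ⟨(hD i).le hl, (hD i).triv ⟨l, (hD i).le hl⟩ hl⟩
  set V : Subgroup G := KR K ρ with hV
  have hcR : ∀ γ, RI V (c γ) := fun γ => mw_ri (hc.1 γ)
  -- the differences of `f`
  have hc2 : ∀ (γ : Γ) (x : G), c γ x = f ((ι γ.1)⁻¹ * x) - f x := fun γ x => by
    rw [hcf γ]; rfl
  have he2 : ∀ κ : V, LI ι Γ (eB k V f κ) := by
    intro κ γ hγ x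
    have h1 := hcR ⟨γ⁻¹, Γ.inv_mem hγ⟩ κ.1 κ.2 x
    rw [hc2, hc2] at h1
    simp only [map_inv, inv_inv] at h1
    rw [eB_app, eB_app, mul_assoc]
    rw [sub_eq_sub_iff_add_eq_add] at h1 ⊢
    rw [h1]
    abel
  have he1 : ∀ κ : V, eB k V f κ ∈ Sm k W ι Γ det U S := fun κ =>
    Submodule.sub_mem _ (S.sm_trans hfS κ.1) hfS
  -- the functions `e κ` only depend on the determinant of the argument
  have hed : ∀ (κ : V) (a b x : G), det a = det b → eB k V f κ (x * a) = eB k V f κ (x * b) :=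
    fun κ a b x h => S.fix_comm (he1 κ) (he2 κ) h x
  have hfa : ∀ (κ : V) (x : G), f (x * κ.1) = eB k V f κ x + f x := fun κ x => by
    rw [eB_app]; abel
  -- vanishing on the elements of determinant one of the local groups
  have hper : ∀ i, ∀ g ∈ L i, det g = 1 → ∀ x, f (x * g) = f x := by
    intro i g hg hd x
    classical
    let φ : G → (G → W) := fun g => fun x => f (x * g) - f x
    have h1 : ∀ g ∈ L i, ∀ h ∈ L i, det g = 1 → det h = 1 → φ (g * h) = φ g + φ h := by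
      intro g hg h hh hg1 _
      funext x
      change f (x * (g * h)) - f x = (f (x * g) - f x) + (f (x * h) - f x)
      have h2 := hed ⟨h, hLK i hh⟩ g 1 x (by rw [hg1, map_one])
      rw [eB_app, eB_app, mul_one] at h2
      change f (x * g * h) - f (x * g) = f (x * h) - f x at h2
      rw [← h2, ← mul_assoc]
      abel
    have h3 := (hD i).per φ h1 g hg hd
    have h4 := congrFun h3 x
    exact sub_eq_zero.1 h4
  let B : Submodule k (V → G → W) := (LB k W ι Γ det U S).map (eB k V)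
  have hcomm : ∀ {ℓ : G → W}, ℓ ∈ Sm k W ι Γ det U S → LI ι Γ ℓ → ∀ (a b x : G),
      ℓ (x * a * b) = ℓ (x * b * a) := fun {ℓ} h1 h2 a b x => by
    rw [mul_assoc, mul_assoc]
    exact S.fix_comm h1 h2 (by rw [map_mul, map_mul, mul_comm]) x
  have hBs : ∀ g, ∀ b ∈ B, Rr k V G W g b ∈ B := by
    rintro g b ⟨ℓ, ⟨h1, h2⟩, rfl⟩
    refine ⟨fun x => ℓ (x * g), ⟨S.sm_trans h1 g, ?_⟩, ?_⟩
    · intro γ hγ x
      change ℓ (ι γ * x * g) = ℓ (x * g)
      rw [mul_assoc, h2 γ hγ]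
    · funext κ x
      rw [Rr_apply, eB_app, eB_app, hcomm h1 h2]
  refine wrap S (Rr k V G W) B hBs (eB k V f) ?_ L t θ ?_ ?_ ?_ ?_
  · rintro ⟨ℓ, ⟨h1, h2⟩, h3⟩
    refine hc0 (f - ℓ) ?_ fun γ => ?_
    · intro u hu x
      have h4 := congrFun (congrFun h3 ⟨u, hu⟩) x
      rw [eB_app, eB_app] at h4
      change ℓ (x * u) - ℓ x = f (x * u) - f x at h4
      rw [Pi.sub_apply, Pi.sub_apply, sub_eq_sub_iff_add_eq_add]
      rw [sub_eq_sub_iff_add_eq_add] at h4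
      rw [add_comm (f x), h4]
    · rw [hcf]
      funext x
      simp only [Pi.sub_apply, lt]
      have h4 := h2 γ⁻¹.1 γ⁻¹.2 x
      have h5 : ι (γ⁻¹ : Γ).1 = (ι γ.1)⁻¹ := by simp
      rw [h5] at h4
      rw [h4]
      abel
  · intro g hg
    have : Rr k V G W g (eB k V f) - eB k V f = 0 := by
      rw [sub_eq_zero]
      funext κ x
      exact S.fix (he1 κ) (he2 κ) hg x
    rw [this]
    exact B.zero_mem
  · obtain ⟨M, hM, hMc⟩ := S.unif hKF N1 hN1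
    refine ⟨M * N1, Nat.mul_pos hM hN1, fun u hu => ?_⟩
    have : Rr k V G W u (eB k V f) - eB k V f = 0 := by
      rw [sub_eq_zero]
      funext κ x
      rw [Rr_apply, eB_app, eB_app]
      have e1 : x * u * κ.1 = x * κ.1 * (κ.1⁻¹ * u * κ.1) := by group
      rw [e1, hf1 _ (hMc κ.1 (hKK κ.2) u (S.mono _ _ (Dvd.intro _ rfl) hu)),
        hf1 u (S.mono _ _ (Dvd.intro_left _ rfl) hu)]
    rw [this]
    exact B.zero_mem
  · intro i l hl
    refine ⟨eB k V f ⟨l, hLK i hl⟩, ⟨he1 _, he2 _⟩, ?_⟩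
    funext κ x
    obtain ⟨κ', h, hh, e1, e2, -⟩ := (hD i).dec κ.1 (hKK κ.2)
    rw [eB_app, eB_app, eB_app]
    change f (x * κ.1 * l) - f (x * κ.1) - (f (x * l) - f x) =
      Rr k V G W l (eB k V f) κ x - eB k V f κ x
    rw [Rr_apply, eB_app, eB_app]
    -- f (x l κ) = f (x κ l)
    have h5 : x * l * κ.1 = x * κ.1 * l * (l⁻¹ * κ.1⁻¹ * l * κ.1) := by group
    have h6 : l⁻¹ * κ.1⁻¹ * l * κ.1 ∈ L i := by
      have : l⁻¹ * κ.1⁻¹ * l * κ.1 = l⁻¹ * (h⁻¹ * l * h) := by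
        rw [e1]
        calc l⁻¹ * (κ' * h)⁻¹ * l * (κ' * h) = l⁻¹ * h⁻¹ * κ'⁻¹ * (l * κ') * h := by group
          _ = l⁻¹ * h⁻¹ * κ'⁻¹ * (κ' * l) * h := by rw [e2 l hl]
          _ = _ := by group
      rw [this]
      exact (L i).mul_mem ((L i).inv_mem hl)
        ((L i).mul_mem ((L i).mul_mem ((L i).inv_mem hh) hl) hh)
    have h7 : det (l⁻¹ * κ.1⁻¹ * l * κ.1) = 1 := by
      rw [map_mul, map_mul, map_mul, map_inv, map_inv, mul_assoc, mul_comm (det l),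
        ← mul_assoc, mul_assoc (det l)⁻¹, inv_mul_cancel, mul_one, inv_mul_cancel]
    have h8 : f (x * l * κ.1) = f (x * κ.1 * l) := by
      rw [h5]
      exact hper i _ h6 h7 _
    rw [h8]
    abel
  · intro i
    obtain ⟨T, s, hs⟩ := (hD i).hs
    set Tf : G → W := fun x => ∑ a ∈ T, f (x * (s a * t i)) with hTf
    have hTc : ∀ γ x, hecke (L i) (t i) (c γ) x = Tf ((ι γ.1)⁻¹ * x) - Tf x := by
      intro γ x
      rw [hs.heck _ (fun l hl x => hcR γ l (hLK i hl) x), hTf]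
      simp only
      rw [← Finset.sum_sub_distrib]
      refine Finset.sum_congr rfl fun a _ => ?_
      rw [hc2, mul_assoc]
    have hTS : Tf ∈ Sm k W ι Γ det U S := by
      have : Tf = ∑ a ∈ T, fun x => f (x * (s a * t i)) := by
        funext x
        rw [Finset.sum_apply]
      rw [this]
      exact Submodule.sum_mem _ fun a _ => S.sm_trans hfS _
    -- the defect of the Hecke translate
    have hdef : eB k V Tf = (dgr (L i) (t i) : k) • Rr k V G W (t i) (eB k V f) := by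
      funext κ x
      obtain ⟨κ', l, hl, e1, e2, e3⟩ := (hD i).dec κ.1 (hKK κ.2)
      have hκ' : κ' ∈ V := by
        have : κ' = κ.1 * l⁻¹ := by rw [e1]; group
        rw [this]
        exact V.mul_mem κ.2 (V.inv_mem (hLK i hl))
      have hlV : l ∈ V := hLK i hl
      have h1 : ∀ a ∈ T, f (x * κ.1 * (s a * t i)) =
          eB k V f ⟨l, hlV⟩ (x * t i * κ') +
            f (x * (s ((⟨l, hl⟩ : L i) • a) * t i) * κ') := by
        intro a ha
        obtain ⟨r, hr, hrd, e4⟩ := hs.perm ⟨l, hl⟩ ha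
        set b := (⟨l, hl⟩ : L i) • a with hb
        have hbT : b ∈ T := hs.smul _ a ha
        have e5 : x * κ.1 * (s a * t i) = x * (s b * t i) * κ' * r := by
          rw [e1]
          calc x * (κ' * l) * (s a * t i) = x * κ' * (l * (s a * t i)) := by group
            _ = x * κ' * (s b * t i * r) := by rw [← e4]
            _ = x * (κ' * s b) * t i * r := by group
            _ = x * (s b * κ') * t i * r := by rw [e2 _ (hs.memL _ hbT)]
            _ = x * s b * (κ' * t i) * r := by group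
            _ = x * s b * (t i * κ') * r := by rw [e3]
            _ = _ := by group
        have e6 : x * (s b * t i) * κ' * r =
            x * (s b * t i) * κ' * l * (l⁻¹ * r) := by group
        have h2 : f (x * (s b * t i) * κ' * l * (l⁻¹ * r)) = f (x * (s b * t i) * κ' * l) := by
          refine hper i _ ((L i).mul_mem ((L i).inv_mem hl) hr) ?_ _
          rw [map_mul, map_inv, hrd, inv_mul_cancel]
        rw [e5, e6, h2, hfa ⟨l, hlV⟩]
        congr 1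
        have e7 : x * (s b * t i) * κ' = x * (s b * t i * κ') := by group
        have e8 : x * t i * κ' = x * (t i * κ') := by group
        rw [e7, e8]
        refine hed _ _ _ _ ?_
        rw [map_mul, map_mul, map_mul, hs.det1 b hbT, one_mul]
      have h2 : ∀ a ∈ T, f (x * (s a * t i) * κ') =
          eB k V f ⟨κ', hκ'⟩ (x * t i) + f (x * (s a * t i)) := by
        intro a ha
        rw [hfa ⟨κ', hκ'⟩]
        congr 1
        refine hed _ _ _ _ ?_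
        rw [map_mul, hs.det1 a ha, one_mul]
      have h3 : eB k V f κ (x * t i) =
          eB k V f ⟨l, hlV⟩ (x * t i * κ') + eB k V f ⟨κ', hκ'⟩ (x * t i) := by
        rw [eB_app, eB_app, eB_app]
        change f (x * t i * κ.1) - f (x * t i) = f (x * t i * κ' * l) - f (x * t i * κ') +
          (f (x * t i * κ') - f (x * t i))
        rw [e1, ← mul_assoc (x * t i)]
        abel
      change Tf (x * κ.1) - Tf x = (dgr (L i) (t i) : k) • eB k V f κ (x * t i)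
      have h4 : Tf (x * κ.1) = (dgr (L i) (t i) : k) • eB k V f κ (x * t i) + Tf x := by
        calc Tf (x * κ.1) = ∑ a ∈ T, f (x * κ.1 * (s a * t i)) := rfl
          _ = ∑ a ∈ T, (eB k V f ⟨l, hlV⟩ (x * t i * κ') +
                f (x * (s ((⟨l, hl⟩ : L i) • a) * t i) * κ')) := Finset.sum_congr rfl h1
          _ = ∑ a ∈ T, eB k V f ⟨l, hlV⟩ (x * t i * κ') +
                ∑ a ∈ T, f (x * (s ((⟨l, hl⟩ : L i) • a) * t i) * κ') :=
              Finset.sum_add_distrib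
          _ = ∑ a ∈ T, eB k V f ⟨l, hlV⟩ (x * t i * κ') +
                ∑ a ∈ T, f (x * (s a * t i) * κ') := by
              rw [hs.sum_perm ⟨l, hl⟩ (fun a => f (x * (s a * t i) * κ'))]
          _ = ∑ a ∈ T, eB k V f ⟨l, hlV⟩ (x * t i * κ') +
                (∑ a ∈ T, eB k V f ⟨κ', hκ'⟩ (x * t i) + Tf x) := by
              rw [Finset.sum_congr rfl h2, Finset.sum_add_distrib]
          _ = _ := by
              rw [Finset.sum_const, Finset.sum_const, hs.card, h3, smul_add,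
                Nat.cast_smul_eq_nsmul, Nat.cast_smul_eq_nsmul, add_assoc]
      rw [h4, add_sub_cancel_right]
    -- the eigenvalue equation
    obtain ⟨g, hg, e⟩ := hθ i
    have hgS : g ∈ Sm k W ι Γ det U S := mw_le_sm S hK hg
    have hℓ : Tf - θ i • f - g ∈ LB k W ι Γ det U S := by
      refine ⟨Submodule.sub_mem _ (Submodule.sub_mem _ hTS (Submodule.smul_mem _ _ hfS)) hgS, ?_⟩
      intro γ hγ x
      have h1 := congrFun (e ⟨γ⁻¹, Γ.inv_mem hγ⟩) x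
      simp only [Pi.sub_apply, Pi.smul_apply] at h1
      rw [hTc, hc2] at h1
      simp only [lt, map_inv, inv_inv] at h1
      simp only [Pi.sub_apply, Pi.smul_apply]
      rw [smul_sub] at h1
      have h2 : Tf (ι γ * x) - θ i • f (ι γ * x) - g (ι γ * x) -
          (Tf x - θ i • f x - g x) =
          (Tf (ι γ * x) - Tf x - (θ i • f (ι γ * x) - θ i • f x)) -
            (g (ι γ * x) - g x) := by abel
      rw [← sub_eq_zero, h2, h1, sub_self]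
    have hg0 : eB k V g = 0 := by
      funext κ x
      rw [eB_app, mw_ri hg κ.1 κ.2, sub_self]
      rfl
    refine (Submodule.neg_mem_iff _).1 ⟨Tf - θ i • f - g, hℓ, ?_⟩
    rw [map_sub, map_sub, map_smul, hdef, hg0, sub_zero, neg_sub]

theorem case1 (S : Sys ι Γ det U) {K : Subgroup G}
    {ρ : Representation k K W} (hK : ∃ N : ℕ, 1 ≤ N ∧ ∀ u ∈ U N, ∃ h : u ∈ K, ρ ⟨u, h⟩ = 1)
    (hKF : ∃ N : ℕ, 1 ≤ N ∧ ((U N).subgroupOf K).FiniteIndex)
    (L : I → Subgroup G) (t : I → G) (θ : I → k) (hD : ∀ i, HD K ρ det (L i) (t i))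
    (c : Γ → G → W) (hc : c ∈ Z1 ι Γ (MW K ρ)) (hc0 : c ∉ B1 ι Γ (MW K ρ))
    (hθ : ∀ i, (fun γ => hecke (L i) (t i) (c γ)) - θ i • c ∈ B1 ι Γ (MW K ρ)) :
    Ccl k det L t θ := by
  by_cases h1 : c ∈ Bsm k W ι Γ det U S
  · by_cases h2 : ∃ f : G → W, RI (KR K ρ) f ∧ ∀ γ : Γ, c γ = lt ι γ.1 f - f
    · obtain ⟨f, hf, hcf⟩ := h2
      exact caseA S hK L t θ hD c hc hc0 f hf hcf hθ
    · exact caseB1 S hK hKF L t θ hD c hc (fun f hf h => h2 ⟨f, hf, h⟩) h1 hθ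
  · exact caseB2 S hK L t θ hD c hc h1 hθ

end Q4.SPC.M
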