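import Pool.Agent.Q4.SPC.GCen
import Pool.Agent.Q4.SPC.Mach
import Pool.Agent.Q4.SPC.Stm2
import Pool.Agent.Q4.GLC.Gal
import Pool.Agent.Q4.GLC.Sra
import Pool.Agent.Q4.GLC.App
import Pool.Agent.Q4.GLC.Cls
import Pool.Agent.Q4.GLC.Int

/-!
# The symplectic groups and the groups of symplectic similitudes in the degrees zero and one:
assembly (helper4, project SPC)
-/

open IsDedekindDomain NumberField Matrix Polynomial Q4.GLC

namespace Q4.SPC

/-- A place `v` outside `S` and a matrix `t` with the components `1` at the other places: the index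
of the Hecke operator of the double coset `Sp_{2n}(O_v) t Sp_{2n}(O_v)`. -/
abbrev IdxS (F : Type) [Field F] [NumberField F] (n : ℕ) (S : Set (Pl F)) : Type :=
  {p : Pl F × Sp n (Af F) // p.1 ∉ S ∧ AtPl p.1 p.2}

/-- A place `v` outside `S` and a diagonal matrix `t` of similitude factor `1` with the components
`1` at the other places: the index of the Hecke operator of the double coset
`GSp_{2n}(O_v) t GSp_{2n}(O_v)`. -/
abbrev IdxG (F : Type) [Field F] [NumberField F] (n : ℕ) (S : Set (Pl F)) : Type :=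
  {p : Pl F × GSp n (Af F) // p.1 ∉ S ∧ GAt p.1 p.2 ∧ p.2.1.1.1.IsDiag ∧ nu p.2 = 1}

section data

variable {F : Type} [Field F] [NumberField F] {n : ℕ} {k W : Type} [Field k] [AddCommGroup W]
  [Module k W]

/-- the component of `K` at `v ∉ S` is `Sp_{2n}(O_v)`, and it acts trivially -/
def UnramS (K : Subgroup (Sp n (Af F))) (ρ : Representation k K W) (S : Set (Pl F)) : Prop :=
  ∀ v ∉ S, (∀ κ ∈ K, ∀ i j, Valued.v ((κ.1 i j) v) ≤ 1) ∧ TrivOn (KS F n v) K ρ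

/-- the component of `K` at `v ∉ S` is `GSp_{2n}(O_v)`, and it acts trivially -/
def UnramG (K : Subgroup (GSp n (Af F))) (ρ : Representation k K W) (S : Set (Pl F)) : Prop :=
  ∀ v ∉ S, (∀ κ ∈ K, GInt v κ) ∧ TrivOn (KG F n v) K ρ

/-- `θ` is a system of eigenvalues of the Hecke operators of the double cosets
`Sp_{2n}(O_v) t Sp_{2n}(O_v)`, `v ∉ S`, in `H^0(Sp_{2n}(F), M_W)` or in `H^1(Sp_{2n}(F), M_W)` -/
def EigS (K : Subgroup (Sp n (Af F))) (ρ : Representation k K W) (S : Set (Pl F))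
    (θ : Pl F → Sp n (Af F) → k) : Prop :=
  EigG0 (dS F n) ⊤ K ρ (fun p : IdxS F n S => KS F n p.1.1) (fun p => p.1.2)
      (fun p => θ p.1.1 p.1.2) ∨
    EigG1 (dS F n) ⊤ K ρ (fun p : IdxS F n S => KS F n p.1.1) (fun p => p.1.2)
      (fun p => θ p.1.1 p.1.2)

/-- `θ` is a system of eigenvalues of the Hecke operators of the double cosets
`GSp_{2n}(O_v) t GSp_{2n}(O_v)`, `v ∉ S`, `t` diagonal of similitude factor `1`, in `H^0(Γ, M_W)` or
in `H^1(Γ, M_W)` -/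
def EigG (Γ : Subgroup (GSp n F)) (K : Subgroup (GSp n (Af F))) (ρ : Representation k K W)
    (S : Set (Pl F)) (θ : Pl F → GSp n (Af F) → k) : Prop :=
  EigG0 (dG F n) Γ K ρ (fun p : IdxG F n S => KG F n p.1.1) (fun p => p.1.2)
      (fun p => θ p.1.1 p.1.2) ∨
    EigG1 (dG F n) Γ K ρ (fun p : IdxG F n S => KG F n p.1.1) (fun p => p.1.2)
      (fun p => θ p.1.1 p.1.2)

/-- The representation `r` of `Gal(L/F)` on `k^{2n+1}` is attached to the trivial system of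
eigenvalues outside `S`: for every place `v ∉ S` with `q_v ≠ 0` in `k`, every prime `P` of `L` over
`v` and every Frobenius element `g` at `P`, the characteristic polynomial of `r g` is
`∏ (X - q_v^i)`, `-n ≤ i ≤ n`. -/
def AttTriv {L : Type} [Field L] [NumberField L] [Algebra F L]
    (r : (L ≃ₐ[F] L) →* GL (Fin (2 * n + 1)) k) (S : Set (Pl F)) : Prop :=
  ∀ v ∉ S, ((qv v : ℕ) : k) ≠ 0 → ∀ P : Ideal (𝓞 L), P.IsPrime →
    P.comap (algebraMap (𝓞 F) (𝓞 L)) = v.asIdeal → ∀ g : L ≃ₐ[F] L, IsFrobAt g P (qv v) →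
      (r g).1.charpoly =
        ∏ i ∈ Finset.range (2 * n + 1), (X - C (((qv v : ℕ) : k) ^ ((i : ℤ) - (n : ℤ))))

/-- `r` preserves the quadratic form `q` -/
def Preserves {Q : Type} [Group Q] {m : ℕ} (r : Q →* GL (Fin m) k)
    (q : QuadraticForm k (Fin m → k)) : Prop := ∀ g w, q ((r g).1 *ᵥ w) = q w

/-- `r` has an invariant line on which the quadratic form `q` vanishes -/
def SingLine {Q : Type} [Group Q] {m : ℕ} (r : Q →* GL (Fin m) k)
    (q : QuadraticForm k (Fin m → k)) : Prop :=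
  ∃ w : Fin m → k, w ≠ 0 ∧ q w = 0 ∧ ∀ g, ∃ a : k, (r g).1 *ᵥ w = a • w

end data

variable {F : Type} [Field F] [NumberField F] {n : ℕ}

/-- the inputs -/
structure Inp : Prop where
  SA : SA
  SB : SB
  SCR : SCR
  SC1 : SC1
  SC2 : SC2
  SD : SD
  SE1 : SE1
  SE2 : SE2
  SE3 : SE3
  SE4 : SE4
  SF : SF
  SG : SG
  SI : SI
  SH : SH
  SO2 : SO2
  GI : GI
  GF : GF
  GG : GG
  GS : GS
  GX : GX
  GN : GN
  Idf : SIdf

theorem sysS (h : Inp) (hn : 2 ≤ n) :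
    M.Sys (dS F n) (⊤ : Subgroup (Sp n F)) (1 : Sp n (Af F) →* Unit) (US F n) where
  mono _ _ h := US_mono h
  nrm _ _ hv _ hu := US_conj hv hu
  den g N hN := h.SI F n g N hN
  dns s _ M hM := by
    obtain ⟨γ, h⟩ := h.SH h.SA tSra tApp h.SI F n s M hM
    exact ⟨γ, Subgroup.mem_top γ, rfl, h⟩
  cen A _ N hN φ hφ γ _ _ := by
    obtain ⟨M, hM, h⟩ := cen (A := A) h.SA h.SB h.SCR h.SC1 h.SC2 h.SD h.SI hn γ N hN φ
      (fun δ δ' h1 h2 => hφ δ (Subgroup.mem_top δ) δ' (Subgroup.mem_top δ') h1 h2)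
    exact ⟨M, hM, fun δ _ hδ => h δ hδ⟩
  fin M hM := by
    refine ⟨{1}, fun g => ?_⟩
    obtain ⟨γ, h⟩ := h.SH h.SA tSra tApp h.SI F n g M hM
    exact ⟨γ, Subgroup.mem_top γ, 1, Finset.mem_singleton_self 1, _, h, by group⟩

/-- additive functions on `Sp_{2n}(O_v)` with values in functions to a vector space -/
theorem perS (h : Inp) (hn : 2 ≤ n) {G k W : Type} [Field k] [AddCommGroup W] [Module k W]
    {v : Pl F} (hq : n = 2 → (2 : k) = 0 → qv v ≠ 2) (φ : Sp n (Af F) → (G → W))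
    (hφ : ∀ g ∈ KS F n v, ∀ h ∈ KS F n v, φ (g * h) = φ g + φ h) : ∀ g ∈ KS F n v, φ g = 0 := by
  by_cases h2k : (2 : k) = 0
  · exact h.SE2 h.SA h.SE1 F n hn v (fun h => hq h h2k) _ φ hφ
  · refine h.SE4 h.SA h.SE3 F n hn v _ (fun a ha => ?_) φ hφ
    funext x
    have h3 : (2 : k) • a x = 0 := by
      rw [two_smul]
      exact congrFun ha x
    exact (smul_eq_zero.1 h3).resolve_left h2k

theorem hdS (h : Inp) (hn : 2 ≤ n) {k W : Type} [Field k] [AddCommGroup W] [Module k W]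
    {K : Subgroup (Sp n (Af F))} {ρ : Representation k K W} {v : Pl F}
    (hq : n = 2 → (2 : k) = 0 → qv v ≠ 2)
    (h1 : ∀ κ ∈ K, ∀ i j, Valued.v ((κ.1 i j) v) ≤ 1) (h2 : TrivOn (KS F n v) K ρ)
    {t : Sp n (Af F)} (ht : AtPl v t) :
    M.HD K ρ (1 : Sp n (Af F) →* Unit) (KS F n v) t where
  le := h2.1
  triv := h2.2
  dec κ hκ := by
    obtain ⟨g', l, hl, e, h⟩ := h.SG F n v κ (h1 κ hκ)
    exact ⟨g', l, hl, e, fun h' hh' => h h' hh'.2, h t ht⟩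
  fin := h.SF F n v t ht
  rep l hl := ⟨l, hl, rfl, rfl⟩
  per φ hφ g hg _ := perS h hn hq φ (fun g hg h hh => hφ g hg h hh rfl rfl) g hg

/-- the symplectic groups -/
theorem mainS (h : Inp) (hn : 2 ≤ n) {k W : Type} [Field k] [AddCommGroup W] [Module k W]
    (K : Subgroup (Sp n (Af F))) (ρ : Representation k K W) (hK : LevelG (US F n) K ρ)
    (S : Set (Pl F)) (hS : UnramS K ρ S) (hS2 : n = 2 → (2 : k) = 0 → ∀ v ∉ S, qv v ≠ 2)
    (θ : Pl F → Sp n (Af F) → k) (hθ : EigS K ρ S θ) :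
    ∀ v ∉ S, ∀ t, AtPl v t → θ v t = (dgr (KS F n v) t : k) := by
  have hSys := sysS (F := F) h hn
  obtain ⟨⟨N1, hN1, hNK, hNF⟩, ⟨N2, hN2, hN2ρ⟩⟩ := hK
  have hK' : ∃ N : ℕ, 1 ≤ N ∧ ∀ u ∈ US F n N, ∃ h : u ∈ K, ρ ⟨u, h⟩ = 1 :=
    ⟨N1 * N2, Nat.mul_pos hN1 hN2, fun u hu =>
      ⟨hNK (US_mono (Dvd.intro _ rfl) hu), hN2ρ ⟨u, _⟩ (US_mono (Dvd.intro_left _ rfl) hu)⟩⟩
  have hHD : ∀ p : IdxS F n S, M.HD K ρ (1 : Sp n (Af F) →* Unit) (KS F n p.1.1) p.1.2 :=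
    fun p => hdS h hn (fun h h' => hS2 h h' _ p.2.1) (hS _ p.2.1).1 (hS _ p.2.1).2 p.2.2
  have hC : M.Ccl k (1 : Sp n (Af F) →* Unit)
      (fun p : IdxS F n S => KS F n p.1.1) (fun p => p.1.2) (fun p => θ p.1.1 p.1.2) := by
    rcases hθ with ⟨f, hf, hf0, hinv, hθ⟩ | ⟨c, hc, hc0, hθ⟩
    · exact M.case0 hSys hK' _ _ _ hHD f hf hf0 hinv hθ
    · exact M.case1 hSys hK' ⟨N1, hN1, hNF⟩ _ _ _ hHD c hc hc0 hθ
  intro v hv t ht
  exact hC ⟨(v, t), hv, ht⟩ rfl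

theorem gMap_dnu {R R' : Type} [CommRing R] [CommRing R'] (f : R →+* R') (a : Rˣ) :
    gMap n f (dnu n a) = dnu n (Units.map f.toMonoidHom a) := by
  refine Subtype.ext (Prod.ext (Units.ext ?_) rfl)
  change (fromBlocks 1 0 0 (a.1 • 1)).map f = fromBlocks 1 0 0 (f a.1 • 1)
  rw [fromBlocks_map]
  congr 1
  · ext i j
    rw [Matrix.map_apply, Matrix.one_apply, Matrix.one_apply]
    split_ifs <;> simp
  · ext i j
    simp
  · ext i j
    simp
  · ext i j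
    rw [Matrix.map_apply, Matrix.smul_apply, Matrix.smul_apply, Matrix.one_apply,
      Matrix.one_apply]
    split_ifs <;> simp

theorem nontrivial_Af (F : Type) [Field F] [NumberField F] : Nontrivial (Af F) := by
  obtain ⟨M, hM⟩ := Ideal.exists_maximal (𝓞 F)
  have h := Ring.ne_bot_of_isMaximal_of_not_isField hM (NumberField.RingOfIntegers.not_isField F)
  let v : Pl F := ⟨M, hM.isPrime, h⟩
  refine ⟨⟨0, 1, fun e => ?_⟩⟩
  have h2 : (0 : v.adicCompletion F) = 1 := congrArg (fun a : Af F => a v) e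
  exact zero_ne_one h2

/-- strong approximation in the group of similitudes -/
theorem dnsG (h : Inp) {Γ : Subgroup (GSp n F)} (hΓ : ∀ s : Sp n F, inc s ∈ Γ)
    (s : GSp n (Af F)) (hs : nu s = 1) (M : ℕ) (hM : 1 ≤ M) :
    ∃ γ : Sp n F, inc γ ∈ Γ ∧ (dG F n (inc γ))⁻¹ * s ∈ UG F n M := by
  obtain ⟨s', rfl⟩ := exists_inc hs
  obtain ⟨γ, h1⟩ := h.SH h.SA tSra tApp h.SI F n s' M hM
  refine ⟨γ, hΓ γ, ?_⟩
  rw [dG_inc, ← map_inv, ← map_mul]
  exact inc_UG h1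

theorem sysG (h : Inp) (hn : 2 ≤ n) (Γ : Subgroup (GSp n F)) (hΓ : Γ.FiniteIndex) :
    M.Sys (dG F n) Γ (nu : GSp n (Af F) →* (Af F)ˣ) (UG F n) where
  mono _ _ h := UG_mono h
  nrm _ _ hv _ hu := UG_conj hv hu
  den g N hN := h.GI F n g N hN
  dns s hs M hM := by
    obtain ⟨γ, h1, h2⟩ := dnsG h (h.GS h.SA F n Γ hΓ) s hs M hM
    exact ⟨inc γ, h1, by rw [dG_inc, nu_inc], h2⟩
  cen A _ N hN φ hφ γ _ hγ1 := by
    have hγ2 : nu γ = 1 := by
      refine Units.ext ?_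
      have h1 : algebraMap F (Af F) (nu γ).1 = algebraMap F (Af F) 1 := by
        rw [map_one]
        exact congrArg Units.val hγ1
      have := nontrivial_Af F
      exact (algebraMap F (Af F)).injective h1
    obtain ⟨γ', rfl⟩ := exists_inc hγ2
    exact cenG (A := A) h.SA h.SB h.SCR h.SC1 h.SC2 h.SD h.SI h.GI h.GN (h.GS h.SA F n Γ hΓ) hn
      γ' N hN φ hφ
  fin M hM := h.GX h.GI h.Idf F n Γ hΓ (fun s hs M hM => by
    obtain ⟨γ, h1, h2⟩ := dnsG h (h.GS h.SA F n Γ hΓ) s hs M hM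
    exact ⟨inc γ, h1, h2⟩) M hM

theorem dnu_KG {v : Pl F} {l : GSp n (Af F)} (hl : l ∈ KG F n v) : dnu n (nu l) ∈ KG F n v := by
  obtain ⟨h1, h2⟩ := hl
  have key : ∀ a : (Af F)ˣ, DvdN 1 (a.1 - 1) → DvdS 1 ((dnu n a).1.1.1 - 1) := by
    intro a ha i j
    rw [dnu_val, ← fromBlocks_one, Matrix.sub_apply]
    rcases i with i | i <;> rcases j with j | j
    · rw [fromBlocks_apply₁₁, fromBlocks_apply₁₁, sub_self]; exact dvdN_zero 1
    · rw [fromBlocks_apply₁₂, fromBlocks_apply₁₂, sub_self]; exact dvdN_zero 1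
    · rw [fromBlocks_apply₂₁, fromBlocks_apply₂₁, sub_self]; exact dvdN_zero 1
    · rw [fromBlocks_apply₂₂, fromBlocks_apply₂₂, Matrix.smul_apply, Matrix.one_apply]
      split_ifs
      · rw [smul_eq_mul, mul_one]; exact ha
      · rw [smul_zero, sub_zero]; exact dvdN_zero 1
  refine ⟨⟨⟨key _ h1.2.1, ?_⟩, h1.2.1, h1.2.2⟩, gat_iff.2 fun w hw => ?_⟩
  · have e : (dnu n (nu l)).1.1⁻¹.1 = (dnu n (nu l)⁻¹).1.1.1 := by
      rw [map_inv]
      rfl
    rw [e]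
    exact key _ h1.2.2
  · have e : gcomp F n w (dnu n (nu l)) = dnu n (nu (gcomp F n w l)) := gMap_dnu _ _
    rw [e, gat_iff.1 h2 w hw, map_one, map_one]

theorem hdG (h : Inp) (hn : 2 ≤ n) {k W : Type} [Field k] [AddCommGroup W] [Module k W]
    {K : Subgroup (GSp n (Af F))} {ρ : Representation k K W} {v : Pl F}
    (hq : n = 2 → (2 : k) = 0 → qv v ≠ 2)
    (h1 : ∀ κ ∈ K, GInt v κ) (h2 : TrivOn (KG F n v) K ρ)
    {t : GSp n (Af F)} (ht : GAt v t) (htd : t.1.1.1.IsDiag) :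
    M.HD K ρ (nu : GSp n (Af F) →* (Af F)ˣ) (KG F n v) t where
  le := h2.1
  triv := h2.2
  dec κ hκ := by
    obtain ⟨g', l, hl, e, h⟩ := h.GG F n v κ (h1 κ hκ) (h1 κ⁻¹ (K.inv_mem hκ))
    exact ⟨g', l, hl, e, fun h' hh' => h h' hh'.2, h t ht⟩
  fin := h.GF h.GI F n v t ht
  rep l hl := by
    have h3 := dnu_KG hl
    have h4 : t * dnu n (nu l) = dnu n (nu l) * t := by
      refine Subtype.ext (Prod.ext (Units.ext ?_) (mul_comm _ _))
      change t.1.1.1 * (dnu n (nu l)).1.1.1 = (dnu n (nu l)).1.1.1 * t.1.1.1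
      have h5 : (dnu n (nu l)).1.1.1 =
          Matrix.diagonal (Sum.elim (fun _ => 1) (fun _ => (nu l).1)) := by
        rw [dnu_val, ← Matrix.fromBlocks_diagonal, Matrix.diagonal_one]
        congr 1
        ext i j
        rw [Matrix.smul_apply, Matrix.one_apply, Matrix.diagonal_apply]
        split_ifs <;> simp
      rw [h5, ← htd.diagonal_diag, Matrix.diagonal_mul_diagonal, Matrix.diagonal_mul_diagonal]
      congr 1
      funext i
      exact mul_comm _ _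
    refine ⟨l * (dnu n (nu l))⁻¹, (KG F n v).mul_mem hl ((KG F n v).inv_mem h3), ?_, ?_⟩
    · rw [map_mul, map_inv, nu_dnu, mul_inv_cancel]
    · rw [QuotientGroup.eq]
      have h6 : (l * (dnu n (nu l))⁻¹ * t)⁻¹ * (l * t) = dnu n (nu l) := by
        calc (l * (dnu n (nu l))⁻¹ * t)⁻¹ * (l * t) = t⁻¹ * (dnu n (nu l) * t) := by group
          _ = t⁻¹ * (t * dnu n (nu l)) := by rw [h4]
          _ = _ := by group
      rw [h6]
      exact h3
  per φ hφ g hg hg1 := by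
    obtain ⟨s, rfl⟩ := exists_inc hg1
    have h3 : ∀ s ∈ KS F n v, inc s ∈ KG F n v := by
      rintro s ⟨h4, h5⟩
      refine ⟨inc_UG h4, fun w hw => ⟨h5 w hw, ?_⟩⟩
      change ((1 : Af F)) w = 1
      rfl
    have h4 : s ∈ KS F n v := ⟨UG_inc hg.1, fun w hw => (hg.2 w hw).1⟩
    refine perS h hn hq (fun s => φ (inc s)) (fun a ha b hb => ?_) s h4
    rw [map_mul]
    exact hφ _ (h3 a ha) _ (h3 b hb) rfl rfl

/-- the groups of similitudes -/
theorem mainG (h : Inp) (hn : 2 ≤ n) {k W : Type} [Field k] [AddCommGroup W] [Module k W]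
    (Γ : Subgroup (GSp n F)) (hΓ : Γ.FiniteIndex)
    (K : Subgroup (GSp n (Af F))) (ρ : Representation k K W) (hK : LevelG (UG F n) K ρ)
    (S : Set (Pl F)) (hS : UnramG K ρ S) (hS2 : n = 2 → (2 : k) = 0 → ∀ v ∉ S, qv v ≠ 2)
    (θ : Pl F → GSp n (Af F) → k) (hθ : EigG Γ K ρ S θ) :
    ∀ v ∉ S, ∀ t, GAt v t → t.1.1.1.IsDiag → nu t = 1 → θ v t = (dgr (KG F n v) t : k) := by
  have hSys := sysG h hn Γ hΓ
  obtain ⟨⟨N1, hN1, hNK, hNF⟩, ⟨N2, hN2, hN2ρ⟩⟩ := hK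
  have hK' : ∃ N : ℕ, 1 ≤ N ∧ ∀ u ∈ UG F n N, ∃ h : u ∈ K, ρ ⟨u, h⟩ = 1 :=
    ⟨N1 * N2, Nat.mul_pos hN1 hN2, fun u hu =>
      ⟨hNK (UG_mono (Dvd.intro _ rfl) hu), hN2ρ ⟨u, _⟩ (UG_mono (Dvd.intro_left _ rfl) hu)⟩⟩
  have hHD : ∀ p : IdxG F n S,
      M.HD K ρ (nu : GSp n (Af F) →* (Af F)ˣ) (KG F n p.1.1) p.1.2 :=
    fun p => hdG h hn (fun h h' => hS2 h h' _ p.2.1) (hS _ p.2.1).1 (hS _ p.2.1).2 p.2.2.1
      p.2.2.2.1
  have hC : M.Ccl k (nu : GSp n (Af F) →* (Af F)ˣ)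
      (fun p : IdxG F n S => KG F n p.1.1) (fun p => p.1.2) (fun p => θ p.1.1 p.1.2) := by
    rcases hθ with ⟨f, hf, hf0, hinv, hθ⟩ | ⟨c, hc, hc0, hθ⟩
    · exact M.case0 hSys hK' _ _ _ hHD f hf hf0 hinv hθ
    · exact M.case1 hSys hK' ⟨N1, hN1, hNF⟩ _ _ _ hHD c hc hc0 hθ
  intro v hv t ht htd htn
  exact hC ⟨(v, t), hv, ht, htd, htn⟩ htn

/-- orthogonal representations attached to the trivial system of eigenvalues -/
theorem orth (h : Inp) (hn : 1 ≤ n) {k : Type} [Field k] [IsAlgClosed k] (ℓ : ℕ)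
    [Fact ℓ.Prime] [CharP k ℓ] {S : Set (Pl F)} (hS : S.Finite) {L : Type} [Field L]
    [NumberField L] [Algebra F L] [IsGalois F L]
    (r : (L ≃ₐ[F] L) →* GL (Fin (2 * n + 1)) k) (q : QuadraticForm k (Fin (2 * n + 1) → k))
    (hq : Preserves r q) (hr : AttTriv r S) : SingLine r q := by
  obtain ⟨N, hN, hcyc, hfr⟩ := tFrb F L ℓ Fact.out S hS
  have : FiniteDimensional F L := Module.Finite.of_restrictScalars_finite ℚ F L
  refine h.SO2 k ℓ (2 * n + 1) (by omega) (L ≃ₐ[F] L) N hcyc q r hq ?_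
  intro g hg
  obtain ⟨v, hv, P, hP, hPv, hgP, hq⟩ := hfr g hg
  have hq1 : ((qv v : ℕ) : k) = 1 := by
    have h1 : qv v ≡ 1 [MOD ℓ] := by
      rw [Nat.ModEq, hq, Nat.mod_eq_of_lt (Fact.out : ℓ.Prime).one_lt]
    have := (CharP.natCast_eq_natCast k ℓ).2 h1
    rw [this, Nat.cast_one]
  rw [hr v hv (by rw [hq1]; exact one_ne_zero) P hP hPv g hgP, hq1]
  simp only [_root_.one_zpow, Finset.prod_const, Finset.card_range]

end Q4.SPC
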