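import Pool.Agent.Q4.GLC.Defs

/-!
# Cohomology in the degrees zero and one with arbitrary coefficients (helper4, project SPC)

`K` is a subgroup of `G` which acts on the abelian group `W`, `ι : H →* G` a homomorphism and `Γ` a
subgroup of `H`.
-/

open Q4.GLC

namespace Q4.SPC.N

variable {G H W : Type} [Group G] [Group H] [AddCommGroup W]

theorem MW_zero (K : Subgroup G) (ρ : K →* AddMonoid.End W) (κ : K) (x : G) :
    (0 : G → W) (x * κ) = ρ κ⁻¹ ((0 : G → W) x) := (map_zero (ρ κ⁻¹)).symm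

theorem MW_add (K : Subgroup G) (ρ : K →* AddMonoid.End W) {f g : G → W}
    (hf : ∀ (κ : K) (x : G), f (x * κ) = ρ κ⁻¹ (f x))
    (hg : ∀ (κ : K) (x : G), g (x * κ) = ρ κ⁻¹ (g x)) (κ : K) (x : G) :
    (f + g) (x * κ) = ρ κ⁻¹ ((f + g) x) := by
  rw [Pi.add_apply, Pi.add_apply, hf, hg, map_add]

theorem MW_neg (K : Subgroup G) (ρ : K →* AddMonoid.End W) {f : G → W}
    (hf : ∀ (κ : K) (x : G), f (x * κ) = ρ κ⁻¹ (f x)) (κ : K) (x : G) :
    (-f) (x * κ) = ρ κ⁻¹ ((-f) x) := by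
  rw [Pi.neg_apply, Pi.neg_apply, hf, map_neg]

/-- the functions `f` on `G` with `f (x κ) = κ⁻¹ f x` for `κ ∈ K` -/
def MW (K : Subgroup G) (ρ : K →* AddMonoid.End W) : AddSubgroup (G → W) where
  carrier := {f | ∀ (κ : K) (x : G), f (x * κ) = ρ κ⁻¹ (f x)}
  zero_mem' := MW_zero K ρ
  add_mem' := MW_add K ρ
  neg_mem' := MW_neg K ρ

/-- the cocycles of `Γ` with values in `M` -/
def IsZ1 (ι : H →* G) (Γ : Subgroup H) (M : AddSubgroup (G → W)) (c : Γ → G → W) : Prop :=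
  (∀ γ, c γ ∈ M) ∧ ∀ γ δ : Γ, c (γ * δ) = c γ + lt ι γ.1 (c δ)

/-- the coboundaries of `Γ` with values in `M` -/
def IsB1 (ι : H →* G) (Γ : Subgroup H) (M : AddSubgroup (G → W)) (c : Γ → G → W) : Prop :=
  ∃ f ∈ M, ∀ γ : Γ, c γ = lt ι γ.1 f - f

/-- the number of cosets in the double coset `L t L` -/
noncomputable def deg (L : Subgroup G) (t : G) : ℕ := Nat.card (MulAction.orbit L (t : G ⧸ L))

/-- `T - deg T`, where `T` is the Hecke operator of the double coset `L t L` -/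
noncomputable def dl (L : Subgroup G) (t : G) (f : G → W) : G → W :=
  hecke L t f - deg L t • f

end Q4.SPC.N
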