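import Pool.Agent.Q4.SPC.Mach
import Pool.Agent.Q4.SPC.NDefs

/-!
# The Hecke operators act by the degree up to a nilpotent endomorphism (helper4, project SPC)

The proofs are variants of those of `GLC/CaseA.lean`, `GLC/CaseB1.lean`, `GLC/CaseB2.lean`.
-/

open Q4.GLC

namespace Q4.SPC.N

variable {G H D W : Type} [Group G] [Group H] [CommGroup D] [AddCommGroup W]

/-- the properties of the local groups and of the double cosets -/
structure Hd (K : Subgroup G) (ρ : K →* AddMonoid.End W) (det : G →* D) (L : Subgroup G) (t : G) :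
    Prop where
  le : L ≤ K
  triv : ∀ κ : K, κ.1 ∈ L → ρ κ = 1
  dec : ∀ κ ∈ K, ∃ κ' : G, ∃ l ∈ L, κ = κ' * l ∧ (∀ h ∈ L, κ' * h = h * κ') ∧ κ' * t = t * κ'
  fin : (MulAction.orbit L (t : G ⧸ L)).Finite
  rep : ∀ l ∈ L, ∃ l' ∈ L, det l' = 1 ∧ ((l' * t : G) : G ⧸ L) = ((l * t : G) : G ⧸ L)
  per : ∀ φ : G → (G → W),
    (∀ g ∈ L, ∀ h ∈ L, det g = 1 → det h = 1 → φ (g * h) = φ g + φ h) →
    ∀ g ∈ L, det g = 1 → φ g = 0
  one : det t = 1

variable {ι : H →* G} {Γ : Subgroup H} {det : G →* D} {U : ℕ → Subgroup G}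
variable {K : Subgroup G} {ρ : K →* AddMonoid.End W} {L : Subgroup G} {t : G}

theorem Hd.hs (h : Hd K ρ det L t) : ∃ (T : Finset (G ⧸ L)) (s : G ⧸ L → G), HS det L t T s := by
  classical
  have hex : ∀ c : G ⧸ L, ∃ l : G, c ∈ MulAction.orbit L (t : G ⧸ L) →
      l ∈ L ∧ det l = 1 ∧ ((l * t : G) : G ⧸ L) = c := by
    intro c
    by_cases hc : c ∈ MulAction.orbit L (t : G ⧸ L)
    · obtain ⟨l, hl⟩ := hc
      obtain ⟨l', hl', hd, e⟩ := h.rep l.1 l.2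
      refine ⟨l', fun _ => ⟨hl', hd, ?_⟩⟩
      rw [e]
      exact hl
    · exact ⟨1, fun h' => absurd h' hc⟩
  choose s hs using hex
  refine ⟨h.fin.toFinset, s, ?_, ?_, ?_, ?_, ?_, ?_⟩
  · rw [dgr, Nat.card_coe_set_eq, Set.ncard_eq_toFinset_card _ h.fin]
  · intro c hc; exact (hs c (h.fin.mem_toFinset.1 hc)).1
  · intro c hc; exact (hs c (h.fin.mem_toFinset.1 hc)).2.1
  · intro c hc; exact (hs c (h.fin.mem_toFinset.1 hc)).2.2
  · intro l c hc
    rw [h.fin.mem_toFinset] at hc ⊢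
    obtain ⟨l', hl'⟩ := hc
    exact ⟨l * l', by rw [← hl']; exact mul_smul l l' _⟩
  · intro A _ f hf x
    have h1 : ∀ c ∈ MulAction.orbit L (t : G ⧸ L), f (x * c.out) = f (x * (s c * t)) := by
      intro c hc
      have h2 := (hs c hc).2.2
      have h3 : (c.out)⁻¹ * (s c * t) ∈ L := by
        rw [← QuotientGroup.eq, h2, QuotientGroup.out_eq']
      have h4 : x * (s c * t) = x * c.out * ((c.out)⁻¹ * (s c * t)) := by group
      rw [h4, hf _ h3]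
    rw [hecke, finsum_mem_congr rfl h1, finsum_mem_eq_finite_toFinset_sum _ h.fin]

theorem dl_app {T : Finset (G ⧸ L)} {s : G ⧸ L → G} (hs : HS det L t T s) {f : G → W}
    (hf : RI L f) (x : G) :
    dl L t f x = ∑ a ∈ T, f (x * (s a * t)) - T.card • f x := by
  rw [dl, Pi.sub_apply, hs.heck f hf, Pi.smul_apply, hs.card]
  rfl

/-- the kernel of `ρ` as a subgroup of `G` -/
def KR (ρ : K →* AddMonoid.End W) : Subgroup G := (MonoidHom.ker ρ).map K.subtype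

theorem mem_KR {x : G} : x ∈ KR ρ ↔ ∃ h : x ∈ K, ρ ⟨x, h⟩ = 1 := by
  constructor
  · rintro ⟨y, hy, rfl⟩
    exact ⟨y.2, hy⟩
  · rintro ⟨h, e⟩
    exact ⟨⟨x, h⟩, e, rfl⟩

theorem KR_conj {x : G} (hx : x ∈ KR ρ) (κ : K) : κ.1⁻¹ * x * κ.1 ∈ KR ρ := by
  obtain ⟨y, hy, rfl⟩ := hx
  refine ⟨κ⁻¹ * y * κ, ?_, rfl⟩
  have hy' : ρ y = 1 := hy
  change ρ (κ⁻¹ * y * κ) = 1
  rw [map_mul, map_mul, hy', mul_one, ← map_mul, inv_mul_cancel, map_one]

theorem rho_inv (κ : K) (w : W) : ρ κ⁻¹ (ρ κ w) = w := by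
  change (ρ κ⁻¹ * ρ κ) w = w
  rw [← map_mul, inv_mul_cancel, map_one]
  rfl

theorem rho_inv' (κ : K) (w : W) : ρ κ (ρ κ⁻¹ w) = w := by
  change (ρ κ * ρ κ⁻¹) w = w
  rw [← map_mul, mul_inv_cancel, map_one]
  rfl

theorem mw_ri {f : G → W} (hf : f ∈ MW K ρ) : RI (KR ρ) f := by
  intro u hu x
  obtain ⟨h, e⟩ := mem_KR.1 hu
  have h1 : f (x * u) = ρ (⟨u, h⟩ : K)⁻¹ (f x) := hf ⟨u, h⟩ x
  have h2 := rho_inv (ρ := ρ) ⟨u, h⟩ (f x)
  rw [e] at h2
  rw [h1]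
  exact h2

/-- smooth functions -/
def IsSm (U : ℕ → Subgroup G) (f : G → W) : Prop := ∃ M : ℕ, 1 ≤ M ∧ RI (U M) f

omit [AddCommGroup W] in
theorem sm_trans (S : M.Sys ι Γ det U) {f : G → W} (hf : IsSm U f) (g : G) :
    IsSm U (fun x => f (x * g)) := by
  obtain ⟨M, hM, h⟩ := hf
  obtain ⟨M', hM', -, h2⟩ := S.den g⁻¹ M hM
  refine ⟨M', hM', fun u hu x => ?_⟩
  have h3 := h2 u hu
  rw [inv_inv] at h3
  change f (x * u * g) = f (x * g)
  rw [← h _ h3 (x * g)]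
  congr 1
  group

theorem sm_sum (S : M.Sys ι Γ det U) {I : Type} (T : Finset I) (f : I → G → W)
    (hf : ∀ i ∈ T, IsSm U (f i)) : IsSm U (fun x => ∑ i ∈ T, f i x) := by
  classical
  induction T using Finset.induction_on with
  | empty => exact ⟨1, le_rfl, fun u _ x => by simp⟩
  | insert i T hi ih =>
    obtain ⟨M, hM, h⟩ := hf i (Finset.mem_insert_self i T)
    obtain ⟨M', hM', h'⟩ := ih fun j hj => hf j (Finset.mem_insert_of_mem hj)
    refine ⟨M * M', Nat.mul_pos hM hM', fun u hu x => ?_⟩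
    simp only [Finset.sum_insert hi]
    rw [h u (S.mono _ _ (Dvd.intro _ rfl) hu)]
    congr 1
    exact h' u (S.mono _ _ (Dvd.intro_left _ rfl) hu) x

omit [AddCommGroup W] in
theorem sm_fix (S : M.Sys ι Γ det U) {f : G → W} (h1 : IsSm U f) (h2 : LI ι Γ f) {g : G}
    (hg : det g = 1) (x : G) : f (x * g) = f x := by
  obtain ⟨M, hM, h⟩ := h1
  obtain ⟨γ, hγ, -, w, hw, e⟩ := S.dg' hg x M hM
  rw [e, h w hw, h2 γ hγ]

theorem sm_fix_comm (S : M.Sys ι Γ det U) {f : G → W} (h1 : IsSm U f) (h2 : LI ι Γ f) {g h : G}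
    (hd : det g = det h) (x : G) : f (x * g) = f (x * h) := by
  have : g = h * (h⁻¹ * g) := by group
  rw [this, ← mul_assoc]
  refine sm_fix S h1 h2 ?_ _
  rw [map_mul, map_inv, hd, inv_mul_cancel]

/-- the defect of the Hecke translate -/
theorem defect (hD : Hd K ρ det L t) {T : Finset (G ⧸ L)} {s : G ⧸ L → G} (hs : HS det L t T s)
    {f : G → W} (hf : RI (KR ρ) f) (κ : K) (x : G) :
    ρ κ (hecke L t f (x * κ)) - hecke L t f x =
      ∑ a ∈ T, (ρ κ (f (x * (s a * t) * κ)) - f (x * (s a * t))) := by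
  have hLK : L ≤ KR ρ := fun l hl => mem_KR.2 ⟨hD.le hl, hD.triv ⟨l, hD.le hl⟩ hl⟩
  have hfL : RI L f := fun l hl x => hf l (hLK hl) x
  obtain ⟨κ', l, hl, e1, e2, e3⟩ := hD.dec κ.1 κ.2
  have hsum : hecke L t f (x * κ) = ∑ a ∈ T, f (x * (s a * t) * κ') := by
    rw [hs.heck f hfL, ← hs.sum_perm (⟨l, hl⟩ : L) (fun a => f (x * (s a * t) * κ'))]
    refine Finset.sum_congr rfl fun a ha => ?_
    obtain ⟨r, hr, -, e4⟩ := hs.perm (⟨l, hl⟩ : L) ha
    have e5 : x * κ.1 * (s a * t) = x * (s ((⟨l, hl⟩ : L) • a) * t) * κ' * r := by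
      rw [e1]
      calc x * (κ' * l) * (s a * t) = x * κ' * (l * (s a * t)) := by group
        _ = x * κ' * (s ((⟨l, hl⟩ : L) • a) * t * r) := by rw [← e4]
        _ = x * (κ' * s ((⟨l, hl⟩ : L) • a)) * t * r := by group
        _ = x * (s ((⟨l, hl⟩ : L) • a) * κ') * t * r := by
            rw [e2 _ (hs.memL _ (hs.smul _ a ha))]
        _ = x * s ((⟨l, hl⟩ : L) • a) * (κ' * t) * r := by group
        _ = x * s ((⟨l, hl⟩ : L) • a) * (t * κ') * r := by rw [e3]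
        _ = _ := by group
    rw [e5, hfL r hr]
  rw [hsum, hs.heck f hfL, map_sum, ← Finset.sum_sub_distrib]
  refine Finset.sum_congr rfl fun a _ => ?_
  have e6 : x * (s a * t) * κ.1 = x * (s a * t) * κ' * l := by rw [e1]; group
  rw [e6, hfL l hl]

theorem hecke_mw (hD : Hd K ρ det L t) {f : G → W} (hf : f ∈ MW K ρ) : hecke L t f ∈ MW K ρ := by
  obtain ⟨T, s, hs⟩ := hD.hs
  intro κ x
  have h1 := defect hD hs (mw_ri hf) κ x
  have h2 : ∀ a ∈ T, ρ κ (f (x * (s a * t) * κ)) - f (x * (s a * t)) = 0 := by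
    intro a _
    rw [hf κ, rho_inv', sub_self]
  rw [Finset.sum_congr rfl h2, Finset.sum_const_zero, sub_eq_zero] at h1
  rw [← h1, rho_inv]

theorem dl_mw (hD : Hd K ρ det L t) {f : G → W} (hf : f ∈ MW K ρ) : dl L t f ∈ MW K ρ :=
  (MW K ρ).sub_mem (hecke_mw hD hf) ((MW K ρ).nsmul_mem hf _)

theorem mw_L (hD : Hd K ρ det L t) {f : G → W} (hf : f ∈ MW K ρ) : RI L f := fun l hl x =>
  mw_ri hf l (mem_KR.2 ⟨hD.le hl, hD.triv ⟨l, hD.le hl⟩ hl⟩) x

theorem dl_z1 (hD : Hd K ρ det L t) {c : Γ → G → W} (hc : IsZ1 ι Γ (MW K ρ) c) :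
    IsZ1 ι Γ (MW K ρ) (fun γ => dl L t (c γ)) := by
  refine ⟨fun γ => dl_mw hD (hc.1 γ), fun γ δ => ?_⟩
  obtain ⟨T, s, hs⟩ := hD.hs
  funext x
  change dl L t (c (γ * δ)) x = dl L t (c γ) x + dl L t (c δ) ((ι γ.1)⁻¹ * x)
  rw [dl_app hs (mw_L hD (hc.1 _)), dl_app hs (mw_L hD (hc.1 _)), dl_app hs (mw_L hD (hc.1 _))]
  have h1 : ∀ y, c (γ * δ) y = c γ y + c δ ((ι γ.1)⁻¹ * y) := fun y => congrFun (hc.2 γ δ) y
  simp only [h1, Finset.sum_add_distrib, smul_add, mul_assoc]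
  abel

/-- degree zero -/
theorem nil0 (S : M.Sys ι Γ det U) (hK : ∃ N : ℕ, 1 ≤ N ∧ ∀ u ∈ U N, ∃ h : u ∈ K, ρ ⟨u, h⟩ = 1)
    (hD : Hd K ρ det L t) {f : G → W} (hf : f ∈ MW K ρ) (hΓ : ∀ γ ∈ Γ, lt ι γ f = f) :
    dl L t f = 0 := by
  obtain ⟨N, hN, hKN⟩ := hK
  obtain ⟨T, s, hs⟩ := hD.hs
  have hli : LI ι Γ f := by
    intro γ hγ x
    have h1 := congrFun (hΓ γ⁻¹ (Γ.inv_mem hγ)) x
    simpa [lt] using h1
  have hsm : IsSm U f := ⟨N, hN, fun u hu x => mw_ri hf u (mem_KR.2 (hKN u hu)) x⟩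
  funext x
  rw [dl_app hs (mw_L hD hf)]
  have h3 : ∀ a ∈ T, f (x * (s a * t)) = f x := by
    intro a ha
    refine sm_fix S hsm hli ?_ x
    rw [map_mul, hs.det1 a ha, hD.one, one_mul]
  rw [Finset.sum_congr rfl h3, Finset.sum_const, sub_self]
  rfl

/-- first step: coboundary of a smooth function -/
theorem step1 (S : M.Sys ι Γ det U) (hK : ∃ N : ℕ, 1 ≤ N ∧ ∀ u ∈ U N, ∃ h : u ∈ K, ρ ⟨u, h⟩ = 1)
    (hD : Hd K ρ det L t) {c : Γ → G → W} (hc : IsZ1 ι Γ (MW K ρ) c) :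
    ∃ f : G → W, IsSm U f ∧ ∀ γ : Γ, dl L t (c γ) = lt ι γ.1 f - f := by
  obtain ⟨N, hN, hKN⟩ := hK
  obtain ⟨T, s, hs⟩ := hD.hs
  have hVN : ∀ γ, RI (U N) (c γ) := fun γ u hu x => mw_ri (hc.1 γ) u (mem_KR.2 (hKN u hu)) x
  have h1 : ∀ a, ∃ f : G → W, a ∈ T → IsSm U f ∧
      ∀ γ : Γ, (fun x => c γ (x * (s a * t)) - c γ x) = lt ι γ.1 f - f := by
    intro a
    by_cases ha : a ∈ T
    · obtain ⟨M, hM, f, hf, e⟩ := S.key3 hN (show IsCo ι Γ c from hc.2) hVN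
        (g := s a * t) (by rw [map_mul, hs.det1 a ha, hD.one, one_mul])
      exact ⟨f, fun _ => ⟨⟨M, hM, hf⟩, e⟩⟩
    · exact ⟨0, fun h => absurd h ha⟩
  choose f hf using h1
  refine ⟨fun x => ∑ a ∈ T, f a x, sm_sum S T f fun a ha => (hf a ha).1, fun γ => ?_⟩
  funext x
  rw [dl_app hs (mw_L hD (hc.1 γ)), Pi.sub_apply]
  change _ = ∑ a ∈ T, f a ((ι γ.1)⁻¹ * x) - ∑ a ∈ T, f a x
  rw [← Finset.sum_sub_distrib, ← Finset.sum_const, ← Finset.sum_sub_distrib]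
  refine Finset.sum_congr rfl fun a ha => ?_
  exact congrFun ((hf a ha).2 γ) x

/-- second step: coboundary of a function which is invariant under the kernel of `ρ` -/
theorem step2 (S : M.Sys ι Γ det U) (hD : Hd K ρ det L t) {c : Γ → G → W}
    (hc : ∀ γ, c γ ∈ MW K ρ) {f : G → W} (hfS : IsSm U f) (hcf : ∀ γ : Γ, c γ = lt ι γ.1 f - f) :
    ∃ f' : G → W, RI (KR ρ) f' ∧ ∀ γ : Γ, dl L t (c γ) = lt ι γ.1 f' - f' := by
  obtain ⟨T, s, hs⟩ := hD.hs
  have hLK : L ≤ KR ρ := fun l hl => mem_KR.2 ⟨hD.le hl, hD.triv ⟨l, hD.le hl⟩ hl⟩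
  have hKK : KR ρ ≤ K := fun x hx => (mem_KR.1 hx).1
  have hc2 : ∀ (γ : Γ) (x : G), c γ x = f ((ι γ.1)⁻¹ * x) - f x := fun γ x => by
    rw [hcf γ]; rfl
  -- the differences of `f`
  have he2 : ∀ κ ∈ KR ρ, LI ι Γ (fun x => f (x * κ) - f x) := by
    intro κ hκ γ hγ x
    have h1 := mw_ri (hc ⟨γ⁻¹, Γ.inv_mem hγ⟩) κ hκ x
    rw [hc2, hc2] at h1
    simp only [map_inv, inv_inv] at h1
    change f (ι γ * x * κ) - f (ι γ * x) = f (x * κ) - f x
    rw [mul_assoc]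
    rw [sub_eq_sub_iff_add_eq_add] at h1 ⊢
    rw [h1]
    abel
  have he1 : ∀ κ ∈ KR ρ, IsSm U (fun x => f (x * κ) - f x) := by
    intro κ _
    obtain ⟨M, hM, h⟩ := hfS
    obtain ⟨M', hM', h'⟩ := sm_trans S ⟨M, hM, h⟩ κ
    refine ⟨M * M', Nat.mul_pos hM hM', fun u hu x => ?_⟩
    have h3 := h' u (S.mono _ _ (Dvd.intro_left _ rfl) hu) x
    have h4 := h u (S.mono _ _ (Dvd.intro _ rfl) hu) x
    change f (x * u * κ) - f (x * u) = f (x * κ) - f x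
    rw [h4]
    congr 1
  have hed : ∀ κ ∈ KR ρ, ∀ a b x : G, det a = det b →
      f (x * a * κ) - f (x * a) = f (x * b * κ) - f (x * b) :=
    fun κ hκ a b x h => sm_fix_comm S (he1 κ hκ) (he2 κ hκ) h x
  have hper : ∀ g ∈ L, det g = 1 → ∀ x, f (x * g) = f x := by
    intro g hg hd x
    have h1 : ∀ g ∈ L, ∀ h ∈ L, det g = 1 → det h = 1 →
        (fun x => f (x * (g * h)) - f x) = (fun x => f (x * g) - f x) + fun x => f (x * h) - f x := by
      intro g hg h hh hg1 _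
      funext x
      change f (x * (g * h)) - f x = (f (x * g) - f x) + (f (x * h) - f x)
      have h2 := hed h (hLK hh) g 1 x (by rw [hg1, map_one])
      rw [mul_one] at h2
      rw [← h2, ← mul_assoc]
      abel
    have h3 := hD.per (fun g x => f (x * g) - f x) h1 g hg hd
    exact sub_eq_zero.1 (congrFun h3 x)
  refine ⟨fun x => ∑ a ∈ T, f (x * (s a * t)) - T.card • f x, ?_, fun γ => ?_⟩
  · intro κ hκ x
    obtain ⟨κ', l, hl, e1, e2, e3⟩ := hD.dec κ (hKK hκ)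
    have hκ' : κ' ∈ KR ρ := by
      have : κ' = κ * l⁻¹ := by rw [e1]; group
      rw [this]
      exact (KR ρ).mul_mem hκ ((KR ρ).inv_mem (hLK hl))
    have h1 : ∀ a ∈ T, f (x * κ * (s a * t)) =
        (f (x * t * κ' * l) - f (x * t * κ')) +
          f (x * (s ((⟨l, hl⟩ : L) • a) * t) * κ') := by
      intro a ha
      obtain ⟨r, hr, hrd, e4⟩ := hs.perm (⟨l, hl⟩ : L) ha
      set b := (⟨l, hl⟩ : L) • a with hb
      have hbT : b ∈ T := hs.smul _ a ha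
      have e5 : x * κ * (s a * t) = x * (s b * t) * κ' * r := by
        rw [e1]
        calc x * (κ' * l) * (s a * t) = x * κ' * (l * (s a * t)) := by group
          _ = x * κ' * (s b * t * r) := by rw [← e4]
          _ = x * (κ' * s b) * t * r := by group
          _ = x * (s b * κ') * t * r := by rw [e2 _ (hs.memL _ hbT)]
          _ = x * s b * (κ' * t) * r := by group
          _ = x * s b * (t * κ') * r := by rw [e3]
          _ = _ := by group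
      have e6 : x * (s b * t) * κ' * r = x * (s b * t) * κ' * l * (l⁻¹ * r) := by group
      have h2 : f (x * (s b * t) * κ' * l * (l⁻¹ * r)) = f (x * (s b * t) * κ' * l) := by
        refine hper _ (L.mul_mem (L.inv_mem hl) hr) ?_ _
        rw [map_mul, map_inv, hrd, inv_mul_cancel]
      have h3 := hed l (hLK hl) (s b * t * κ') (t * κ') x (by
        rw [map_mul, map_mul, map_mul, hs.det1 b hbT, one_mul])
      rw [e5, e6, h2]
      have e7 : x * (s b * t) * κ' = x * (s b * t * κ') := by group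
      have e8 : x * t * κ' = x * (t * κ') := by group
      rw [e7, e8, ← h3]
      abel
    have h2 : ∀ a ∈ T, f (x * (s a * t) * κ') =
        (f (x * t * κ') - f (x * t)) + f (x * (s a * t)) := by
      intro a ha
      have h3 := hed κ' hκ' (s a * t) t x (by rw [map_mul, hs.det1 a ha, one_mul])
      rw [← h3]
      abel
    have h3 : f (x * κ) - f x = (f (x * t * κ' * l) - f (x * t * κ')) +
        (f (x * t * κ') - f (x * t)) := by
      have h4 := hed κ hκ t 1 x (by rw [hD.one, map_one])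
      rw [mul_one] at h4
      rw [← h4, e1, ← mul_assoc (x * t)]
      abel
    have h4 : ∑ a ∈ T, f (x * κ * (s a * t)) =
        T.card • (f (x * κ) - f x) + ∑ a ∈ T, f (x * (s a * t)) := by
      calc ∑ a ∈ T, f (x * κ * (s a * t))
          = ∑ a ∈ T, ((f (x * t * κ' * l) - f (x * t * κ')) +
              f (x * (s ((⟨l, hl⟩ : L) • a) * t) * κ')) := Finset.sum_congr rfl h1
        _ = T.card • (f (x * t * κ' * l) - f (x * t * κ')) +
              ∑ a ∈ T, f (x * (s ((⟨l, hl⟩ : L) • a) * t) * κ') := by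
            rw [Finset.sum_add_distrib, Finset.sum_const]
        _ = T.card • (f (x * t * κ' * l) - f (x * t * κ')) +
              ∑ a ∈ T, f (x * (s a * t) * κ') := by
            rw [hs.sum_perm (⟨l, hl⟩ : L) (fun a => f (x * (s a * t) * κ'))]
        _ = T.card • (f (x * t * κ' * l) - f (x * t * κ')) +
              (T.card • (f (x * t * κ') - f (x * t)) + ∑ a ∈ T, f (x * (s a * t))) := by
            rw [Finset.sum_congr rfl h2, Finset.sum_add_distrib, Finset.sum_const]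
        _ = _ := by rw [h3, smul_add, add_assoc]
    change ∑ a ∈ T, f (x * κ * (s a * t)) - T.card • f (x * κ) =
      ∑ a ∈ T, f (x * (s a * t)) - T.card • f x
    rw [h4, smul_sub]
    abel
  · funext x
    rw [dl_app hs (mw_L hD (hc γ)), Pi.sub_apply]
    change _ = (∑ a ∈ T, f ((ι γ.1)⁻¹ * x * (s a * t)) - T.card • f ((ι γ.1)⁻¹ * x)) -
      (∑ a ∈ T, f (x * (s a * t)) - T.card • f x)
    simp only [hc2, Finset.sum_sub_distrib, smul_sub, mul_assoc]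
    abel

/-- third step: coboundary -/
theorem step3 (S : M.Sys ι Γ det U) (hK : ∃ N : ℕ, 1 ≤ N ∧ ∀ u ∈ U N, ∃ h : u ∈ K, ρ ⟨u, h⟩ = 1)
    (hD : Hd K ρ det L t) {c : Γ → G → W} (hc : ∀ γ, c γ ∈ MW K ρ) {f : G → W}
    (hf : RI (KR ρ) f) (hcf : ∀ γ : Γ, c γ = lt ι γ.1 f - f) :
    IsB1 ι Γ (MW K ρ) (fun γ => dl L t (c γ)) := by
  obtain ⟨N, hN, hKN⟩ := hK
  obtain ⟨T, s, hs⟩ := hD.hs
  have hUN : U N ≤ KR ρ := fun u hu => mem_KR.2 (hKN u hu)
  have hLK : L ≤ KR ρ := fun l hl => mem_KR.2 ⟨hD.le hl, hD.triv ⟨l, hD.le hl⟩ hl⟩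
  have hfL : RI L f := fun l hl x => hf l (hLK hl) x
  -- the defect of `f`
  have he1 : ∀ κ : K, RI (KR ρ) (fun x => ρ κ (f (x * κ)) - f x) := by
    intro κ u hu x
    change ρ κ (f (x * u * κ)) - f (x * u) = ρ κ (f (x * κ)) - f x
    rw [hf u hu]
    have e1 : x * u * κ.1 = x * κ.1 * (κ.1⁻¹ * u * κ.1) := by group
    rw [e1, hf _ (KR_conj hu κ)]
  have he2 : ∀ κ : K, LI ι Γ (fun x => ρ κ (f (x * κ)) - f x) := by
    intro κ γ hγ x
    have h1 : c ⟨γ⁻¹, Γ.inv_mem hγ⟩ (x * κ) = ρ κ⁻¹ (c ⟨γ⁻¹, Γ.inv_mem hγ⟩ x) :=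
      hc ⟨γ⁻¹, Γ.inv_mem hγ⟩ κ x
    rw [hcf] at h1
    have h2 := congrArg (ρ κ) h1
    rw [rho_inv'] at h2
    simp only [Pi.sub_apply, lt, map_inv, inv_inv, map_sub] at h2
    change ρ κ (f (ι γ * x * κ)) - f (ι γ * x) = ρ κ (f (x * κ)) - f x
    rw [mul_assoc]
    rw [sub_eq_sub_iff_add_eq_add] at h2 ⊢
    rw [h2]
    abel
  have hfix : ∀ (κ : K) (x : G), ∀ a ∈ T,
      ρ κ (f (x * (s a * t) * κ)) - f (x * (s a * t)) = ρ κ (f (x * κ)) - f x := by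
    intro κ x a ha
    refine sm_fix S (f := fun x => ρ κ (f (x * κ)) - f x)
      ⟨N, hN, fun u hu x => he1 κ u (hUN hu) x⟩ (he2 κ) ?_ x
    rw [map_mul, hs.det1 a ha, hD.one, one_mul]
  refine ⟨dl L t f, fun κ x => ?_, fun γ => ?_⟩
  · have h1 := defect hD hs hf κ x
    rw [Finset.sum_congr rfl (hfix κ x), Finset.sum_const] at h1
    have h2 : ρ κ (dl L t f (x * κ)) = dl L t f x := by
      rw [dl, Pi.sub_apply, Pi.sub_apply, Pi.smul_apply, Pi.smul_apply, map_sub, map_nsmul]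
      have h3 : deg L t = T.card := hs.card.symm
      rw [h3]
      have h4 : ρ κ (hecke L t f (x * κ)) = T.card • (ρ κ (f (x * κ)) - f x) + hecke L t f x := by
        rw [← h1]
        abel
      rw [h4, smul_sub]
      abel
    rw [← h2, rho_inv]
  · funext x
    have hL2 : RI L (c γ) := mw_L hD (hc γ)
    change dl L t (c γ) x = dl L t f ((ι γ.1)⁻¹ * x) - dl L t f x
    rw [dl_app hs hL2, dl_app hs hfL, dl_app hs hfL]
    have hc2 : ∀ x, c γ x = f ((ι γ.1)⁻¹ * x) - f x := fun x => by rw [hcf γ]; rfl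
    simp only [hc2, Finset.sum_sub_distrib, smul_sub, mul_assoc]
    abel

/-- degree one -/
theorem nil1 (S : M.Sys ι Γ det U) (hK : ∃ N : ℕ, 1 ≤ N ∧ ∀ u ∈ U N, ∃ h : u ∈ K, ρ ⟨u, h⟩ = 1)
    {L1 L2 L3 : Subgroup G} {t1 t2 t3 : G} (hD1 : Hd K ρ det L1 t1) (hD2 : Hd K ρ det L2 t2)
    (hD3 : Hd K ρ det L3 t3) {c : Γ → G → W} (hc : IsZ1 ι Γ (MW K ρ) c) :
    IsB1 ι Γ (MW K ρ) (fun γ => dl L3 t3 (dl L2 t2 (dl L1 t1 (c γ)))) := by
  have h1 := dl_z1 hD1 hc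
  have h2 := dl_z1 hD2 h1
  obtain ⟨f1, hf1, e1⟩ := step1 S hK hD1 hc
  obtain ⟨f2, hf2, e2⟩ := step2 S hD2 h1.1 hf1 e1
  exact step3 S hK hD3 h2.1 hf2 e2

end Q4.SPC.N
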