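import Pool.Agent.Q4.SPC.NDefs
import Pool.Agent.Q4.GLC.Gal

/-!
# The classical groups `GL_n`, `SL_n`, `GSp_{2n}`, `Sp_{2n}` over the adeles of a number field, the
Hecke operators on the cohomology in the degrees zero and one (helper4, project SPC)

* `MG s`: the families of subgroups of `GL_s(R)` for all commutative rings `R`, functorial in `R`;
  `glF n`, `slF n`, `gspF n`, `spF n` are the families `GL_n`, `SL_n`, `GSp_{2n}`, `Sp_{2n}`.
* `X.U F N`: the principal congruence subgroup of level `N`; `X.K F v`: the subgroup `X(O_v)` of the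
  finite adelic points (components `1` at the other places).
* `Unip`: the statement that the Hecke operators minus their degree are nilpotent.
-/

open IsDedekindDomain NumberField Matrix Q4.GLC

namespace Q4.SPC.Pb

section families

variable {s : Type} [Fintype s] [DecidableEq s] {R R' : Type} [CommRing R] [CommRing R']

/-- a family of subgroups of `GL_s(R)` for all commutative rings `R`, functorial in `R` -/
structure MG (s : Type) [Fintype s] [DecidableEq s] where
  pts : ∀ (R : Type) [CommRing R], Subgroup (GL s R)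
  map_mem : ∀ {R R' : Type} [CommRing R] [CommRing R'] (f : R →+* R') (g : GL s R), g ∈ pts R →
    Matrix.GeneralLinearGroup.map f g ∈ pts R'

/-- the invertible matrix of a point -/
def MG.gl {X : MG s} (g : X.pts R) : GL s R := g.1

theorem MG.emb_mem (X : MG s) (f : R →+* R') (g : X.pts R) :
    ((Matrix.GeneralLinearGroup.map f).comp (X.pts R).subtype) g ∈ X.pts R' :=
  X.map_mem f g.1 g.2

/-- functoriality -/
def MG.emb (X : MG s) (f : R →+* R') : X.pts R →* X.pts R' :=
  ((Matrix.GeneralLinearGroup.map f).comp (X.pts R).subtype).codRestrict (X.pts R') (X.emb_mem f)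

/-- the group `GL_n` -/
def glF (n : ℕ) : MG (Fin n) where
  pts _ _ := ⊤
  map_mem _ _ _ := Subgroup.mem_top _

theorem sl_map {n : ℕ} (f : R →+* R') (g : GL (Fin n) R)
    (h : g ∈ (Matrix.GeneralLinearGroup.det : GL (Fin n) R →* Rˣ).ker) :
    Matrix.GeneralLinearGroup.map f g ∈ (Matrix.GeneralLinearGroup.det : GL (Fin n) R' →* R'ˣ).ker := by
  rw [MonoidHom.mem_ker] at h ⊢
  rw [Matrix.GeneralLinearGroup.map_det, h, map_one]

/-- the group `SL_n` -/
def slF (n : ℕ) : MG (Fin n) where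
  pts _ _ := Matrix.GeneralLinearGroup.det.ker
  map_mem f g h := sl_map f g h

variable {n : ℕ}

theorem sim_one : ∃ ν : Rˣ, (1 : GL (Fin n ⊕ Fin n) R).1 * J (Fin n) R *
    (1 : GL (Fin n ⊕ Fin n) R).1ᵀ = ν.1 • J (Fin n) R := ⟨1, by simp⟩

theorem sim_mul_aux {g h : GL (Fin n ⊕ Fin n) R} {a b : Rˣ}
    (hg : g.1 * J (Fin n) R * g.1ᵀ = a.1 • J (Fin n) R)
    (hh : h.1 * J (Fin n) R * h.1ᵀ = b.1 • J (Fin n) R) :
    (g * h).1 * J (Fin n) R * (g * h).1ᵀ = (a * b).1 • J (Fin n) R := by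
  rw [Units.val_mul, Units.val_mul]
  calc (g.1 * h.1) * J (Fin n) R * (g.1 * h.1)ᵀ = g.1 * (h.1 * J (Fin n) R * h.1ᵀ) * g.1ᵀ := by
        rw [transpose_mul]; simp only [Matrix.mul_assoc]
    _ = b.1 • (g.1 * J (Fin n) R * g.1ᵀ) := by
        rw [hh, Matrix.mul_smul, Matrix.smul_mul]
    _ = _ := by rw [hg, smul_smul, mul_comm b.1]

theorem sim_inv_aux {g : GL (Fin n ⊕ Fin n) R} {a : Rˣ}
    (hg : g.1 * J (Fin n) R * g.1ᵀ = a.1 • J (Fin n) R) :
    g⁻¹.1 * J (Fin n) R * g⁻¹.1ᵀ = a⁻¹.1 • J (Fin n) R := by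
  have h1 : g⁻¹.1 * g.1 = 1 := by rw [← Units.val_mul, inv_mul_cancel, Units.val_one]
  have h2 : g.1ᵀ * g⁻¹.1ᵀ = 1 := by rw [← transpose_mul, h1, transpose_one]
  have h3 : J (Fin n) R = a⁻¹.1 • (g.1 * J (Fin n) R * g.1ᵀ) := by
    rw [hg, smul_smul, ← Units.val_mul, inv_mul_cancel, Units.val_one, one_smul]
  calc g⁻¹.1 * J (Fin n) R * g⁻¹.1ᵀ
      = g⁻¹.1 * (a⁻¹.1 • (g.1 * J (Fin n) R * g.1ᵀ)) * g⁻¹.1ᵀ := by rw [← h3]
    _ = a⁻¹.1 • ((g⁻¹.1 * g.1) * J (Fin n) R * (g.1ᵀ * g⁻¹.1ᵀ)) := by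
        rw [Matrix.mul_smul, Matrix.smul_mul]; simp only [Matrix.mul_assoc]
    _ = _ := by rw [h1, h2, Matrix.one_mul, Matrix.mul_one]

/-- the condition `g J gᵀ = ν J` for a unit `ν` -/
def IsSim (g : GL (Fin n ⊕ Fin n) R) : Prop := ∃ ν : Rˣ, g.1 * J (Fin n) R * g.1ᵀ = ν.1 • J (Fin n) R

theorem isSim_one : IsSim (1 : GL (Fin n ⊕ Fin n) R) := sim_one

theorem isSim_mul {g h : GL (Fin n ⊕ Fin n) R} (hg : IsSim g) (hh : IsSim h) : IsSim (g * h) := by
  obtain ⟨a, hg⟩ := hg
  obtain ⟨b, hh⟩ := hh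
  exact ⟨a * b, sim_mul_aux hg hh⟩

theorem isSim_inv {g : GL (Fin n ⊕ Fin n) R} (hg : IsSim g) : IsSim g⁻¹ := by
  obtain ⟨a, hg⟩ := hg
  exact ⟨a⁻¹, sim_inv_aux hg⟩

/-- the group `GSp_{2n}(R)` -/
def gspG (n : ℕ) (R : Type) [CommRing R] : Subgroup (GL (Fin n ⊕ Fin n) R) where
  carrier := {g | IsSim g}
  one_mem' := isSim_one
  mul_mem' := isSim_mul
  inv_mem' := isSim_inv

/-- the condition `g J gᵀ = J` -/
def IsSymp (g : GL (Fin n ⊕ Fin n) R) : Prop := g.1 * J (Fin n) R * g.1ᵀ = J (Fin n) R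

theorem isSymp_iff {g : GL (Fin n ⊕ Fin n) R} :
    IsSymp g ↔ g.1 * J (Fin n) R * g.1ᵀ = (1 : Rˣ).1 • J (Fin n) R := by
  rw [Units.val_one, one_smul]
  rfl

theorem isSymp_one : IsSymp (1 : GL (Fin n ⊕ Fin n) R) := by
  rw [IsSymp]; simp

theorem isSymp_mul {g h : GL (Fin n ⊕ Fin n) R} (hg : IsSymp g) (hh : IsSymp h) :
    IsSymp (g * h) := by
  rw [isSymp_iff] at hg hh ⊢
  have := sim_mul_aux hg hh
  rwa [mul_one] at this

theorem isSymp_inv {g : GL (Fin n ⊕ Fin n) R} (hg : IsSymp g) : IsSymp g⁻¹ := by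
  rw [isSymp_iff] at hg ⊢
  have := sim_inv_aux hg
  rwa [inv_one] at this

/-- the group `Sp_{2n}(R)` -/
def spG (n : ℕ) (R : Type) [CommRing R] : Subgroup (GL (Fin n ⊕ Fin n) R) where
  carrier := {g | IsSymp g}
  one_mem' := isSymp_one
  mul_mem' := isSymp_mul
  inv_mem' := isSymp_inv

theorem Jmap (f : R →+* R') : (J (Fin n) R).map f = J (Fin n) R' := by
  ext i j
  rw [Matrix.map_apply, J, J]
  rcases i with i | i <;> rcases j with j | j
  · simp
  · rw [fromBlocks_apply₁₂, fromBlocks_apply₁₂, Matrix.neg_apply, Matrix.neg_apply,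
      Matrix.one_apply, Matrix.one_apply]
    split_ifs <;> simp
  · rw [fromBlocks_apply₂₁, fromBlocks_apply₂₁, Matrix.one_apply, Matrix.one_apply]
    split_ifs <;> simp
  · simp

theorem sim_map_aux (f : R →+* R') {g : GL (Fin n ⊕ Fin n) R} {a : R}
    (h : g.1 * J (Fin n) R * g.1ᵀ = a • J (Fin n) R) :
    (Matrix.GeneralLinearGroup.map f g).1 * J (Fin n) R' *
      (Matrix.GeneralLinearGroup.map f g).1ᵀ = f a • J (Fin n) R' := by
  change g.1.map f * J (Fin n) R' * (g.1.map f)ᵀ = f a • J (Fin n) R'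
  have h2 : (g.1 * J (Fin n) R * g.1ᵀ).map f = (a • J (Fin n) R).map f := by rw [h]
  rw [Matrix.map_mul, Matrix.map_mul, Jmap, transpose_map] at h2
  rw [h2]
  ext i j
  have h3 : f (J (Fin n) R i j) = J (Fin n) R' i j := by
    rw [← Jmap f, Matrix.map_apply]
  rw [Matrix.map_apply, Matrix.smul_apply, Matrix.smul_apply, smul_eq_mul, smul_eq_mul, map_mul,
    h3]

theorem gsp_map (f : R →+* R') (g : GL (Fin n ⊕ Fin n) R) (h : g ∈ gspG n R) :
    Matrix.GeneralLinearGroup.map f g ∈ gspG n R' := by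
  obtain ⟨a, h⟩ := h
  exact ⟨Units.map f.toMonoidHom a, sim_map_aux f h⟩

theorem sp_map (f : R →+* R') (g : GL (Fin n ⊕ Fin n) R) (h : g ∈ spG n R) :
    Matrix.GeneralLinearGroup.map f g ∈ spG n R' := by
  have h' : IsSymp g := h
  rw [isSymp_iff] at h'
  have h2 := sim_map_aux f h'
  change IsSymp _
  rw [isSymp_iff, h2, Units.val_one, Units.val_one, map_one]

/-- the group `GSp_{2n}` -/
def gspF (n : ℕ) : MG (Fin n ⊕ Fin n) where
  pts R _ := gspG n R
  map_mem f g h := gsp_map f g h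

/-- the group `Sp_{2n}` -/
def spF (n : ℕ) : MG (Fin n ⊕ Fin n) where
  pts R _ := spG n R
  map_mem f g h := sp_map f g h

end families

section adeles

set_option linter.unusedSectionVars false

variable {F : Type} [Field F] [NumberField F] {s : Type} [Fintype s] [DecidableEq s]

/-- entrywise membership in `N Ô` -/
def Dvd (N : ℕ) (M : Matrix s s (Af F)) : Prop := ∀ i j, DvdN N (M i j)

theorem Dvd.mul_int {N : ℕ} {A B : Matrix s s (Af F)} (hA : Dvd N A) (hB : Dvd 1 B) :
    Dvd N (A * B) := fun i j => by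
  classical
  rw [Matrix.mul_apply]
  exact Finset.sum_induction _ (DvdN N) (fun _ _ => DvdN.add) (dvdN_zero N)
    fun l _ => (hA i l).mul_int (hB l j)

theorem Dvd.add {N : ℕ} {A B : Matrix s s (Af F)} (hA : Dvd N A) (hB : Dvd N B) :
    Dvd N (A + B) := fun i j => (hA i j).add (hB i j)

theorem Dvd.int {N : ℕ} {A : Matrix s s (Af F)} (hA : Dvd N A) : Dvd 1 A := fun i j => (hA i j).int

theorem Dvd.one {N : ℕ} : Dvd N ((1 : Matrix s s (Af F)) - 1) := fun i j => by
  rw [sub_self]; exact dvdN_zero N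

theorem Dvd.one1 : Dvd 1 (1 : Matrix s s (Af F)) := fun i j => by
  rw [Matrix.one_apply]
  split_ifs
  · exact dvdN_one_one
  · exact dvdN_zero 1

theorem Dvd.key {N : ℕ} {A B : Matrix s s (Af F)} (hA : Dvd N (A - 1)) (hB : Dvd N (B - 1)) :
    Dvd N (A * B - 1) := by
  have e : A * B - 1 = (A - 1) * B + (B - 1) := by
    rw [sub_mul, one_mul]; abel
  rw [e]
  refine (hA.mul_int ?_).add hB
  have e2 : B = (B - 1) + 1 := by abel
  rw [e2]
  exact hB.int.add Dvd.one1

/-- `g` and `g⁻¹` are congruent to `1` modulo `N` -/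
def Cong (N : ℕ) (g : GL s (Af F)) : Prop := Dvd N (g.1 - 1) ∧ Dvd N (g⁻¹.1 - 1)

theorem cong_one {N : ℕ} : Cong N (1 : GL s (Af F)) := by
  refine ⟨Dvd.one, ?_⟩
  rw [inv_one]
  exact Dvd.one

theorem cong_mul {N : ℕ} {g h : GL s (Af F)} (hg : Cong N g) (hh : Cong N h) :
    Cong N (g * h) := by
  refine ⟨hg.1.key hh.1, ?_⟩
  rw [_root_.mul_inv_rev, Units.val_mul]
  exact hh.2.key hg.2

theorem cong_inv {N : ℕ} {g : GL s (Af F)} (hg : Cong N g) : Cong N g⁻¹ := by
  refine ⟨hg.2, ?_⟩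
  rw [inv_inv]
  exact hg.1

/-- the principal congruence subgroup of level `N` of `GL_s(Ô)` -/
def Ug (s : Type) [Fintype s] [DecidableEq s] (F : Type) [Field F] [NumberField F] (N : ℕ) :
    Subgroup (GL s (Af F)) where
  carrier := {g | Cong N g}
  one_mem' := cong_one
  mul_mem' := cong_mul
  inv_mem' := cong_inv

/-- the components of `g` at the places other than `v` are `1` -/
def At (v : Pl F) (g : GL s (Af F)) : Prop :=
  ∀ w, w ≠ v → ∀ i j, (g.1 i j) w = ((1 : Matrix s s (Af F)) i j) w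

/-- the component homomorphism -/
noncomputable def cmp (s : Type) [Fintype s] [DecidableEq s] (F : Type) [Field F] [NumberField F]
    (w : Pl F) : GL s (Af F) →* GL s (w.adicCompletion F) :=
  Matrix.GeneralLinearGroup.map (RestrictedProduct.evalRingHom _ w)

theorem cmp_apply (w : Pl F) (g : GL s (Af F)) (i j : s) :
    (cmp s F w g).1 i j = (g.1 i j) w := rfl

theorem at_iff {v : Pl F} {g : GL s (Af F)} : At v g ↔ ∀ w, w ≠ v → cmp s F w g = 1 := by
  refine forall_congr' fun w => forall_congr' fun _ => ?_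
  constructor
  · intro h
    refine Units.ext (Matrix.ext fun i j => ?_)
    rw [cmp_apply, h i j]
    change ((1 : Matrix s s (Af F)) i j) w = (1 : Matrix s s (w.adicCompletion F)) i j
    rw [Matrix.one_apply, Matrix.one_apply]
    split_ifs <;> rfl
  · intro h i j
    rw [← cmp_apply, h]
    change (1 : Matrix s s (w.adicCompletion F)) i j = ((1 : Matrix s s (Af F)) i j) w
    rw [Matrix.one_apply, Matrix.one_apply]
    split_ifs <;> rfl

theorem at_one {v : Pl F} : At v (1 : GL s (Af F)) := at_iff.2 fun w _ => map_one _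

theorem at_mul {v : Pl F} {g h : GL s (Af F)} (hg : At v g) (hh : At v h) : At v (g * h) :=
  at_iff.2 fun w hw => by rw [map_mul, at_iff.1 hg w hw, at_iff.1 hh w hw, one_mul]

theorem at_inv {v : Pl F} {g : GL s (Af F)} (hg : At v g) : At v g⁻¹ :=
  at_iff.2 fun w hw => by rw [map_inv, at_iff.1 hg w hw, inv_one]

/-- the subgroup `GL_s(O_v)` (components `1` at the other places) -/
def Kg (s : Type) [Fintype s] [DecidableEq s] (F : Type) [Field F] [NumberField F] (v : Pl F) :
    Subgroup (GL s (Af F)) where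
  carrier := {g | Cong 1 g ∧ At v g}
  one_mem' := ⟨cong_one, at_one⟩
  mul_mem' h h' := ⟨cong_mul h.1 h'.1, at_mul h.2 h'.2⟩
  inv_mem' h := ⟨cong_inv h.1, at_inv h.2⟩

/-- the principal congruence subgroup of level `N` of `X(Ô)` -/
noncomputable def MG.U (X : MG s) (F : Type) [Field F] [NumberField F] (N : ℕ) : Subgroup (X.pts (Af F)) :=
  (Ug s F N).subgroupOf (X.pts (Af F))

/-- the subgroup `X(O_v)` of the finite adelic points of `X` -/
noncomputable def MG.K (X : MG s) (F : Type) [Field F] [NumberField F] (v : Pl F) : Subgroup (X.pts (Af F)) :=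
  (Kg s F v).subgroupOf (X.pts (Af F))

/-- the diagonal embedding of the rational points -/
noncomputable def MG.d (X : MG s) (F : Type) [Field F] [NumberField F] :
    X.pts F →* X.pts (Af F) :=
  X.emb (algebraMap F (Af F))

/-- `t` is a diagonal matrix with the components `1` at the places other than `v` -/
def DiagAt (v : Pl F) (t : GL s (Af F)) : Prop := t.1.IsDiag ∧ At v t

/-- the component of `κ` at `v` has integral entries -/
def IntAt (v : Pl F) (κ : GL s (Af F)) : Prop := ∀ i j, Valued.v ((κ.1 i j) v) ≤ 1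

/-- A Hecke operator: a place `v` outside `S` and a diagonal matrix `t ∈ X₁` with the components `1`
at the places other than `v`, for the double coset `X(O_v) t X(O_v)`. -/
structure Ix (F : Type) [Field F] [NumberField F] (X X₁ : MG s) (S : Set (Pl F)) where
  v : Pl F
  t : X.pts (Af F)
  out : v ∉ S
  mem : MG.gl t ∈ X₁.pts (Af F)
  diag : DiagAt v (MG.gl t)

/-- the operator `T - deg T` for the Hecke operator `T` of the double coset -/
noncomputable def Ix.D {W : Type} [AddCommGroup W] {X X₁ : MG s} {S : Set (Pl F)}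
    (p : Ix F X X₁ S) (f : X.pts (Af F) → W) : X.pts (Af F) → W :=
  N.dl (X.K F p.v) p.t f

end adeles

/-- a subgroup `K` of `G` with an action on the abelian group `W` -/
structure Act (G W : Type) [Group G] [AddCommGroup W] where
  K : Subgroup G
  ρ : K →* AddMonoid.End W

/-- `u` is in `K` and acts trivially -/
def Act.Triv {G W : Type} [Group G] [AddCommGroup W] (A : Act G W) (u : G) : Prop :=
  ∃ h : u ∈ A.K, A.ρ ⟨u, h⟩ = 1

/-- `L` is contained in `K` and acts trivially -/
def Act.TrivOn {G W : Type} [Group G] [AddCommGroup W] (A : Act G W) (L : Subgroup G) : Prop :=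
  ∀ u ∈ L, A.Triv u

/-- `W` has elements of order two -/
def Two (W : Type) [AddCommGroup W] : Prop := ∃ w : W, w ≠ 0 ∧ w + w = 0

/-- the operators `D p` are zero on `H^0(Γ, M_W)` -/
def Zero0 {G H W I : Type} [Group G] [Group H] [AddCommGroup W] (ι : H →* G) (Γ : Subgroup H)
    (A : Act G W) (D : I → (G → W) → G → W) : Prop :=
  ∀ f ∈ N.MW A.K A.ρ, (∀ γ ∈ Γ, lt ι γ f = f) → ∀ p, D p f = 0

/-- the products of three of the operators `D p` are zero on `H^1(Γ, M_W)` -/
def Zero1 {G H W I : Type} [Group G] [Group H] [AddCommGroup W] (ι : H →* G) (Γ : Subgroup H)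
    (A : Act G W) (D : I → (G → W) → G → W) : Prop :=
  ∀ c, N.IsZ1 ι Γ (N.MW A.K A.ρ) c → ∀ p q r,
    N.IsB1 ι Γ (N.MW A.K A.ρ) fun γ => D p (D q (D r (c γ)))

section adeles

variable {F : Type} [Field F] [NumberField F] {s : Type} [Fintype s] [DecidableEq s]

/-- the elements of `K` have integral components at `v` -/
def IntOn {X : MG s} (v : Pl F) (K : Subgroup (X.pts (Af F))) : Prop :=
  ∀ κ ∈ K, IntAt v (MG.gl κ)

/-- `K` contains a principal congruence subgroup which acts trivially -/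
def Smooth {W : Type} [AddCommGroup W] {X : MG s} (A : Act (X.pts (Af F)) W) : Prop :=
  ∃ N : ℕ, 1 ≤ N ∧ A.TrivOn (X.U F N)

/-- for `v ∉ S` the component of `K` at `v` is `X(O_v)` and acts trivially -/
def Unram {W : Type} [AddCommGroup W] {X : MG s} (A : Act (X.pts (Af F)) W)
    (S : Set (Pl F)) : Prop :=
  ∀ v ∉ S, IntOn v A.K ∧ A.TrivOn (X.K F v)

/-- Let `Γ` be a subgroup of finite index of `X(F)`, `K` a subgroup of the finite adelic points of `X`
acting on the abelian group `W`, which contains a principal congruence subgroup acting trivially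
on `W`, `S` a set of places such that for `v ∉ S` the component of `K` at `v` is `X(O_v)` and acts
trivially, and (if `Bad` holds and `W` has elements of order two) the residue field of `v` has
more than two elements. Then for all Hecke operators `p`, `q`, `r` of elements of `X₁` at places
outside `S` (i) `p - deg p` is zero on `H^0(Γ, M_W)`, (ii) `(p - deg p) (q - deg q) (r - deg r)` is
zero on `H^1(Γ, M_W)`. -/
def Unip (F : Type) [Field F] [NumberField F] (X X₁ : MG s) (Bad : Prop) : Prop :=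
  ∀ (W : Type) [AddCommGroup W] (Γ : Subgroup (X.pts F)), Γ.FiniteIndex →
    ∀ (A : Act (X.pts (Af F)) W) (S : Set (Pl F)),
      Smooth A → Unram A S → (Bad → Two W → ∀ v ∉ S, qv v ≠ 2) →
      Zero0 (X.d F) Γ A (Ix.D (X₁ := X₁) (S := S)) ∧ Zero1 (X.d F) Γ A (Ix.D (X₁ := X₁) (S := S))

end adeles

end Q4.SPC.Pb
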