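import Pool.Agent.Q4.GLC.Main

/-!
# Statements of the lemma jobs for `GL_n` and `SL_n` (project SPC of helper4)

Definitions: `Gf F n = GL (Fin n) (Af F)`, `UN F n N` (principal congruence subgroups), `Kv n v`
(`GL_n(O_v)`, components `1` at the other places) are in `Pool/Agent/Q4/GLC/Defs.lean`.
-/

open IsDedekindDomain NumberField Matrix Q4.GLC

namespace Q4.SPC

/-- the components of `g` at the places other than `v` are `1` -/
def AtV {F : Type} [Field F] [NumberField F] {n : ℕ} (v : Pl F) (g : Gf F n) : Prop :=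
  ∀ w, w ≠ v → ∀ i j, (g.1 i j) w = ((1 : Matrix (Fin n) (Fin n) (Af F)) i j) w

/-- JOB LG: the decomposition of a matrix at a place.

Proof. As `tLoc` in `Pool/Agent/Q4/GLC/Loc.lean` (there only for special `h`) and
`Pool.Agent.Q238.SPC.SG`: `l` has the component of `g` at `v` and the components `1` at the other places,
`g' = g l⁻¹` has the component `1` at `v`. -/
def LG : Prop :=
  ∀ (F : Type) [Field F] [NumberField F] (n : ℕ) (v : Pl F) (g : Gf F n),
    (∀ i j, Valued.v ((g.1 i j) v) ≤ 1 ∧ Valued.v ((g⁻¹.1 i j) v) ≤ 1) →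
    ∃ g' : Gf F n, ∃ l ∈ Kv (F := F) n v, g = g' * l ∧
      (∀ h : Gf F n, AtV v h → g' * h = h * g') ∧ (g.1.det = 1 → l.1.det = 1)

/-- JOB LF: the double cosets at `v` consist of finitely many cosets.

Proof. As `Pool.Agent.Q158.SPC.SF` and `Pool.Agent.Q277.SPC.GF` (there for the symplectic groups): by
`SDen` there is `M ≥ 1` with `t⁻¹ u t ∈ UN F n 1` for `u ∈ UN F n M`, so `Kv n v ∩ UN F n M` fixes the
coset `t Kv`, and `Kv / (Kv ∩ UN M)` is finite. -/
def LF : Prop :=
  SDen → ∀ (F : Type) [Field F] [NumberField F] (n : ℕ) (v : Pl F) (t : Gf F n), AtV v t →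
    (MulAction.orbit (Kv (F := F) n v) (t : Gf F n ⧸ Kv (F := F) n v)).Finite

/-- JOB LP: the projective version of `SRed` (`Pool/Agent/Q4/GLC/Red.lean`, `Stm2.lean`): a projective
representation of a finite group in characteristic `ℓ`, in which the elements of a normal
subgroup with cyclic quotient have only one eigenvalue, is reducible.

Proof. For `g ∈ N` let `a_g ≠ 0` be the eigenvalue of `r g` and `u(g) = a_g⁻¹ r(g)`, a unipotent
matrix. `u(g) u(h) = c u(g h)` with `c ∈ k`, and taking determinants `c^n = 1`. Let `μ` be the group of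
the `n`-th roots of unity of `k`; its order is prime to `ℓ`. The matrices `ζ u(g)`, `ζ ∈ μ`, `g ∈ N`,
form a finite group `Ñ`, with the central subgroup `μ`, and `Ñ / μ` is an `ℓ`-group, as
`u(g) ^ (ℓ ^ a) = 1` for `ℓ ^ a ≥ n`. By Schur-Zassenhaus
(`Subgroup.exists_right_complement'_of_coprime`) `μ` has a complement `P`, an `ℓ`-group. If
`ζ u(g) ∈ P` then its eigenvalue `ζ` has `ℓ`-power order, so `ζ = 1`; hence `P = {u(g) | g ∈ N}`.
The space `V` of the fixed vectors of the `ℓ`-group `P` is not zero (characteristic `ℓ`), and it is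
stable under all `r g`, `g ∈ Q`, as `r(g) u(h) r(g)⁻¹` is unipotent and a multiple of `u(g h g⁻¹)`,
so equal to it. If `V` is not the whole space we are done. Otherwise `r h` is a scalar matrix
for all `h ∈ N`; let `g` generate `Q` modulo `N` and let `V'` be the line of an eigenvector of `r g`
(`k` is algebraically closed, `n ≥ 2`): every `r x` is a multiple of a power of `r g`. -/
def LP : Prop :=
  ∀ (k : Type) [Field k] [IsAlgClosed k] (ℓ : ℕ) [Fact ℓ.Prime] [CharP k ℓ] (n : ℕ), 2 ≤ n →
    ∀ (Q : Type) [Group Q] [Finite Q] (N : Subgroup Q) [N.Normal], IsCyclic (Q ⧸ N) →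
    ∀ r : Q → GL (Fin n) k, (∀ g h, ∃ c : k, (r (g * h)).1 = c • ((r g).1 * (r h).1)) →
    (∀ g ∈ N, ∃ a : k, (r g).1.charpoly = (Polynomial.X - Polynomial.C a) ^ n) →
    ∃ V : Submodule k (Fin n → k), V ≠ ⊥ ∧ V ≠ ⊤ ∧ ∀ g, ∀ w ∈ V, (r g).1.mulVec w ∈ V

end Q4.SPC
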