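import Pool.Agent.Q4.SPC.El
import Pool.Agent.Q4.GLC.Stm

/-!
# Statements of the lemma jobs of the project SPC (helper4, MP_34be05_nt, symplectic groups)

Notation: vectors are functions on `Fin n ⊕ Fin n`, written `(x; y) = Sum.elim x y`; `e_k` is
`Pi.single (Sum.inl k) 1`, `f_k` is `Pi.single (Sum.inr k) 1`. The elements `up S`, `lo S`,
`lvt i j b`, their products, inverses, conjugates and their action on vectors are in
`Pool/Agent/Q4/SPC/El.lean` (`up S`: x ↦ x + S y; `lo S`: y ↦ y + S x; `lvt i j b`: x_i ↦ x_i + b x_j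
and y_j ↦ y_j - b y_i). `IsEl a g` (file `Defs.lean`) says that `g` is one of these with parameter
divisible by `a` (`isEl_up`, `isEl_lo`, `isEl_lvt` in `El.lean`).
-/

open IsDedekindDomain NumberField Matrix Q4.GLC

namespace Q4.SPC

/-- `g` fixes the basis vectors `e_i` and `f_i` with `i < k` -/
def FixLt {R : Type} [CommRing R] {n : ℕ} (k : ℕ) (g : Sp n R) : Prop :=
  ∀ i : Fin n, i.1 < k → g.1 *ᵥ Pi.single (Sum.inl i) 1 = Pi.single (Sum.inl i) 1 ∧
    g.1 *ᵥ Pi.single (Sum.inr i) 1 = Pi.single (Sum.inr i) 1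

/-- JOB SA1: over a ring with stable range one a unimodular vector whose coordinates `x_i`, `y_i`
with `i < k` are zero is brought to `e_k` by elementary symplectic matrices which fix `e_i`, `f_i`,
`i < k`.

Proof. All matrices used are `up S`, `lo S` with `S` supported on indices `≥ k`, and `lvt i j b`
with `i, j ≥ k`; they fix `e_i`, `f_i` for `i < k`. Let `1 = ∑ (α_i x_i + β_i y_i)`, `i ≥ k`.
(1) `SR1` (for `α_k x_k + 1 * b = 1`, `b = ∑_{i>k} α_i x_i + ∑_{i≥k} β_i y_i`) gives `t` with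
`u = x_k + t b` a unit. Apply `lvt k i (t α_i)` for all `i > k` (this adds `∑ t α_i x_i` to `x_k`
and changes `y_i` to `y_i - t α_i y_k`), then `up S` with `S_kk = t β_k + ∑_{i>k} t β_i t α_i`,
`S_ki = S_ik = t β_i` (`i > k`), all other entries `0`: now `x_k = u`.
(2) apply `lvt i k (- x_i u⁻¹)` for `i > k`: now `x_i = 0` for `i > k`; apply `lo S` with
`S_ik = S_ki = - y_i u⁻¹`, other entries `0`: now the vector is `u e_k`.
(3) apply `lo ((1 - u) u⁻¹ E_kk)`, `up (E_kk)`, `lo (-(1 - u) E_kk)`: now the vector is `e_k`. -/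
def SA1 : Prop :=
  ∀ (R : Type) [CommRing R], SR1 R → ∀ (n : ℕ) (k : Fin n) (v c : Fin n ⊕ Fin n → R),
    (∀ i : Fin n, i.1 < k.1 → v (Sum.inl i) = 0 ∧ v (Sum.inr i) = 0) → c ⬝ᵥ v = 1 →
    ∃ z ∈ Subgroup.closure {x : Sp n R | IsEl 1 x}, FixLt k.1 z ∧
      z.1 *ᵥ v = Pi.single (Sum.inl k) 1

/-- JOB SA2: over a ring with stable range one the symplectic group is generated by the elementary
symplectic matrices.

Proof. Let `E` be the subgroup generated by them. By induction on `k ≤ n` there is `z ∈ E` with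
`FixLt k (z * g)`; for `k = n` this means `z * g = 1`. Step: let `M = z * g`, `FixLt k M`, `k < n`.
The vector `v = M e_k` is unimodular (take for `c` the row `inl k` of `M⁻¹`) and `v_i = 0` for the
coordinates `x_i`, `y_i` with `i < k` (from `Mᵀ J M = J`, `SymplecticGroup.mem_iff'`, applied to
`e_i, e_k` and to `f_i, e_k`). `SA1` gives `z₁ ∈ E` with `FixLt k z₁`, `z₁ M e_k = e_k`. Let
`M₁ = z₁ M` and `w = M₁ f_k = (x; y)`: again `x_i = y_i = 0` for `i < k`, and `y_k = 1` (from
`Mᵀ J M = J` for `e_k, f_k`). Apply `lvt k i (y_i)` for all `i > k` (now `y_i = 0`; `e_k` is fixed),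
then `up S` with `S_kk = - x_k`, `S_ik = S_ki = - x_i` (`i > k`), other entries `0` (now `w = f_k`;
`e_k` is fixed). All matrices used satisfy `FixLt k`. -/
def SA2 : Prop :=
  SA1 → ∀ (R : Type) [CommRing R], SR1 R → ∀ (n : ℕ) (g : Sp n R),
    g ∈ Subgroup.closure {x : Sp n R | IsEl 1 x}

/-- the statement proved by `SA1` and `SA2` -/
def SA : Prop :=
  ∀ (R : Type) [CommRing R], SR1 R → ∀ (n : ℕ) (g : Sp n R),
    g ∈ Subgroup.closure {x : Sp n R | IsEl 1 x}

/-- JOB SB: for `n ≥ 2` and `c` divisible by `2`, the elementary symplectic matrices with parameters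
divisible by `c ^ 3` are products of commutators of matrices congruent to `1` modulo `c`.

Proof. `⁅P, P⁆` is normal in `Sp n R` since `P` is, so only `IsEl (c ^ 3) x → x ∈ ⁅P, P⁆` is needed.
Below `i ≠ j`. Formulas (check with `lv_up`, `fromBlocks_multiply`; all the parameters `s, t` are
multiples of `c`, so that the factors are in `P`):
(1) `[lvt i j s, up (t (E_ij + E_ji))] = up (2 s t E_ii)`, as `g S gᵀ = S + 2 s t E_ii`;
(2) `[lvt i j s, up (t E_jj)] = up (s t (E_ij + E_ji) + s² t E_ii)`;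
(3) `[up (s (E_ij + E_ji)), lo (t E_jj)] = lvt i j (s t) * up (- s² t E_ii)`.
Let `c = 2 d`. (1) with `s = c`, `t = c d b`: `up (c³ b E_ii) ∈ ⁅P, P⁆` for all `b`. (2) with `s = c`,
`t = c² b` and the previous: `up (c³ b (E_ij + E_ji)) ∈ ⁅P, P⁆`. Every `c³ S`, `S` symmetric, is a sum of
such matrices, so `up (c³ S) ∈ ⁅P, P⁆`. Conjugation with `symJ` (`symJ_up`): `lo (c³ S) ∈ ⁅P, P⁆`.
(3) with `s = c`, `t = c² b`: `lvt i j (c³ b) ∈ ⁅P, P⁆`. -/
def SB : Prop :=
  ∀ (R : Type) [CommRing R] (n : ℕ), 2 ≤ n → ∀ (c d : R), c = 2 * d →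
    ∀ (P : Subgroup (Sp n R)), (∀ g, g ∈ P ↔ Cg c g) → P.Normal → ES n R (c ^ 3) ≤ ⁅P, P⁆

/-- JOB SCR: Chinese remainder with the values `0` and `1`.

Proof. Only finitely many maximal ideals contain `I ≠ 0` (`Ideal.finite_factors` or
`IsDedekindDomain`), they are pairwise coprime; `Ideal.exists_forall_sub_mem_ideal` or
`IsDedekindDomain.exists_forall_sub_mem_ideal`. -/
def SCR : Prop :=
  ∀ (R : Type) [CommRing R] [IsDomain R] [IsDedekindDomain R] (I : Ideal R), I ≠ ⊥ →
    ∀ P : Ideal R → Prop, ∃ s : R, ∀ p : Ideal R, p.IsMaximal → I ≤ p →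
      (P p → s ∈ p) ∧ (¬ P p → s - 1 ∈ p)

/-- JOB SC1: reduction of unimodular vectors congruent to `e_0` modulo `a` over a Dedekind domain.

Proof. Indices `0, 1, …, n-1`, `v = (x; y)`. All matrices used are in `ES n R a`, so `v` stays
congruent to `e_0` modulo `a` and unimodular; `x_0 ≠ 0` always as `x_0 ≡ 1` modulo the non-unit `a`.
(a) If all coordinates except `x_0, y_0` are zero apply `lo (a (E_01 + E_10))`: now `y_1 = a x_0 ≠ 0`.
Let `I ≠ 0` be the ideal generated by all coordinates except `x_0, y_0`.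
(b) (by `SCR`) There is `s` with `x_0 + a s y_0` not in any maximal ideal `p ⊇ I` (finitely many; Chinese
remainder: for `p ∋ a` any `s`; else, as `(x_0, y_0)` is not zero mod `p`, take `s ≡ 0` if `x_0 ∉ p`,
`s ≡ 1` if `x_0 ∈ p`). Apply `up (a s E_00)`. Now `x_0` and the coordinates other than `x_0, y_0`
generate `R`.
(c) Let `p` run over the (finitely many) maximal ideals containing `x_0`; `a ∉ p`. Chinese remainder
gives `p_j` (`j ≥ 2`), `q_j` (`j ≥ 1`) such that `x_1 + ∑ a p_j x_j + ∑ a q_j y_j` is in none of them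
(all coefficients `0` mod `p` if `x_1 ∉ p`; else one coefficient `1` mod `p` at a coordinate not in
`p`, the others `0`). Apply `lvt 1 j (a p_j)` (`j ≥ 2`), then `up S` with
`S_11 = a q_1 + ∑_{j≥2} a q_j a p_j`, `S_1j = S_j1 = a q_j` (`j ≥ 2`), other entries `0` (compare
`SA1`). `x_0` is not changed. Now `x_0, x_1` generate `R`: `c₀ x_0 + c₁ x_1 = 1`, `c = (c₀, c₁, 0, …)`.
(d) Let `z = (1 - x_0) e_0 - y ∈ a Rⁿ` and `S = z cᵀ + c zᵀ - (x ⬝ z) c cᵀ`: symmetric, entries in
`a R`, `S x = z`. Apply `lo S`: now `y = (1 - x_0) e_0`.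
(e) Let `h = up E_00` (parameter `1`): `h v = (1, x_1, …, x_{n-1}; 1 - x_0, 0, …, 0)`. Apply
`lvt i 0 (- x_i)` for `i ≥ 1` and then `lo (-(1 - x_0) E_00)`: the result is `e_0`; their product `z`
is in `ES n R a`, so `h⁻¹ z h ∈ ES n R a` and `h⁻¹ z h v = h⁻¹ e_0 = e_0`. -/
def SC1 : Prop :=
  SCR → ∀ (R : Type) [CommRing R] [IsDomain R] [IsDedekindDomain R] (n : ℕ), 2 ≤ n →
    ∀ (i0 : Fin n),
    i0.1 = 0 → ∀ (a : R), a ≠ 0 → ¬ IsUnit a → ∀ (v c : Fin n ⊕ Fin n → R), c ⬝ᵥ v = 1 →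
    (∀ i, a ∣ v i - (Pi.single (Sum.inl i0) 1 : Fin n ⊕ Fin n → R) i) →
    ∃ x ∈ ES n R a, x.1 *ᵥ v = Pi.single (Sum.inl i0) 1

/-- JOB SC2: reduction of the size of congruence symplectic matrices over a Dedekind domain.

Proof. `SC1` for `v = g e_0` (unimodular: `c` = row `inl 0` of `g⁻¹`) gives `x₁ ∈ ES n R a` with
`x₁ g e_0 = e_0`. Elements of `ES n R a` are congruent to `1` modulo `a` (so is `x₁ g`). Let
`w = x₁ g f_0 = (x; y)`: `y_0 = 1` (from `Mᵀ J M = J`), `x_i ∈ a R`, `y_i ∈ a R` (`i ≥ 1`). Apply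
`lvt 0 i (y_i)`, `i ≥ 1` (now `y = e_0`; fixes `e_0`), then `up S` with `S_00 = - x_0`,
`S_0i = S_i0 = - x_i`, other entries `0` (now `w = f_0`; fixes `e_0`). -/
def SC2 : Prop :=
  SCR → SC1 → ∀ (R : Type) [CommRing R] [IsDomain R] [IsDedekindDomain R] (n : ℕ), 2 ≤ n →
    ∀ (i0 : Fin n), i0.1 = 0 → ∀ (a : R), a ≠ 0 → ¬ IsUnit a → ∀ g : Sp n R, Cg a g →
    ∃ x ∈ ES n R a, FixLt 1 (x * g)

/-- JOB SD: `Sp_{2n}(F)` is normally generated by the long root subgroup `up (b E_00)`.

Proof. Fields have stable range one (`SR1`), so by `SA` it is enough that `IsEl 1 x → x ∈ P`.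
`up (b w wᵀ) ∈ P` for `w = g e_0`, `g` invertible, by `lv_up` (`P` is normal): for `w = e_i` (`g` a
permutation matrix, or `1` for `i = 0`) and `w = e_i + e_j`, `i ≠ j` (`g` = transvection times
permutation matrix). As `(e_i + e_j)(e_i + e_j)ᵀ = E_ii + E_jj + E_ij + E_ji`, all `up (b E_ii)` and
`up (b (E_ij + E_ji))` are in `P`, hence all `up S`; `lo S` by `symJ_up`; finally
`lvt i j b = up S * lo T * up (-S) * lo (-T) * up (b E_ii)`, `S = E_ij + E_ji`, `T = b E_jj`. -/
def SD : Prop :=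
  SA → ∀ (F : Type) [Field F] (n : ℕ) (i0 : Fin n), i0.1 = 0 → ∀ P : Subgroup (Sp n F), P.Normal →
    (∀ (b : F) (h : (Matrix.diagonal (Pi.single i0 b) : Matrix (Fin n) (Fin n) F)ᵀ =
      Matrix.diagonal (Pi.single i0 b)), up (Matrix.diagonal (Pi.single i0 b)) h ∈ P) → P = ⊤

/-- JOB SE1: elementary symplectic matrices are products of commutators.

Proof. Let `C` be the commutator subgroup. Formulas (`i, j, k` distinct):
(1) `[lvt i j s, up (t E_jj)] = up (s t (E_ij + E_ji) + s² t E_ii)`;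
(2) `[lvt i j s, up (t (E_jk + E_kj))] = up (s t (E_ik + E_ki))` (needs `n ≥ 3`);
(3) `[up (E_ij + E_ji), lo (b E_jj)] = lvt i j b * up (- b E_ii)`.
If there is `u` with `u`, `u - 1` units: (1) for `(s, t) = (1, b)` and for `(u, u⁻¹ b)` have the same
short part, so the quotient `up ((1 - u) b E_ii) ∈ C`: all `up (b E_ii) ∈ C`, and with (1), `s = 1`,
all `up (b (E_ij + E_ji)) ∈ C`. If `n ≥ 3`: (2) gives all `up (b (E_ij + E_ji)) ∈ C` and (1), `s = 1`,
all `up (b E_ii) ∈ C`. So all `up S ∈ C`; `lo S` by `symJ_up`; `lvt i j b` by (3). -/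
def SE1 : Prop :=
  ∀ (R : Type) [CommRing R] (n : ℕ), 2 ≤ n → (n = 2 → ∃ u : R, IsUnit u ∧ IsUnit (u - 1)) →
    ∀ x : Sp n R, IsEl 1 x → x ∈ commutator (Sp n R)

/-- JOB SE2: additive functions on `Sp_{2n}(O_v)` vanish.

Proof. Compare `Pool/Agent/Q4/GLC/Per.lean` (the case of `SL_n`) and `Pool/Agent/Q4/GLC/Loc.lean`.
Extension by `1` outside `v` gives a homomorphism `Sp n (v.adicCompletionIntegers F) →* Sp n (Af F)`
with image `KS F n v`. The local ring `O_v` has stable range one; if `n = 2` the residue field has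
more than two elements, so `O_v` has a unit `u` with `u - 1` a unit (take `u ∈ 𝓞 F` not congruent
to `0`, `1` modulo `v`). By `SA` and `SE1` the group `Sp n O_v` is perfect, and an additive function
on it vanishes on commutators. -/
def SE2 : Prop :=
  SA → SE1 → ∀ (F : Type) [Field F] [NumberField F] (n : ℕ), 2 ≤ n → ∀ (v : Pl F),
    (n = 2 → qv v ≠ 2) → ∀ (A : Type) [AddCommGroup A] (φ : Sp n (Af F) → A),
    (∀ g ∈ KS F n v, ∀ h ∈ KS F n v, φ (g * h) = φ g + φ h) → ∀ g ∈ KS F n v, φ g = 0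

/-- JOB SF: the double cosets at `v` consist of finitely many cosets.

Proof. As in `GLC/Den.lean` there is `M ≥ 1` with `t⁻¹ u t ∈ US F n 1` for all `u ∈ US F n M`. So
`u ∈ KS F n v ∩ US F n M` fixes the coset `t KS`, and the orbit has at most as many elements as
`KS / (KS ∩ US M)`, which is finite, because `g ∈ KS` modulo `US M` is determined by the residues
modulo `M O_v` of the entries of `g_v` and `O_v / M O_v` is finite (compare `GLC/Cnt.lean`,
`GLC/Fin.lean`, where the same is proved for `GL_n`; `Sp n` may be embedded in `GL (Fin (n + n))`). -/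
def SF : Prop :=
  ∀ (F : Type) [Field F] [NumberField F] (n : ℕ) (v : Pl F) (t : Sp n (Af F)), AtPl v t →
    (MulAction.orbit (KS F n v) (t : Sp n (Af F) ⧸ KS F n v)).Finite

/-- JOB SG: the decomposition of a matrix at a place (as in `GLC/Loc.lean`).

Proof. `l` has the component `g_v` at `v` and `1` at the other places, `g' = g l⁻¹` has the
component `1` at `v`; the inverse of a symplectic matrix with integral entries has integral
entries (`coe_inv`). -/
def SG : Prop :=
  ∀ (F : Type) [Field F] [NumberField F] (n : ℕ) (v : Pl F) (g : Sp n (Af F)),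
    (∀ i j, Valued.v ((g.1 i j) v) ≤ 1) →
    ∃ g' : Sp n (Af F), ∃ l ∈ KS F n v, g = g' * l ∧ ∀ h : Sp n (Af F), AtPl v h → g' * h = h * g'

/-- JOB SI: denominators (as in `GLC/Den.lean`). -/
def SI : Prop :=
  ∀ (F : Type) [Field F] [NumberField F] (n : ℕ) (g : Sp n (Af F)) (N : ℕ), 1 ≤ N →
    ∃ M : ℕ, 1 ≤ M ∧ N ∣ M ∧ ∀ u ∈ US F n M, g * u * g⁻¹ ∈ US F n N

/-- JOB SH: strong approximation for the symplectic group.

Proof. The finite adeles have stable range one (`SSra`), so by `SA` it is enough to prove the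
statement (for all `M`) for elementary `s` and to show that it passes to products and inverses.
`s = up S`: choose `S'` symmetric over `F` with `S - S'` entrywise in `M Ô` (`SApp`), `γ = up S'`; the
same for `lo`, `lvt`. Products: given `s, s', M` choose `γ'` for `s', M`, then by `SI` `M'` with
`γ'⁻¹ US(M') γ' ⊆ US(M)` and `γ` for `s, M'`: `(γ γ')⁻¹ s s' = γ'⁻¹ (γ⁻¹ s) γ' · (γ'⁻¹ s')`. Inverses:
the set of elementary matrices is closed under inverses. -/
def SH : Prop :=
  SA → SSra → SApp → SI → ∀ (F : Type) [Field F] [NumberField F] (n : ℕ) (s : Sp n (Af F)) (M : ℕ),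
    1 ≤ M → ∃ γ : Sp n F, (dS F n γ)⁻¹ * s ∈ US F n M

/-- JOB SO: representations of finite groups in odd orthogonal groups have an invariant isotropic
line, if the elements of a normal subgroup with cyclic quotient are unipotent.

Proof. `N` acts unipotently (all eigenvalues `1`), so its image is an `ℓ`-group (an element of
order prime to `ℓ` is diagonalizable with eigenvalues `1`, hence trivial). Claim: every nonzero
`Q`-stable subspace `U` contains an eigenvector of `Q` on which `N` acts trivially: `U^N ≠ 0` (an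
`ℓ`-group acting on a nonzero space of characteristic `ℓ` has fixed vectors), it is `Q`-stable,
`Q / N` is cyclic and `k` is algebraically closed. If some such eigenvector `w` is isotropic we are
done. Otherwise, taking `U = kᵐ`, `U = w₁^⊥`, `U = {w₁, w₂}^⊥` (nonzero as `3 ≤ m`) we get
pairwise orthogonal anisotropic eigenvectors `w₁, w₂, w₃`, fixed by `N`. A generator `g` of `Q / N`
acts on `w_i` by `ε_i` with `ε_i² = 1`, as `B(g w_i, g w_i) = B(w_i, w_i)`. Two of the three signs are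
equal, say `ε_1 = ε_2`; then `w = w₁ + c w₂` with `c² = - B(w₁, w₁) / B(w₂, w₂)` is an isotropic
eigenvector. -/
def SO : Prop :=
  ∀ (k : Type) [Field k] [IsAlgClosed k] (ℓ : ℕ) [Fact ℓ.Prime] [CharP k ℓ] (m : ℕ), 3 ≤ m →
    ∀ (Q : Type) [Group Q] [Finite Q] (N : Subgroup Q) [N.Normal], IsCyclic (Q ⧸ N) →
    ∀ (B : Matrix (Fin m) (Fin m) k), Bᵀ = B → IsUnit B.det →
    ∀ ρ : Q →* GL (Fin m) k, (∀ g, (ρ g).1ᵀ * B * (ρ g).1 = B) →
    (∀ g ∈ N, (ρ g).1.charpoly = (Polynomial.X - Polynomial.C 1) ^ m) →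
    ∃ w : Fin m → k, w ≠ 0 ∧ w ⬝ᵥ (B *ᵥ w) = 0 ∧ ∀ g, ∃ a : k, (ρ g).1 *ᵥ w = a • w

end Q4.SPC
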