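import Pool.Agent.Q4.SPC.Mach
import Pool.Agent.Q4.SPC.Stm

/-!
# Statements of the last lemma jobs of the project SPC (helper4): transport along isomorphisms and
subgroups of finite index
-/

open IsDedekindDomain NumberField Matrix Q4.GLC

namespace Q4.SPC

/-- JOB HS1: `Sp_{2n}(F)` has no proper subgroup of finite index.

Proof. The normal core of `Γ` has a finite index `m ≥ 1` and contains all `m`-th powers
(`Subgroup.pow_index_mem`). Fields have stable range one (`Q211.GLC.sr1_field`), so by `SA` it is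
enough that every elementary matrix (`IsEl 1 x`) is an `m`-th power of an elementary matrix with the
parameter divided by `m` (`up_mul`, `lo_mul`, `lvt_mul`; compare `Pool.Agent.Q109.SPC.GS`). -/
def HS1 : Prop :=
  SA → ∀ (F : Type) [Field F] [NumberField F] (n : ℕ) (Γ : Subgroup (Sp n F)), Γ.FiniteIndex → Γ = ⊤

/-- JOB HS2: `SL_n(F)` has no proper subgroup of finite index.

Proof. As `HS1`, with transvections: `SSre` and `Q211.GLC.sr1_field`; compare `tSlf` in
`Pool/Agent/Q4/GLC/Slf.lean`, where subgroups of finite index of `GL_n(F)` are treated. -/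
def HS2 : Prop :=
  SSre → ∀ (F : Type) [Field F] [NumberField F] (n : ℕ)
    (Γ : Subgroup ↥(Matrix.GeneralLinearGroup.det : GQ F n →* Fˣ).ker), Γ.FiniteIndex → Γ = ⊤

/-- JOB TR: transport of the structure `M.Sys` along isomorphisms.

Proof. Every field of the structure is transported: for `cen` use the function `φ' ∘ eH.symm`, for
`fin` the image of `X` under `e.symm` (`Finset.map`). -/
def TR : Prop :=
  ∀ (G G' H H' D D' : Type) [Group G] [Group G'] [Group H] [Group H'] [CommGroup D]
    [CommGroup D'] (ι : H →* G) (Γ : Subgroup H) (det : G →* D) (U : ℕ → Subgroup G)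
    (ι' : H' →* G') (Γ' : Subgroup H') (det' : G' →* D') (U' : ℕ → Subgroup G')
    (e : G' ≃* G) (eH : H' ≃* H), (∀ h, e (ι' h) = ι (eH h)) → (∀ h, h ∈ Γ' ↔ eH h ∈ Γ) →
    (∀ g, det' g = 1 ↔ det (e g) = 1) → (∀ N g, g ∈ U' N ↔ e g ∈ U N) →
    M.Sys ι Γ det U → M.Sys ι' Γ' det' U'

/-- the properties of the local group `L` and of the element `t`; `P` is a property of elements
of `G` (integrality at a place) -/
structure Lc (W : Type) [AddCommGroup W] {G D : Type} [Group G] [CommGroup D] (P : G → Prop)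
    (det : G →* D) (L : Subgroup G) (t : G) : Prop where
  dec : ∀ κ, P κ → ∃ κ' : G, ∃ l ∈ L, κ = κ' * l ∧ (∀ h ∈ L, κ' * h = h * κ') ∧ κ' * t = t * κ'
  fin : (MulAction.orbit L (t : G ⧸ L)).Finite
  rep : ∀ l ∈ L, ∃ l' ∈ L, det l' = 1 ∧ ((l' * t : G) : G ⧸ L) = ((l * t : G) : G ⧸ L)
  per : ∀ φ : G → (G → W),
    (∀ g ∈ L, ∀ h ∈ L, det g = 1 → det h = 1 → φ (g * h) = φ g + φ h) →
    ∀ g ∈ L, det g = 1 → φ g = 0
  one : det t = 1

/-- JOB TL: transport of the structure `Lc` along an isomorphism.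

Proof. Every field is transported; for `per` use the function
`fun g x => φ' (e.symm g) (e.symm x)`; for `fin` the bijection `G' ⧸ L' ≃ G ⧸ L` given by `e` maps the
orbit to the orbit; cosets: `QuotientGroup.eq`. -/
def TL : Prop :=
  ∀ (W : Type) [AddCommGroup W] (G G' D D' : Type) [Group G] [Group G'] [CommGroup D]
    [CommGroup D'] (P : G → Prop) (det : G →* D) (L : Subgroup G) (t : G)
    (P' : G' → Prop) (det' : G' →* D') (L' : Subgroup G') (t' : G') (e : G' ≃* G),
    (∀ g, P' g → P (e g)) → (∀ g, det' g = 1 ↔ det (e g) = 1) → (∀ g, g ∈ L' ↔ e g ∈ L) →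
    e t' = t → Lc W P det L t → Lc W P' det' L' t'

end Q4.SPC
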