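import Pool.Agent.Q4.SPC.Pub
import Pool.Agent.Q4.SPC.Nil
import Pool.Agent.Q4.SPC.Main
import Pool.Agent.Q4.SPC.Stm4
import Pool.Agent.Q4.SPC.Stm5

/-!
# Assembly for the classical groups (helper4, project SPC): the criterion and the symplectic groups
-/

open IsDedekindDomain NumberField Matrix Q4.GLC

set_option linter.unusedVariables false

namespace Q4.SPC.Pb

variable {F : Type} [Field F] [NumberField F] {s : Type} [Fintype s] [DecidableEq s]

/-- the component of `g` at `v` has integral entries, and its inverse -/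
def Int2 {X : MG s} (v : Pl F) (g : X.pts (Af F)) : Prop := IntAt v g.1 ∧ IntAt v g⁻¹.1

theorem unip_of {X X₁ : MG s} {Bad : Prop} {D : Type} [CommGroup D] (det : X.pts (Af F) →* D)
    (hdet : ∀ t : X.pts (Af F), t.1 ∈ X₁.pts (Af F) → det t = 1)
    (hsys : ∀ Γ : Subgroup (X.pts F), Γ.FiniteIndex → M.Sys (X.d F) Γ det (X.U F))
    (hloc : ∀ (W : Type) [AddCommGroup W] (v : Pl F) (t : X.pts (Af F)),
      (Bad → Two W → qv v ≠ 2) → DiagAt v t.1 → det t = 1 →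
      Lc W (Int2 v) det (X.K F v) t) :
    Unip F X X₁ Bad := by
  rintro W _ Γ hΓ ⟨K, ρ⟩ S hK hS hB
  have hHd : ∀ p : Ix F X X₁ S, N.Hd K ρ det (X.K F p.v) p.t := fun p => by
    have hp := hloc W p.v p.t (fun h1 h2 => hB h1 h2 p.v p.out) p.diag (hdet _ p.mem)
    exact
      { le := fun u hu => ((hS p.v p.out).2 u hu).1
        triv := fun κ hκ => ((hS p.v p.out).2 κ.1 hκ).2
        dec := fun κ hκ => hp.dec κ ⟨(hS p.v p.out).1 κ hκ, (hS p.v p.out).1 κ⁻¹ (K.inv_mem hκ)⟩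
        fin := hp.fin
        rep := hp.rep
        per := hp.per
        one := hp.one }
  exact ⟨fun f hf hΓf p => N.nil0 (hsys Γ hΓ) hK (hHd p) hf hΓf,
    fun c hc p q r => N.nil1 (hsys Γ hΓ) hK (hHd r) (hHd q) (hHd p) hc⟩

section symplectic

variable {n : ℕ} {R : Type} [CommRing R]

/-- `Sp_{2n}` as a group of invertible matrices -/
def eS (n : ℕ) (R : Type) [CommRing R] : (spF n).pts R ≃* Sp n R where
  toFun g := ⟨g.1.1, g.2⟩
  invFun g := ⟨MonoidHom.toHomUnits (symplecticGroup (Fin n) R).subtype g, g.2⟩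
  left_inv g := Subtype.ext (Units.ext rfl)
  right_inv g := Subtype.ext rfl
  map_mul' g h := Subtype.ext rfl

theorem eS_val (g : (spF n).pts R) : (eS n R g).1 = g.1.1 := rfl

/-- the homomorphism from the pairs to the matrices -/
def pG (n : ℕ) (R : Type) [CommRing R] : GSp n R →* (gspF n).pts R where
  toFun g := ⟨g.1.1, g.1.2, g.2⟩
  map_one' := rfl
  map_mul' g h := rfl

theorem J_entry (i : Fin n) : J (Fin n) R (Sum.inr i) (Sum.inl i) = 1 := by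
  simp [J]

theorem sim_eq {g : GL (Fin n ⊕ Fin n) R} {a : R}
    (h : g.1 * J (Fin n) R * g.1ᵀ = a • J (Fin n) R) (i : Fin n) :
    a = (g.1 * J (Fin n) R * g.1ᵀ) (Sum.inr i) (Sum.inl i) := by
  rw [h, Matrix.smul_apply, J_entry, smul_eq_mul, mul_one]

theorem pG_bij (hn : 1 ≤ n) : Function.Bijective (pG n R) := by
  constructor
  · intro g h e
    have e1 : g.1.1 = h.1.1 := congrArg Subtype.val e
    have h1 := sim_eq g.2 ⟨0, hn⟩
    have h2 := sim_eq h.2 ⟨0, hn⟩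
    rw [← e1, ← h1] at h2
    exact Subtype.ext (Prod.ext e1 (Units.ext h2.symm))
  · rintro ⟨g, a, h⟩
    exact ⟨⟨(g, a), h⟩, rfl⟩

/-- `GSp_{2n}` as a group of invertible matrices -/
noncomputable def eG (n : ℕ) (hn : 1 ≤ n) (R : Type) [CommRing R] : (gspF n).pts R ≃* GSp n R :=
  (MulEquiv.ofBijective (pG n R) (pG_bij hn)).symm

theorem eG_val (hn : 1 ≤ n) (g : (gspF n).pts R) : (eG n hn R g).1.1 = g.1 := by
  have h : pG n R (eG n hn R g) = g :=
    (MulEquiv.ofBijective (pG n R) (pG_bij hn)).apply_symm_apply g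
  exact congrArg Subtype.val h

end symplectic

/-! ### the symplectic groups -/

variable {n : ℕ}

theorem fin_map {G G' : Type} [Group G] [Group G'] (e : G ≃* G') (Γ : Subgroup G)
    (h : Γ.FiniteIndex) : (Γ.map e.toMonoidHom).FiniteIndex := ⟨by
  rw [Subgroup.index_map_of_bijective e.bijective]
  exact h.index_ne_zero⟩

theorem mem_map_e {G G' : Type} [Group G] [Group G'] (e : G ≃* G') (Γ : Subgroup G) (x : G) :
    x ∈ Γ ↔ e x ∈ Γ.map e.toMonoidHom := by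
  constructor
  · intro h
    exact ⟨x, h, rfl⟩
  · rintro ⟨y, hy, h⟩
    have : y = x := e.injective h
    rwa [← this]

theorem eS_mul_inv (g : (spF n).pts (Af F)) : (eS n (Af F) g)⁻¹.1 = g.1⁻¹.1 := by
  rw [← map_inv]
  rfl

theorem eS_U (N : ℕ) (g : (spF n).pts (Af F)) : g ∈ (spF n).U F N ↔ eS n (Af F) g ∈ US F n N := by
  constructor
  · rintro ⟨h, -⟩
    exact h
  · intro h
    refine ⟨h, ?_⟩
    have h2 := (US F n N).inv_mem h
    intro i j
    have h3 := h2 i j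
    rw [eS_mul_inv] at h3
    exact h3

theorem eS_K (v : Pl F) (g : (spF n).pts (Af F)) :
    g ∈ (spF n).K F v ↔ eS n (Af F) g ∈ KS F n v := by
  constructor
  · rintro ⟨h1, h2⟩
    exact ⟨(eS_U 1 g).1 h1, h2⟩
  · rintro ⟨h1, h2⟩
    exact ⟨(eS_U 1 g).2 h1, h2⟩

theorem sysSp (h : Inp) (hTR : TR) (hHS1 : HS1) (hn : 2 ≤ n) (Γ : Subgroup ((spF n).pts F))
    (hΓ : Γ.FiniteIndex) :
    M.Sys ((spF n).d F) Γ (1 : (spF n).pts (Af F) →* Unit) ((spF n).U F) := by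
  refine hTR (Sp n (Af F)) ((spF n).pts (Af F)) (Sp n F) ((spF n).pts F) Unit Unit (dS F n) ⊤ 1
    (US F n) ((spF n).d F) Γ 1 ((spF n).U F) (eS n (Af F)) (eS n F) (fun _ => rfl) ?_
    (fun _ => Iff.rfl) eS_U (sysS h hn)
  intro x
  have h1 : (Γ.map (eS n F).toMonoidHom).FiniteIndex := fin_map _ Γ hΓ
  have h2 := hHS1 h.SA F n _ h1
  rw [mem_map_e (eS n F) Γ x, h2]

/-- additive functions on `Sp_{2n}(O_v)` -/
theorem perSp (h : Inp) (hn : 2 ≤ n) {A : Type} [AddCommGroup A] {v : Pl F}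
    (hq : n = 2 → (∃ a : A, a ≠ 0 ∧ a + a = 0) → qv v ≠ 2) (φ : Sp n (Af F) → A)
    (hφ : ∀ g ∈ KS F n v, ∀ h ∈ KS F n v, φ (g * h) = φ g + φ h) : ∀ g ∈ KS F n v, φ g = 0 := by
  by_cases h2 : ∃ a : A, a ≠ 0 ∧ a + a = 0
  · exact h.SE2 h.SA h.SE1 F n hn v (fun h => hq h h2) _ φ hφ
  · refine h.SE4 h.SA h.SE3 F n hn v _ (fun a ha => ?_) φ hφ
    by_contra h3
    exact h2 ⟨a, h3, ha⟩

theorem two_fun {G W : Type} [AddCommGroup W] (h : ∃ a : G → W, a ≠ 0 ∧ a + a = 0) : Two W := by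
  obtain ⟨a, h1, h2⟩ := h
  obtain ⟨x, hx⟩ := Function.ne_iff.1 h1
  exact ⟨a x, hx, congrFun h2 x⟩

theorem lcSp (h : Inp) (hn : 2 ≤ n) {W : Type} [AddCommGroup W] {v : Pl F}
    (hq : n = 2 → Two W → qv v ≠ 2) {t : Sp n (Af F)} (ht : AtPl v t) :
    Lc W (fun g : Sp n (Af F) => ∀ i j, Valued.v ((g.1 i j) v) ≤ 1)
      (1 : Sp n (Af F) →* Unit) (KS F n v) t where
  dec κ hκ := by
    obtain ⟨g', l, hl, e, h⟩ := h.SG F n v κ hκ
    exact ⟨g', l, hl, e, fun h' hh' => h h' hh'.2, h t ht⟩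
  fin := h.SF F n v t ht
  rep l hl := ⟨l, hl, rfl, rfl⟩
  per φ hφ g hg _ := perSp h hn (fun h1 h2 => hq h1 (two_fun h2)) φ
    (fun g hg h hh => hφ g hg h hh rfl rfl) g hg
  one := rfl

theorem unipSp (h : Inp) (hTR : TR) (hTL : TL) (hHS1 : HS1) (hn : 2 ≤ n) :
    Unip F (spF n) (spF n) (n = 2) := by
  refine unip_of (1 : (spF n).pts (Af F) →* Unit) (fun _ _ => rfl) (sysSp h hTR hHS1 hn) ?_
  intro W _ v t hq ht _
  refine hTL W (Sp n (Af F)) ((spF n).pts (Af F)) Unit Unit _ 1 (KS F n v) (eS n (Af F) t)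
    (Int2 v) 1 ((spF n).K F v) t (eS n (Af F)) (fun g hg => hg.1) (fun _ => Iff.rfl) (eS_K v) rfl
    (lcSp h hn hq ht.2)

/-! ### the groups of similitudes -/

theorem eG_d (hn : 1 ≤ n) (h : (gspF n).pts F) :
    eG n hn (Af F) ((gspF n).d F h) = dG F n (eG n hn F h) := by
  refine (MulEquiv.symm_apply_eq _).2 (Subtype.ext ?_)
  change Matrix.GeneralLinearGroup.map (algebraMap F (Af F)) h.1 =
    Matrix.GeneralLinearGroup.map (algebraMap F (Af F)) (eG n hn F h).1.1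
  rw [eG_val]

/-- the similitude factor -/
noncomputable def sim (n : ℕ) (hn : 1 ≤ n) : (gspF n).pts (Af F) →* (Af F)ˣ :=
  (nu (n := n) (R := Af F)).comp (eG n hn (Af F)).toMonoidHom

theorem sim_sp (hn : 1 ≤ n) (t : (gspF n).pts (Af F)) (ht : t.1 ∈ (spF n).pts (Af F)) :
    sim n hn t = 1 := by
  have h1 : (eG n hn (Af F) t).1.1.1 * J (Fin n) (Af F) * (eG n hn (Af F) t).1.1.1ᵀ =
      (eG n hn (Af F) t).1.2.1 • J (Fin n) (Af F) := (eG n hn (Af F) t).2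
  have h2 := sim_eq h1 ⟨0, hn⟩
  have h3 := sim_eq (isSymp_iff.1 (show IsSymp t.1 from ht)) ⟨0, hn⟩
  rw [eG_val, ← h3] at h2
  exact Units.ext h2

theorem dvd_nu {N : ℕ} {A : Matrix (Fin n ⊕ Fin n) (Fin n ⊕ Fin n) (Af F)} {a : Af F}
    (h : A * J (Fin n) (Af F) * Aᵀ = a • J (Fin n) (Af F)) (hA : DvdS N (A - 1)) (hn : 1 ≤ n) :
    DvdN N (a - 1) := by
  have e : A * J (Fin n) (Af F) * Aᵀ - J (Fin n) (Af F) =
      (A - 1) * J (Fin n) (Af F) * Aᵀ + J (Fin n) (Af F) * (A - 1)ᵀ := by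
    rw [transpose_sub, transpose_one, Matrix.sub_mul, Matrix.sub_mul, Matrix.mul_sub,
      Matrix.one_mul, Matrix.mul_one]
    abel
  have hA1 : DvdS 1 A := by
    have e2 : A = (A - 1) + 1 := by abel
    rw [e2]
    exact hA.int.add dvdS_one_one
  have h2 : DvdS N (A * J (Fin n) (Af F) * Aᵀ - J (Fin n) (Af F)) := by
    rw [e]
    refine ((hA.mul_int dvdS_J).mul_int fun i j => hA1 j i).add (dvdS_J.int_mul fun i j => hA j i)
  have h3 := h2 (Sum.inr ⟨0, hn⟩) (Sum.inl ⟨0, hn⟩)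
  rw [h, Matrix.sub_apply, Matrix.smul_apply, J_entry, smul_eq_mul, mul_one] at h3
  exact h3

theorem eG_inv (hn : 1 ≤ n) (g : (gspF n).pts (Af F)) :
    (eG n hn (Af F) g).1.1⁻¹ = g.1⁻¹ := by
  rw [eG_val]

theorem eG_U (hn : 1 ≤ n) (N : ℕ) (g : (gspF n).pts (Af F)) :
    g ∈ (gspF n).U F N ↔ eG n hn (Af F) g ∈ UG F n N := by
  rw [mem_UG, eG_inv, eG_val]
  constructor
  · rintro ⟨h1, h2⟩
    have h3 : (eG n hn (Af F) g).1.1.1 * J (Fin n) (Af F) * (eG n hn (Af F) g).1.1.1ᵀ =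
      (eG n hn (Af F) g).1.2.1 • J (Fin n) (Af F) := (eG n hn (Af F) g).2
    have h4 : (eG n hn (Af F) g)⁻¹.1.1.1 * J (Fin n) (Af F) * (eG n hn (Af F) g)⁻¹.1.1.1ᵀ =
      (eG n hn (Af F) g)⁻¹.1.2.1 • J (Fin n) (Af F) := (eG n hn (Af F) g)⁻¹.2
    refine ⟨⟨h1, h2⟩, dvd_nu h3 ?_ hn, dvd_nu h4 ?_ hn⟩
    · rw [eG_val]; exact h1
    · change DvdS N ((eG n hn (Af F) g).1.1⁻¹.1 - 1)
      rw [eG_inv]; exact h2
  · rintro ⟨⟨h1, h2⟩, -⟩
    exact ⟨h1, h2⟩

theorem eG_at (hn : 1 ≤ n) (v : Pl F) (g : (gspF n).pts (Af F)) :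
    At v g.1 ↔ GAt v (eG n hn (Af F) g) := by
  constructor
  · intro h
    rw [gat_iff]
    intro w hw
    have h1 : (gcomp F n w (eG n hn (Af F) g)).1.1 = 1 := by
      have h2 := at_iff.1 h w hw
      rw [← eG_val hn g] at h2
      exact h2
    refine Subtype.ext (Prod.ext h1 (Units.ext ?_))
    have h3 := (gcomp F n w (eG n hn (Af F) g)).2
    have h4 := sim_eq h3 ⟨0, hn⟩
    rw [h1, Units.val_one, Matrix.one_mul, transpose_one, Matrix.mul_one, J_entry] at h4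
    exact h4
  · intro h w hw i j
    rw [← eG_val hn g]
    exact (h w hw).1 i j

theorem eG_K (hn : 1 ≤ n) (v : Pl F) (g : (gspF n).pts (Af F)) :
    g ∈ (gspF n).K F v ↔ eG n hn (Af F) g ∈ KG F n v := by
  rw [mem_KG, ← eG_U hn 1 g, ← eG_at hn v g]
  exact Iff.rfl

theorem eG_int (hn : 1 ≤ n) (v : Pl F) (g : (gspF n).pts (Af F)) (h : IntAt v g.1) :
    GInt v (eG n hn (Af F) g) := by
  have h1 : ∀ i j, (gcomp F n v (eG n hn (Af F) g)).1.1.1 i j ∈ v.adicCompletionIntegers F := by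
    intro i j
    rw [gcomp_val, eG_val]
    exact h i j
  refine ⟨h1, ?_⟩
  have h3 := (gcomp F n v (eG n hn (Af F) g)).2
  have h4 := sim_eq h3 ⟨0, hn⟩
  change (gcomp F n v (eG n hn (Af F) g)).1.2.1 ∈ v.adicCompletionIntegers F
  have h5 : ∀ i j, J (Fin n) (v.adicCompletion F) i j ∈ v.adicCompletionIntegers F := by
    intro i j
    rcases i with i | i <;> rcases j with j | j
    · simp [J]
    · simp only [J, fromBlocks_apply₁₂, Matrix.neg_apply, Matrix.one_apply]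
      refine neg_mem ?_
      split_ifs
      · exact one_mem _
      · exact zero_mem _
    · simp only [J, fromBlocks_apply₂₁, Matrix.one_apply]
      split_ifs
      · exact one_mem _
      · exact zero_mem _
    · simp [J]
  rw [h4, Matrix.mul_apply]
  refine sum_mem fun j _ => ?_
  rw [Matrix.mul_apply, Matrix.transpose_apply]
  exact mul_mem (sum_mem fun i _ => mul_mem (h1 _ _) (h5 _ _)) (h1 _ _)

theorem sysGSp (h : Inp) (hTR : TR) (hn : 2 ≤ n) (hn1 : 1 ≤ n) (Γ : Subgroup ((gspF n).pts F))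
    (hΓ : Γ.FiniteIndex) :
    M.Sys ((gspF n).d F) Γ (sim (F := F) n hn1) ((gspF n).U F) :=
  hTR (GSp n (Af F)) ((gspF n).pts (Af F)) (GSp n F) ((gspF n).pts F) (Af F)ˣ (Af F)ˣ (dG F n)
    (Γ.map (eG n hn1 F).toMonoidHom) nu (UG F n) ((gspF n).d F) Γ (sim n hn1) ((gspF n).U F)
    (eG n hn1 (Af F)) (eG n hn1 F) (eG_d hn1) (mem_map_e _ Γ) (fun _ => Iff.rfl) (eG_U hn1)
    (sysG h hn _ (fin_map _ Γ hΓ))

theorem lcG (h : Inp) (hn : 2 ≤ n) {W : Type} [AddCommGroup W] {v : Pl F}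
    (hq : n = 2 → Two W → qv v ≠ 2) {t : GSp n (Af F)} (ht : GAt v t) (htd : t.1.1.1.IsDiag)
    (htn : nu t = 1) :
    Lc W (fun g : GSp n (Af F) => GInt v g ∧ GInt v g⁻¹)
      (nu : GSp n (Af F) →* (Af F)ˣ) (KG F n v) t where
  dec κ hκ := by
    obtain ⟨g', l, hl, e, h⟩ := h.GG F n v κ hκ.1 hκ.2
    exact ⟨g', l, hl, e, fun h' hh' => h h' hh'.2, h t ht⟩
  fin := h.GF h.GI F n v t ht
  rep l hl := by
    have h3 := dnu_KG hl
    have h4 : t * dnu n (nu l) = dnu n (nu l) * t := by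
      refine Subtype.ext (Prod.ext (Units.ext ?_) (mul_comm _ _))
      change t.1.1.1 * (dnu n (nu l)).1.1.1 = (dnu n (nu l)).1.1.1 * t.1.1.1
      have h5 : (dnu n (nu l)).1.1.1 =
          Matrix.diagonal (Sum.elim (fun _ => 1) (fun _ => (nu l).1)) := by
        rw [dnu_val, ← Matrix.fromBlocks_diagonal, Matrix.diagonal_one]
        congr 1
        ext i j
        rw [Matrix.smul_apply, Matrix.one_apply, Matrix.diagonal_apply]
        split_ifs <;> simp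
      rw [h5, ← htd.diagonal_diag, Matrix.diagonal_mul_diagonal, Matrix.diagonal_mul_diagonal]
      congr 1
      funext i
      exact mul_comm _ _
    refine ⟨l * (dnu n (nu l))⁻¹, (KG F n v).mul_mem hl ((KG F n v).inv_mem h3), ?_, ?_⟩
    · rw [map_mul, map_inv, nu_dnu, mul_inv_cancel]
    · rw [QuotientGroup.eq]
      have h6 : (l * (dnu n (nu l))⁻¹ * t)⁻¹ * (l * t) = dnu n (nu l) := by
        calc (l * (dnu n (nu l))⁻¹ * t)⁻¹ * (l * t) = t⁻¹ * (dnu n (nu l) * t) := by group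
          _ = t⁻¹ * (t * dnu n (nu l)) := by rw [h4]
          _ = _ := by group
      rw [h6]
      exact h3
  per φ hφ g hg hg1 := by
    obtain ⟨s, rfl⟩ := exists_inc hg1
    have h3 : ∀ s ∈ KS F n v, inc s ∈ KG F n v := by
      rintro s ⟨h4, h5⟩
      refine ⟨inc_UG h4, fun w hw => ⟨h5 w hw, ?_⟩⟩
      change ((1 : Af F)) w = 1
      rfl
    have h4 : s ∈ KS F n v := ⟨UG_inc hg.1, fun w hw => (hg.2 w hw).1⟩
    refine perSp h hn (fun h1 h2 => hq h1 (two_fun h2)) (fun s => φ (inc s))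
      (fun a ha b hb => ?_) s h4
    rw [map_mul]
    exact hφ _ (h3 a ha) _ (h3 b hb) rfl rfl
  one := htn

theorem unipGSp (h : Inp) (hTR : TR) (hTL : TL) (hn : 2 ≤ n) :
    Unip F (gspF n) (spF n) (n = 2) := by
  have hn1 : 1 ≤ n := by omega
  refine unip_of (sim n hn1) (sim_sp hn1) (sysGSp h hTR hn hn1) ?_
  intro W _ v t hq ht htn
  refine hTL W (GSp n (Af F)) ((gspF n).pts (Af F)) (Af F)ˣ (Af F)ˣ _ nu (KG F n v)
    (eG n hn1 (Af F) t) (Int2 v) (sim n hn1) ((gspF n).K F v) t (eG n hn1 (Af F))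
    (fun g hg => ⟨eG_int hn1 v g hg.1, ?_⟩) (fun _ => Iff.rfl) (eG_K hn1 v) rfl
    (lcG h hn hq ((eG_at hn1 v t).1 ht.2) ?_ htn)
  · rw [eG_val]
    exact ht.1
  · rw [← map_inv]
    exact eG_int hn1 v g⁻¹ hg.2

end Q4.SPC.Pb
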