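import Pool.Agent.Q4.SPC.Pub2
import Pool.Agent.Q277.SPC.LF
import Pool.Agent.Q4.GLC.Cen
import Pool.Agent.Q4.GLC.Fin
import Pool.Agent.Q4.GLC.Dns
import Pool.Agent.Q4.GLC.Per
import Pool.Agent.Q4.GLC.Sre

/-!
# Assembly for the classical groups (helper4, project SPC): `GL_n` and `SL_n`
-/

open IsDedekindDomain NumberField Matrix Q4.GLC

set_option linter.unusedVariables false

namespace Q4.SPC.Pb

variable {F : Type} [Field F] [NumberField F] {n : ℕ}

/-! ### the general linear groups -/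

/-- the isomorphism -/
def eL (n : ℕ) (R : Type) [CommRing R] : (glF n).pts R ≃* GL (Fin n) R := Subgroup.topEquiv

/-- the determinant -/
def dL (n : ℕ) (R : Type) [CommRing R] : (glF n).pts R →* Rˣ :=
  (Matrix.GeneralLinearGroup.det : GL (Fin n) R →* Rˣ).comp (eL n R).toMonoidHom

theorem det_one_iff {g : GL (Fin n) (Af F)} :
    (Matrix.GeneralLinearGroup.det : GL (Fin n) (Af F) →* (Af F)ˣ) g = 1 ↔ g.1.det = 1 := by
  constructor
  · intro h
    have := congrArg Units.val h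
    simpa using this
  · intro h
    exact Units.ext h

theorem dg_det {γ : GQ F n} (h : γ.1.det = 1) :
    (Matrix.GeneralLinearGroup.det : Gf F n →* (Af F)ˣ) (dg F n γ) = 1 := by
  rw [det_one_iff]
  change (γ.1.map (algebraMap F (Af F))).det = 1
  have := (RingHom.map_det (algebraMap F (Af F)) γ.1).symm
  rw [h, map_one] at this
  exact this

theorem sysGL0 (hn : 3 ≤ n) (Γ : Subgroup (GQ F n)) (hΓ : Γ.FiniteIndex) :
    M.Sys (dg F n) Γ (Matrix.GeneralLinearGroup.det : Gf F n →* (Af F)ˣ) (UN F n) := by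
  have hDns := tDns tSre tSra tApp tDen
  have hSlf := tSlf tSre
  have hS := mkSys tDen hDns hSlf (tCen (tVan tDen) tDec tDen tInt tSre)
    (tFin (tIdf tCls tApp tInt) hDns tDen hSlf) hn Γ hΓ
  exact
    { mono := hS.mono
      nrm := hS.nrm
      den := hS.den
      dns := fun s hs M hM => by
        obtain ⟨γ, h1, h2⟩ := hDns F n s (det_one_iff.1 hs) M hM
        exact ⟨γ, hSlf F n Γ hΓ γ h1, dg_det h1, h2⟩
      cen := fun A _ N hN φ hφ γ hγ _ => hS.cen A N hN φ hφ γ hγ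
      fin := hS.fin }

theorem sysGL (hTR : TR) (hn : 3 ≤ n) (Γ : Subgroup ((glF n).pts F)) (hΓ : Γ.FiniteIndex) :
    M.Sys ((glF n).d F) Γ (dL n (Af F)) ((glF n).U F) :=
  hTR (Gf F n) ((glF n).pts (Af F)) (GQ F n) ((glF n).pts F) (Af F)ˣ (Af F)ˣ (dg F n)
    (Γ.map (eL n F).toMonoidHom) Matrix.GeneralLinearGroup.det (UN F n) ((glF n).d F) Γ
    (dL n (Af F)) ((glF n).U F) (eL n (Af F)) (eL n F) (fun _ => rfl) (mem_map_e _ Γ)
    (fun _ => Iff.rfl) (fun _ _ => Iff.rfl) (sysGL0 hn _ (fin_map _ Γ hΓ))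

theorem det_mem {K : Type} [Field K] {O : Subring K} {M : Matrix (Fin n) (Fin n) K}
    (h : ∀ i j, M i j ∈ O) : M.det ∈ O := by
  rw [Matrix.det_apply']
  refine sum_mem fun σ _ => mul_mem ?_ (prod_mem fun i _ => h _ _)
  exact intCast_mem _ _

/-- the component homomorphism -/
noncomputable def ev (w : Pl F) : Af F →+* w.adicCompletion F := RestrictedProduct.evalRingHom _ w

theorem Kv_det {v : Pl F} {l : Gf F n} (hl : l ∈ Kv (F := F) n v) :
    Valued.v (l.1.det v) = 1 ∧ ∀ w, w ≠ v → l.1.det w = 1 := by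
  have hev : ∀ (w : Pl F) (A : Matrix (Fin n) (Fin n) (Af F)),
      A.det w = (A.map (ev w)).det := by
    intro w A
    exact RingHom.map_det (ev w) A
  have hint : ∀ g : Gf F n, g ∈ UN F n 1 → Valued.v (g.1.det v) ≤ 1 := by
    intro g hg
    rw [hev]
    have : (g.1.map (ev v)).det ∈
        (v.adicCompletionIntegers F).toSubring := by
      refine det_mem fun i j => ?_
      exact Q277.SPC.LFj.le_of_int (Q277.SPC.LFj.int_of_mem hg i j) v
    exact this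
  obtain ⟨h1, h2⟩ := Q277.SPC.LFj.mem_Kv_iff.1 hl
  constructor
  · have h3 := hint l h1
    have h4 := hint l⁻¹ ((UN F n 1).inv_mem h1)
    have h5 : l.1.det * l⁻¹.1.det = 1 := by
      rw [← Matrix.det_mul, ← Units.val_mul, mul_inv_cancel, Units.val_one, Matrix.det_one]
    have h6 : l.1.det v * l⁻¹.1.det v = 1 := congrArg (fun z : Af F => z v) h5
    have h7 : Valued.v (l.1.det v) * Valued.v (l⁻¹.1.det v) = 1 := by
      rw [← map_mul, h6, map_one]
    refine le_antisymm h3 ?_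
    calc (1 : WithZero (Multiplicative ℤ)) = Valued.v (l.1.det v) * Valued.v (l⁻¹.1.det v) := h7.symm
      _ ≤ Valued.v (l.1.det v) * 1 := mul_le_mul_right h4 _
      _ = _ := mul_one _
  · intro w hw
    rw [hev]
    have h3 : l.1.map (ev w) = 1 := congrArg Units.val (Q277.SPC.LFj.atV_iff.1 h2 w hw)
    rw [h3, Matrix.det_one]

theorem lcGL (hLG : LG) (hLF : LF) (hn : 3 ≤ n) {W : Type} [AddCommGroup W] {v : Pl F}
    {t : Gf F n} (ht : AtV v t) (htd : t.1.IsDiag)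
    (htn : (Matrix.GeneralLinearGroup.det : Gf F n →* (Af F)ˣ) t = 1) :
    Lc W (fun g : Gf F n => ∀ i j, Valued.v ((g.1 i j) v) ≤ 1 ∧ Valued.v ((g⁻¹.1 i j) v) ≤ 1)
      (Matrix.GeneralLinearGroup.det : Gf F n →* (Af F)ˣ) (Kv n v) t where
  dec κ hκ := by
    obtain ⟨g', l, hl, e, h, -⟩ := hLG F n v κ hκ
    exact ⟨g', l, hl, e, fun h' hh' => h h' (Q277.SPC.LFj.mem_Kv_iff.1 hh').2, h t ht⟩
  fin := hLF tDen F n v t ht
  rep l hl := by
    obtain ⟨hd1, hd2⟩ := Kv_det hl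
    have h3 : dia F n (Matrix.GeneralLinearGroup.det l) ∈ Kv (F := F) n v := dia_Kv hd1 hd2
    have h4 : t * dia F n (Matrix.GeneralLinearGroup.det l) =
        dia F n (Matrix.GeneralLinearGroup.det l) * t := by
      refine Units.ext ?_
      rw [Units.val_mul, Units.val_mul, dia_val, ← htd.diagonal_diag,
        Matrix.diagonal_mul_diagonal, Matrix.diagonal_mul_diagonal]
      congr 1
      funext i
      exact mul_comm _ _
    refine ⟨l * (dia F n (Matrix.GeneralLinearGroup.det l))⁻¹, (Kv n v).mul_mem hl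
      ((Kv n v).inv_mem h3), ?_, ?_⟩
    · rw [map_mul, map_inv, det_dia (by omega), mul_inv_cancel]
    · rw [QuotientGroup.eq]
      have h6 : (l * (dia F n (Matrix.GeneralLinearGroup.det l))⁻¹ * t)⁻¹ * (l * t) =
          dia F n (Matrix.GeneralLinearGroup.det l) := by
        calc (l * (dia F n (Matrix.GeneralLinearGroup.det l))⁻¹ * t)⁻¹ * (l * t)
            = t⁻¹ * (dia F n (Matrix.GeneralLinearGroup.det l) * t) := by group
          _ = t⁻¹ * (t * dia F n (Matrix.GeneralLinearGroup.det l)) := by rw [h4]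
          _ = _ := by group
      rw [h6]
      exact h3
  per φ hφ g hg hg1 := by
    obtain ⟨m, rfl⟩ : ∃ m, n = m + 3 := ⟨n - 3, by omega⟩
    exact tPer tSre F m v _ φ (fun g hg h hh h4 h5 => hφ g hg h hh (Units.ext h4) (Units.ext h5))
      g hg (det_one_iff.1 hg1)
  one := htn

theorem kgl_iff (v : Pl F) (g : (glF n).pts (Af F)) :
    g ∈ (glF n).K F v ↔ eL n (Af F) g ∈ Kv (F := F) n v := by
  rw [Q277.SPC.LFj.mem_Kv_iff]
  exact Iff.rfl

theorem unipGL (hTR : TR) (hTL : TL) (hLG : LG) (hLF : LF) (hn : 3 ≤ n) :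
    Unip F (glF n) (slF n) False := by
  refine unip_of (dL n (Af F)) (fun t ht => ht) (sysGL hTR hn) ?_
  intro W _ v t _ ht htn
  exact hTL W (Gf F n) ((glF n).pts (Af F)) (Af F)ˣ (Af F)ˣ _ Matrix.GeneralLinearGroup.det
    (Kv n v) (eL n (Af F) t) (Int2 v) (dL n (Af F)) ((glF n).K F v) t (eL n (Af F))
    (fun g hg i j => ⟨hg.1 i j, hg.2 i j⟩) (fun _ => Iff.rfl) (kgl_iff v) rfl
    (lcGL hLG hLF hn ht.2 ht.1 htn)

/-! ### the special linear groups -/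

theorem sl_mem {R : Type} [CommRing R] {g : GL (Fin n) R} (h : g.1.det = 1) :
    g ∈ (slF n).pts R := Units.ext h

theorem sl_det {R : Type} [CommRing R] (g : (slF n).pts R) : g.1.1.det = 1 := by
  have h : Matrix.GeneralLinearGroup.det g.1 = 1 := g.2
  exact congrArg Units.val h

theorem slU {N : ℕ} {g : (slF n).pts (Af F)} : g ∈ (slF n).U F N ↔ g.1 ∈ UN F n N := Iff.rfl

theorem slK {v : Pl F} {g : (slF n).pts (Af F)} :
    g ∈ (slF n).K F v ↔ g.1 ∈ Kv (F := F) n v := by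
  rw [Q277.SPC.LFj.mem_Kv_iff]
  exact Iff.rfl

theorem sl_dns (s : (slF n).pts (Af F)) (M : ℕ) (hM : 1 ≤ M) :
    ∃ γ : (slF n).pts F, ((slF n).d F γ)⁻¹ * s ∈ (slF n).U F M := by
  obtain ⟨γ, h1, h2⟩ := tDns tSre tSra tApp tDen F n s.1 (sl_det s) M hM
  exact ⟨⟨γ, sl_mem h1⟩, h2⟩

theorem sysSL0 (hn : 3 ≤ n) :
    M.Sys ((slF n).d F) ⊤ (1 : (slF n).pts (Af F) →* Unit) ((slF n).U F) where
  mono _ _ h _ hu := UN_mono h hu
  nrm _ _ hv _ hu := UN_conj hv hu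
  den g N hN := by
    obtain ⟨M, hM, h1, h2⟩ := tDen F n g.1 N hN
    exact ⟨M, hM, h1, fun u hu => h2 u.1 hu⟩
  dns s _ M hM := by
    obtain ⟨γ, h⟩ := sl_dns s M hM
    exact ⟨γ, Subgroup.mem_top γ, rfl, h⟩
  cen A _ N hN φ hφ γ _ _ := by
    classical
    obtain ⟨m, rfl⟩ : ∃ m, n = m + 3 := ⟨n - 3, by omega⟩
    let Γ : Subgroup (GQ F (m + 3)) := (slF (m + 3)).pts F
    let φ' : GQ F (m + 3) → A := fun g => if h : g ∈ Γ then φ ⟨g, h⟩ else 0
    have hφ' : ∀ g : Γ, φ' g.1 = φ g := fun g => dif_pos g.2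
    obtain ⟨M, hM, h⟩ := tCen (tVan tDen) tDec tDen tInt tSre F m Γ (fun γ h => sl_mem h) A N hN φ'
      (fun δ hδ δ' hδ' h1 h2 => by
        have e1 : φ' (δ * δ') = φ (⟨δ, hδ⟩ * ⟨δ', hδ'⟩) := hφ' (⟨δ, hδ⟩ * ⟨δ', hδ'⟩)
        rw [e1, hφ' ⟨δ, hδ⟩, hφ' ⟨δ', hδ'⟩]
        exact hφ ⟨δ, hδ⟩ (Subgroup.mem_top _) ⟨δ', hδ'⟩ (Subgroup.mem_top _) h1 h2) γ.1
    refine ⟨M, hM, fun δ _ hδ => ?_⟩
    have h2 := h δ.1 δ.2 hδ
    have e1 : φ' (γ.1⁻¹ * δ.1 * γ.1) = φ (γ⁻¹ * δ * γ) := hφ' (γ⁻¹ * δ * γ)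
    rw [e1, hφ'] at h2
    exact h2
  fin M hM := by
    refine ⟨{1}, fun g => ?_⟩
    obtain ⟨γ, h⟩ := sl_dns g M hM
    exact ⟨γ, Subgroup.mem_top γ, 1, Finset.mem_singleton_self 1, _, h, by group⟩

theorem decSL (hLG : LG) {v : Pl F} {t : (slF n).pts (Af F)} (ht : AtV v t.1)
    (κ : (slF n).pts (Af F)) (hκ : Int2 v κ) :
    ∃ κ' : (slF n).pts (Af F), ∃ l ∈ (slF n).K F v, κ = κ' * l ∧
      (∀ h ∈ (slF n).K F v, κ' * h = h * κ') ∧ κ' * t = t * κ' := by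
  obtain ⟨g', l, hl, e, h, hd⟩ := hLG F n v κ.1 fun i j => ⟨hκ.1 i j, hκ.2 i j⟩
  have h1 := hd (sl_det κ)
  have h2 : g' = κ.1 * l⁻¹ := by rw [e]; group
  have h3 : l ∈ (slF n).pts (Af F) := sl_mem h1
  have h4 : g' ∈ (slF n).pts (Af F) := by
    rw [h2]
    exact Subgroup.mul_mem _ κ.2 (Subgroup.inv_mem _ h3)
  refine ⟨⟨g', h4⟩, ⟨l, h3⟩, slK.2 hl, Subtype.ext e, fun h' hh' => Subtype.ext ?_,
    Subtype.ext (h t.1 ht)⟩
  exact h h'.1 (Q277.SPC.LFj.mem_Kv_iff.1 (slK.1 hh')).2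

/-- finiteness of orbits in a subgroup -/
theorem fin_sub {G : Type} [Group G] (P K : Subgroup G) (L : Subgroup P)
    (hL : ∀ g : P, g ∈ L ↔ g.1 ∈ K) (t : P)
    (h1 : (MulAction.orbit K (t.1 : G ⧸ K)).Finite) : (MulAction.orbit L (t : P ⧸ L)).Finite := by
  let j : P ⧸ L → G ⧸ K :=
    Quotient.map' Subtype.val fun a b hab => by
      rw [QuotientGroup.leftRel_apply] at hab ⊢
      exact (hL _).1 hab
  have hj : Function.Injective j := by
    intro a b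
    induction a using QuotientGroup.induction_on with
    | H a =>
      induction b using QuotientGroup.induction_on with
      | H b =>
        intro h
        have h2 : ((a.1 : G) : G ⧸ K) = (b.1 : G) := h
        rw [QuotientGroup.eq] at h2 ⊢
        exact (hL _).2 h2
  refine Set.Finite.of_finite_image (f := j) (h1.subset ?_) hj.injOn
  rintro _ ⟨_, ⟨l, rfl⟩, rfl⟩
  exact ⟨⟨l.1.1, (hL _).1 l.2⟩, rfl⟩

theorem perSL (hn : 3 ≤ n) {A : Type} [AddCommGroup A] {v : Pl F}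
    (φ : (slF n).pts (Af F) → A)
    (hφ : ∀ g ∈ (slF n).K F v, ∀ h ∈ (slF n).K F v, φ (g * h) = φ g + φ h)
    (g : (slF n).pts (Af F)) (hg : g ∈ (slF n).K F v) : φ g = 0 := by
  classical
  obtain ⟨m, rfl⟩ : ∃ m, n = m + 3 := ⟨n - 3, by omega⟩
  let φ' : Gf F (m + 3) → A := fun g =>
    if h : g ∈ (slF (m + 3)).pts (Af F) then φ ⟨g, h⟩ else 0
  have hφ' : ∀ (g : Gf F (m + 3)) (h : g ∈ (slF (m + 3)).pts (Af F)), φ' g = φ ⟨g, h⟩ :=
    fun g h => dif_pos h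
  have h1 := tPer tSre F m v _ φ' (fun a ha b hb h1 h2 => by
    have ha' : a ∈ (slF (m + 3)).pts (Af F) := sl_mem h1
    have hb' : b ∈ (slF (m + 3)).pts (Af F) := sl_mem h2
    rw [hφ' a ha', hφ' b hb', hφ' (a * b) (Subgroup.mul_mem _ ha' hb')]
    exact hφ ⟨a, ha'⟩ (slK.2 ha) ⟨b, hb'⟩ (slK.2 hb)) g.1 (slK.1 hg) (sl_det g)
  rw [hφ' g.1 g.2] at h1
  exact h1

theorem lcSL (hLG : LG) (hLF : LF) (hn : 3 ≤ n) {W : Type} [AddCommGroup W] {v : Pl F}
    {t : (slF n).pts (Af F)} (ht : AtV v t.1) :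
    Lc W (Int2 v) (1 : (slF n).pts (Af F) →* Unit) ((slF n).K F v) t where
  dec := decSL hLG ht
  fin := fin_sub _ _ _ (fun _ => slK) t (hLF tDen F n v t.1 ht)
  rep l hl := ⟨l, hl, rfl, rfl⟩
  per φ hφ g hg _ := perSL hn φ (fun a ha b hb => hφ a ha b hb rfl rfl) g hg
  one := rfl

theorem unipSL (hHS2 : HS2) (hLG : LG) (hLF : LF) (hn : 3 ≤ n) :
    Unip F (slF n) (slF n) False := by
  refine unip_of (1 : (slF n).pts (Af F) →* Unit) (fun _ _ => rfl) ?_ ?_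
  · intro Γ hΓ
    obtain rfl : Γ = ⊤ := hHS2 tSre F n Γ hΓ
    exact sysSL0 hn
  · intro W _ v t _ ht _
    exact lcSL hLG hLF hn ht.2

end Q4.SPC.Pb
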