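import Pool.Agent.Q4.SPC.Pub3
import Pool.Agent.Q58.SPC.LP

/-!
# The Galois representations attached to the trivial system of eigenvalues (helper4, project SPC)
-/

open IsDedekindDomain NumberField Matrix Polynomial Q4.GLC

namespace Q4.SPC.Pb

section defs

variable {F : Type} [Field F] [NumberField F] {k : Type} [Field k] {m : ℕ}

/-- For every place `v ∉ S` with `q_v ≠ 0` in `k`, every prime `Q` of `L` over `v` and every Frobenius
element `g` at `Q`, the characteristic polynomial of `r g` satisfies `P q_v`. -/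
def FrobP {L : Type} [Field L] [NumberField L] [Algebra F L] (r : (L ≃ₐ[F] L) → GL (Fin m) k)
    (S : Set (Pl F)) (P : k → Polynomial k → Prop) : Prop :=
  ∀ v ∉ S, (qv v : k) ≠ 0 → ∀ Q : Ideal (𝓞 L), Q.IsPrime →
    Q.comap (algebraMap (𝓞 F) (𝓞 L)) = v.asIdeal → ∀ g : L ≃ₐ[F] L, IsFrobAt g Q (qv v) →
      P (qv v) (r g).1.charpoly

/-- the polynomial `∏ (X - a q^i)`, `0 ≤ i < n`, for some `a` -/
def PolyP (n : ℕ) (q : k) (f : Polynomial k) : Prop :=
  ∃ a : k, f = ∏ i ∈ Finset.range n, (X - C (a * q ^ i))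

/-- the polynomial `∏ (X - q^i)`, `-n ≤ i ≤ n` -/
def PolyO (n : ℕ) (q : k) (f : Polynomial k) : Prop :=
  f = ∏ i ∈ Finset.range (2 * n + 1), (X - C (q ^ ((i : ℤ) - (n : ℤ))))

/-- `r` is a projective representation -/
def IsProj {Q : Type} [Group Q] (r : Q → GL (Fin m) k) : Prop :=
  ∀ g h, ∃ c : k, (r (g * h)).1 = c • ((r g).1 * (r h).1)

/-- `r` has an invariant subspace different from zero and from the whole space -/
def Red {Q : Type} (r : Q → GL (Fin m) k) : Prop :=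
  ∃ V : Submodule k (Fin m → k), V ≠ ⊥ ∧ V ≠ ⊤ ∧ ∀ g, ∀ w ∈ V, (r g).1 *ᵥ w ∈ V

end defs

variable {F : Type} [Field F] [NumberField F] {k : Type} [Field k]

theorem galP (hLP : LP) [IsAlgClosed k] (ℓ : ℕ) [Fact ℓ.Prime] [CharP k ℓ] {S : Set (Pl F)}
    (hS : S.Finite) {L : Type} [Field L] [NumberField L] [Algebra F L] [IsGalois F L] {n : ℕ}
    (hn : 2 ≤ n) (r : (L ≃ₐ[F] L) → GL (Fin n) k) (hr : IsProj r) (hP : FrobP r S (PolyP n)) :
    Red r := by
  obtain ⟨N, hN, hcyc, hfr⟩ := tFrb F L ℓ Fact.out S hS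
  have : FiniteDimensional F L := Module.Finite.of_restrictScalars_finite ℚ F L
  refine hLP k ℓ n hn (L ≃ₐ[F] L) N hcyc r hr ?_
  intro g hg
  obtain ⟨v, hv, P, hP', hPv, hgP, hq⟩ := hfr g hg
  have hq1 : ((qv v : ℕ) : k) = 1 := by
    have h1 : qv v ≡ 1 [MOD ℓ] := by
      rw [Nat.ModEq, hq, Nat.mod_eq_of_lt (Fact.out : ℓ.Prime).one_lt]
    have := (CharP.natCast_eq_natCast k ℓ).2 h1
    rw [this, Nat.cast_one]
  obtain ⟨a, h⟩ := hP v hv (by rw [hq1]; exact one_ne_zero) P hP' hPv g hgP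
  refine ⟨a, ?_⟩
  rw [h, hq1]
  simp only [one_pow, mul_one, Finset.prod_const, Finset.card_range]

theorem galO (h : Inp) [IsAlgClosed k] (ℓ : ℕ) [Fact ℓ.Prime] [CharP k ℓ] {S : Set (Pl F)}
    (hS : S.Finite) {L : Type} [Field L] [NumberField L] [Algebra F L] [IsGalois F L] {n : ℕ}
    (hn : 1 ≤ n) (r : (L ≃ₐ[F] L) →* GL (Fin (2 * n + 1)) k)
    (q : QuadraticForm k (Fin (2 * n + 1) → k)) (hq : Preserves r q)
    (hP : FrobP r S (PolyO n)) : SingLine r q :=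
  orth h hn ℓ hS r q hq hP

end Q4.SPC.Pb
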