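import Pool.Agent.Q4.SPC.GDefs
import Pool.Agent.Q4.SPC.Lvl

/-!
# Statements of the lemma jobs for the groups of similitudes (project SPC of helper4)

The definitions `GSp`, `nu`, `inc`, `dnu`, `gMap`, `UG`, `GAt`, `KG`, `dG`, `GInt` are in
`Pool/Agent/Q4/SPC/GDefs.lean`. For `g : GSp n R` the matrix is `g.1.1.1`, its inverse `g.1.1⁻¹.1`, the
similitude factor `g.1.2.1` (`nu g = g.1.2`).
-/

open IsDedekindDomain NumberField Matrix Q4.GLC

namespace Q4.SPC

/-- JOB GI: denominators.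

Proof. As `tDen` in `Pool/Agent/Q4/GLC/Den.lean` (for `GL_n`; index type `Fin n ⊕ Fin n` here) and
`Pool.Agent.Q211.SPC.SI`: `D` a common denominator of the entries of `g` and `g⁻¹`, `M = N * D ^ 2`; the
similitude factor of `g * u * g⁻¹` is that of `u`. -/
def GI : Prop :=
  ∀ (F : Type) [Field F] [NumberField F] (n : ℕ) (g : GSp n (Af F)) (N : ℕ), 1 ≤ N →
    ∃ M : ℕ, 1 ≤ M ∧ N ∣ M ∧ ∀ u ∈ UG F n M, g * u * g⁻¹ ∈ UG F n N

/-- JOB GF: the double cosets at `v` consist of finitely many cosets.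

Proof. As `SF` (`Pool.Agent.Q158.SPC.SF`): by `GI` there is `M ≥ 1` with `t⁻¹ u t ∈ UG F n 1` for
`u ∈ UG F n M`, so `KG F n v ∩ UG F n M` fixes the coset `t KG`, and `KG / (KG ∩ UG M)` is finite. -/
def GF : Prop :=
  GI → ∀ (F : Type) [Field F] [NumberField F] (n : ℕ) (v : Pl F) (t : GSp n (Af F)), GAt v t →
    (MulAction.orbit (KG F n v) (t : GSp n (Af F) ⧸ KG F n v)).Finite

/-- JOB GG: the decomposition at a place.

Proof. As `SG` (`Pool.Agent.Q238.SPC.SG`): `l` has the component of `g` at `v` and the components `1`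
at the other places, `g' = g l⁻¹`. -/
def GG : Prop :=
  ∀ (F : Type) [Field F] [NumberField F] (n : ℕ) (v : Pl F) (g : GSp n (Af F)),
    GInt v g → GInt v g⁻¹ →
    ∃ g' : GSp n (Af F), ∃ l ∈ KG F n v, g = g' * l ∧
      ∀ h : GSp n (Af F), GAt v h → g' * h = h * g'

/-- JOB GS: subgroups of finite index of `GSp_{2n}(F)` contain `Sp_{2n}(F)`.

Proof. The normal core `Γ₀` of `Γ` has finite index `m ≥ 1`, `h ^ m ∈ Γ₀` for all `h`
(`Subgroup.pow_index_mem`). Fields have stable range one (`Q211.GLC.sr1_field`), so by `SA` it is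
enough to show `inc x ∈ Γ` for `IsEl 1 x`; and `x = y ^ m` for an elementary matrix `y` with the
parameter divided by `m` (`up_mul`, `lo_mul`, `lvt_mul` of `El.lean`; `m ≠ 0` in `F`). -/
def GS : Prop :=
  SA → ∀ (F : Type) [Field F] [NumberField F] (n : ℕ) (Γ : Subgroup (GSp n F)), Γ.FiniteIndex →
    ∀ s : Sp n F, inc s ∈ Γ

/-- JOB GX: finitely many double cosets.

Proof. Let `H'` be the image of `Γ` under `nu`, a subgroup of finite index of `Fˣ` (as `nu` is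
surjective, `nu_dnu`). `SIdf` for `H'` and `M` gives a finite set `X₀` of ideles with
`a = α x u`, `α ∈ H'`, `x ∈ X₀`, `u ≡ 1` modulo `M`, for all ideles `a`; apply this to `a = nu g`.
Let `γ ∈ Γ`, `nu γ = α`, `x' = dnu n x`, `u' = dnu n u ∈ UG F n M`,
`s = (dG F n γ)⁻¹ * g * u'⁻¹ * x'⁻¹`: `nu s = 1`. By `GI` there is `M'` with
`x'⁻¹ * w * x' ∈ UG F n M` for all `w ∈ UG F n M'` (one `M'` for all `x ∈ X₀`). By the hypothesis
`s = dG F n γ' * w` with `γ' ∈ Γ`, `w ∈ UG F n M'`, so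
`g = dG F n (γ * γ') * x' * ((x'⁻¹ * w * x') * u')`. -/
def GX : Prop :=
  GI → SIdf → ∀ (F : Type) [Field F] [NumberField F] (n : ℕ) (Γ : Subgroup (GSp n F)),
    Γ.FiniteIndex →
    (∀ s : GSp n (Af F), nu s = 1 → ∀ M : ℕ, 1 ≤ M → ∃ γ ∈ Γ, (dG F n γ)⁻¹ * s ∈ UG F n M) →
    ∀ M : ℕ, 1 ≤ M → ∃ X : Finset (GSp n (Af F)), ∀ g : GSp n (Af F),
      ∃ γ ∈ Γ, ∃ x ∈ X, ∃ u ∈ UG F n M, g = dG F n γ * x * u

/-- JOB GN: rational similitudes of level `L` are integral, and are products of an integral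
symplectic matrix and of a matrix `diag (1, ε)`.

Proof. As `exists_int_sp` in `Pool/Agent/Q4/SPC/Lvl.lean` (there for `Sp n F`), with `tInt` for the
entries of `δ`, `δ⁻¹` and for the similitude factor and its inverse: `ε` is the similitude factor,
`d` is `δ * dnu n ε⁻¹`. -/
def GN : Prop :=
  ∀ (F : Type) [Field F] [NumberField F] (n : ℕ) (L : ℕ), 1 ≤ L → ∀ δ : GSp n F,
    dG F n δ ∈ UG F n L →
    ∃ (d : Sp n (𝓞 F)) (ε : (𝓞 F)ˣ), Cg (L : 𝓞 F) d ∧ (L : 𝓞 F) ∣ ε.1 - 1 ∧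
      δ = inc (mS F n d) * dnu n (Units.map (algebraMap (𝓞 F) F).toMonoidHom ε)

end Q4.SPC
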